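import Pool.Agent.H67.Gen.Basic
import Mathlib.RingTheory.PowerSeries.Expand

/-!
# Reduction of the modulus

If `(p, q, e)` is flat with `e < p < q` pairwise coprime, then the triple `(e, p, q)` with the
smaller modulus `e` is flat.
-/

namespace Pool.Agent.H67.Flat

open PowerSeries

/-- coefficients of the inclusion-exclusion polynomial `Q_{p,q,r}` -/
noncomputable def cf (p q r : ℕ) (lam : ℤ) (n : ℕ) : ℤ :=
  ∑ j ∈ Finset.range (n / r + 1), aF p q lam j * bF p q ((n : ℤ) - r * j)

theorem A_id {p q : ℕ} {lam : ℤ} (hp : 0 < p) (hq : 0 < q) (hlam : (p : ℤ) ∣ lam * q - 1) :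
    mk (fun j : ℕ => aF p q lam j) * ((1 - (X : PowerSeries ℤ) ^ p) * (1 - X ^ q)) =
      (1 - X) * (1 - X ^ (p * q)) := by
  have hp' : (0 : ℤ) < p := by exact_mod_cast hp
  have hq' : (0 : ℤ) < q := by exact_mod_cast hq
  have h1 : mk (fun j : ℕ => aF p q lam j) =
      (1 - (X : PowerSeries ℤ)) * mk (fun j : ℕ => sF p q lam j) := by
    ext n
    have := coeff_one_sub_X_pow_mul (fun j : ℕ => sF p q lam j) 1 n
    rw [pow_one] at this
    rw [this, coeff_mk]
    unfold aF
    split_ifs with h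
    · rw [Nat.cast_sub h, Nat.cast_one]
    · rw [sF_neg (x := (n : ℤ) - 1) hp' hq']
      have : n = 0 := by omega
      rw [this]; norm_num
  rw [h1, ← S_id (p := p) (q := q) hp hq hlam]
  ring

theorem mk_cf {p q r : ℕ} {lam : ℤ} (hr : 0 < r) :
    mk (cf p q r lam) = (PowerSeries.expand r hr.ne' (mk (fun j : ℕ => aF p q lam j))) *
      mk (fun j : ℕ => bF p q j) := by
  ext n
  rw [coeff_mk, coeff_mul, Finset.Nat.sum_antidiagonal_eq_sum_range_succ
    (fun i j => coeff i (PowerSeries.expand r hr.ne' (mk (fun j : ℕ => aF p q lam j))) *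
      coeff j (mk (fun j : ℕ => bF p q j))) n]
  unfold cf
  have hinj : Function.Injective (fun j : ℕ => r * j) :=
    fun a b h => Nat.eq_of_mul_eq_mul_left hr h
  have hF : ∀ j ∈ Finset.range (n / r + 1), aF p q lam j * bF p q ((n : ℤ) - r * j) =
      (fun i : ℕ => coeff i (PowerSeries.expand r hr.ne' (mk (fun j : ℕ => aF p q lam j))) *
        bF p q ((n - i : ℕ) : ℤ)) (r * j) := by
    intro j hj
    rw [Finset.mem_range] at hj
    have h9 : r * j ≤ n := by
      have h10 : j ≤ n / r := by omega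
      calc r * j ≤ r * (n / r) := Nat.mul_le_mul_left r h10
        _ ≤ n := Nat.mul_div_le n r
    simp only
    rw [coeff_expand_mul, coeff_mk, Nat.cast_sub h9]
    push_cast
    rfl
  simp only [coeff_mk]
  rw [Finset.sum_congr rfl hF, ← Finset.sum_image (g := fun j => r * j)
    (s := Finset.range (n / r + 1)) (f := fun i : ℕ =>
      coeff i (PowerSeries.expand r hr.ne' (mk (fun j : ℕ => aF p q lam j))) *
      bF p q ((n - i : ℕ) : ℤ)) (fun a _ b _ h => hinj h)]
  apply Finset.sum_subset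
  · intro x hx
    rw [Finset.mem_image] at hx
    obtain ⟨j, hj, rfl⟩ := hx
    rw [Finset.mem_range] at hj
    rw [Finset.mem_range]
    have h10 : j ≤ n / r := by omega
    have h11 : r * j ≤ n := (Nat.mul_le_mul_left r h10).trans (Nat.mul_div_le n r)
    omega
  · intro x hx hx'
    rw [Finset.mem_range] at hx
    rw [coeff_expand_of_not_dvd, zero_mul]
    rintro ⟨j, rfl⟩
    apply hx'
    rw [Finset.mem_image]
    refine ⟨j, ?_, rfl⟩
    rw [Finset.mem_range]
    have : j ≤ n / r := by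
      rw [Nat.le_div_iff_mul_le hr, mul_comm]
      omega
    omega

theorem cf_gen {p q r : ℕ} {lam : ℤ} (hp2 : 2 ≤ p) (hpq : p < q) (hr : 0 < r)
    (hlam : (p : ℤ) ∣ lam * q - 1) :
    mk (cf p q r lam) * ((1 - (X : PowerSeries ℤ)) * (1 - X ^ (p * q)) * (1 - X ^ (p * r)) *
      (1 - X ^ (q * r))) = (1 - X ^ p) * (1 - X ^ q) * (1 - X ^ r) * (1 - X ^ (p * q * r)) := by
  have hp : 0 < p := by omega
  have hq : 0 < q := by omega
  have h1 := congrArg (PowerSeries.expand r hr.ne') (A_id hp hq hlam)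
  simp only [map_mul, map_sub, map_pow, map_one, PowerSeries.expand_X] at h1
  have h2 := B_id hp hpq hp2
  rw [mk_cf hr]
  have e1 : ((X : PowerSeries ℤ) ^ r) ^ p = X ^ (p * r) := by rw [← pow_mul, mul_comm]
  have e2 : ((X : PowerSeries ℤ) ^ r) ^ q = X ^ (q * r) := by rw [← pow_mul, mul_comm]
  have e3 : ((X : PowerSeries ℤ) ^ r) ^ (p * q) = X ^ (p * q * r) := by rw [← pow_mul, mul_comm]
  rw [e1, e2, e3] at h1
  linear_combination ((1 - (X : PowerSeries ℤ)) * (1 - X ^ (p * q)) *
    mk (fun j : ℕ => bF p q j)) * h1 + ((1 - (X : PowerSeries ℤ) ^ r) *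
      (1 - X ^ (p * q * r))) * h2

theorem cf_symm {p q e : ℕ} {lam lam' : ℤ} (he : 2 ≤ e) (hep : e < p) (hpq : p < q)
    (hlam : (p : ℤ) ∣ lam * q - 1) (hlam' : (e : ℤ) ∣ lam' * p - 1) (n : ℕ) :
    cf e p q lam' n = cf p q e lam n := by
  have h1 := cf_gen (r := e) (by omega : 2 ≤ p) hpq (by omega) hlam
  have h2 := cf_gen (r := q) he hep (by omega) hlam'
  have hne : (1 - (X : PowerSeries ℤ)) * (1 - X ^ (p * q)) * (1 - X ^ (p * e)) *
      (1 - X ^ (q * e)) ≠ 0 := by
    have hX := one_sub_X_pow_ne_zero (k := 1) one_pos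
    rw [pow_one] at hX
    refine mul_ne_zero (mul_ne_zero (mul_ne_zero hX ?_) ?_) ?_
    · exact one_sub_X_pow_ne_zero (Nat.mul_pos (by omega) (by omega))
    · exact one_sub_X_pow_ne_zero (Nat.mul_pos (by omega) (by omega))
    · exact one_sub_X_pow_ne_zero (Nat.mul_pos (by omega) (by omega))
  have h3 : mk (cf e p q lam') = mk (cf p q e lam) := by
    apply mul_right_cancel₀ hne
    rw [h1]
    rw [show p * q * e = e * p * q by ring, show p * e = e * p by ring,
      show q * e = e * q by ring]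
    rw [show (1 - (X : PowerSeries ℤ)) * (1 - X ^ (p * q)) * (1 - X ^ (e * p)) *
      (1 - X ^ (e * q)) = (1 - (X : PowerSeries ℤ)) * (1 - X ^ (e * p)) * (1 - X ^ (e * q)) *
      (1 - X ^ (p * q)) by ring, h2]
    ring
  have h4 := congrArg (coeff n) h3
  rwa [coeff_mk, coeff_mk] at h4

/-- bounded coefficients give bounded heights -/
theorem HH_of_cf {p q r : ℕ} {lam : ℤ} (hp2 : 2 ≤ p)
    (hpq : p < q) (hqr : q < r)
    (hflat : ∀ n : ℕ, |cf p q r lam n| ≤ 1) (m : ℤ) (T : ℕ) :
    |HH p q lam r m T| ≤ 1 := by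
  have hN : (0 : ℤ) < (p : ℤ) * q := by
    have h1 : (0 : ℤ) < p := by exact_mod_cast (by omega : 0 < p)
    have h2 : (0 : ℤ) < q := by exact_mod_cast (by omega : 0 < q)
    positivity
  have hr0 : 0 < r := by omega
  have hpqN : (q : ℤ) + p ≤ (p : ℤ) * q := by
    have h1 : 2 * q ≤ p * q := Nat.mul_le_mul_right q hp2
    have : (2 : ℤ) * q ≤ (p : ℤ) * q := by exact_mod_cast h1
    have : (p : ℤ) < q := by exact_mod_cast hpq
    omega
  -- coefficients as heights
  have key : ∀ T : ℕ, ∀ δ : ℤ, 0 ≤ δ → δ = (r * (m - T)) % ((p : ℤ) * q) →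
      ∀ T' : ℕ, ((r : ℤ) * T + δ).toNat / r = T' →
      |HH p q lam r m T'| ≤ 1 := by
    intro T δ hδ0 hδ T' hT'
    have h1 := hflat ((r : ℤ) * T + δ).toNat
    unfold cf at h1
    rw [hT'] at h1
    have hnn : 0 ≤ (r : ℤ) * T + δ := by positivity
    have h2 : ∀ j : ℕ, bF p q (((((r : ℤ) * T + δ).toNat : ℕ) : ℤ) - r * j) =
        bF p q (r * (m - j)) := by
      intro j
      rw [Int.toNat_of_nonneg hnn]
      apply bF_congr (c := -((r * (m - T)) / ((p : ℤ) * q)))
      have h3 := Int.mul_ediv_add_emod ((r : ℤ) * (m - T)) ((p : ℤ) * q)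
      rw [hδ]
      linear_combination h3
    unfold HH
    rw [Finset.sum_congr rfl (fun j _ => by rw [← h2 j])]
    exact h1
  -- induction
  induction T with
  | zero =>
    unfold HH
    rw [Finset.sum_range_one]
    have h1 : |aF p q lam ((0 : ℕ) : ℤ)| ≤ 1 := by
      unfold aF
      rcases sF_01 p q lam ((0 : ℕ) : ℤ) with h | h <;>
      rcases sF_01 p q lam (((0 : ℕ) : ℤ) - 1) with h' | h' <;> rw [h, h'] <;> norm_num
    have h2 : |bF p q (r * (m - ((0 : ℕ) : ℤ)))| ≤ 1 := by
      unfold bF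
      split_ifs <;> norm_num
    rw [abs_mul]
    calc _ ≤ (1 : ℤ) * 1 := mul_le_mul h1 h2 (abs_nonneg _) zero_le_one
      _ = 1 := by norm_num
  | succ T ih =>
    have hstep : HH p q lam r m (T + 1) = HH p q lam r m T +
        aF p q lam ((T + 1 : ℕ) : ℤ) * bF p q (r * (m - ((T + 1 : ℕ) : ℤ))) := by
      unfold HH
      rw [Finset.sum_range_succ]
    have hstep2 : HH p q lam r m (T + 1 + 1) = HH p q lam r m (T + 1) +
        aF p q lam ((T + 1 + 1 : ℕ) : ℤ) * bF p q (r * (m - ((T + 1 + 1 : ℕ) : ℤ))) := by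
      unfold HH
      rw [Finset.sum_range_succ _ (T + 1 + 1)]
    set δ := (r * (m - ((T + 1 : ℕ) : ℤ))) % ((p : ℤ) * q) with hδ
    have hδ0 : 0 ≤ δ := Int.emod_nonneg _ hN.ne'
    have hδN : δ < (p : ℤ) * q := Int.emod_lt_of_pos _ hN
    have hnn : 0 ≤ (r : ℤ) * ((T + 1 : ℕ) : ℤ) + δ := by positivity
    have hprz : (p : ℤ) < q := by exact_mod_cast hpq
    have hqrz : (q : ℤ) < r := by exact_mod_cast hqr
    rcases lt_or_ge δ (r : ℤ) with hlt | hge
    · apply key (T + 1) δ hδ0 hδ (T + 1)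
      apply toNat_div hnn
      · push_cast
        linarith [mul_comm (r : ℤ) ((T : ℤ) + 1)]
      · push_cast
        have : ((T : ℤ) + 1 + 1) * r = r * (T + 1) + r := by ring
        linarith
    · by_cases hb : δ < (q : ℤ) + p
      · -- second block
        have hT2 := key (T + 1) δ hδ0 hδ (T + 1 + 1) (by
          apply toNat_div hnn
          · push_cast
            have : ((T : ℤ) + 1 + 1) * r = r * (T + 1) + r := by ring
            linarith
          · push_cast
            have : ((T : ℤ) + 1 + 1 + 1) * r = r * (T + 1) + r + r := by ring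
            linarith)
        have hb1 : bF p q (r * (m - ((T + 1 : ℕ) : ℤ))) = -1 := by
          unfold bF
          rw [← hδ, if_neg (by omega), if_pos ⟨by omega, hb⟩]
          norm_num
        have hb2 : bF p q (r * (m - ((T + 1 + 1 : ℕ) : ℤ))) = 1 := by
          unfold bF
          have h4 : (r * (m - ((T + 1 + 1 : ℕ) : ℤ))) % ((p : ℤ) * q) = δ - r := by
            have h3 := Int.mul_ediv_add_emod ((r : ℤ) * (m - ((T + 1 : ℕ) : ℤ))) ((p : ℤ) * q)
            rw [← hδ] at h3
            refine emod_eq_of (c := (r * (m - ((T + 1 : ℕ) : ℤ))) / ((p : ℤ) * q)) ?_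
              (by omega) (by omega)
            push_cast at h3 ⊢
            linear_combination -h3
          rw [h4, if_pos (by omega), if_neg (by omega)]
          norm_num
        rw [hstep2, hstep, hb1, hb2] at hT2
        rw [hstep, hb1]
        unfold aF at hT2 ⊢
        have e1 : (((T + 1 + 1 : ℕ) : ℤ)) - 1 = ((T + 1 : ℕ) : ℤ) := by push_cast; ring
        rw [e1] at hT2
        rw [abs_le] at ih hT2 ⊢
        rcases sF_01 p q lam ((T + 1 + 1 : ℕ) : ℤ) with h1 | h1 <;>
        rcases sF_01 p q lam ((T + 1 : ℕ) : ℤ) with h2 | h2 <;>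
        rcases sF_01 p q lam (((T + 1 : ℕ) : ℤ) - 1) with h3 | h3 <;>
        rw [h1, h2, h3] at hT2 <;> rw [h2, h3] <;> omega
      · have hb1 : bF p q (r * (m - ((T + 1 : ℕ) : ℤ))) = 0 := by
          unfold bF
          rw [← hδ, if_neg (by omega), if_neg (by omega)]
          norm_num
        rw [hstep, hb1, mul_zero, add_zero]
        exact ih

/-- coefficients are heights -/
theorem HFlat.cf_bound {p q e : ℕ} {lam : ℤ} (hf : HFlat p q e)
    (ce : IsCoprime (e : ℤ) ((p : ℤ) * q)) (hlam : (p : ℤ) ∣ lam * q - 1) (n : ℕ) :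
    |cf p q e lam n| ≤ 1 := by
  obtain ⟨x, y, hxy⟩ := ce
  have := hf lam hlam (x * n) (n / e)
  unfold HH at this
  unfold cf
  have e1 : ∀ j ∈ Finset.range (n / e + 1), aF p q lam j * bF p q ((n : ℤ) - e * j) =
      aF p q lam j * bF p q (e * (x * n - j)) := by
    intro j _
    rw [bF_congr (c := y * n) (by linear_combination -(n : ℤ) * hxy :
      (n : ℤ) - e * j = e * (x * n - j) + p * q * (y * n))]
  rw [Finset.sum_congr rfl e1]
  exact this

/-- **reduction of the modulus** -/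
theorem HFlat.level {p q e : ℕ} (he : 2 ≤ e) (hep : e < p) (hpq : p < q)
    (cpq : IsCoprime (p : ℤ) (q : ℤ)) (ce : IsCoprime (e : ℤ) ((p : ℤ) * q))
    (hf : HFlat p q e) : HFlat e p q := by
  intro lam' hlam' m T
  obtain ⟨lam, hlam⟩ : ∃ lam : ℤ, (p : ℤ) ∣ lam * q - 1 := by
    obtain ⟨x, y, hxy⟩ := cpq
    exact ⟨y, ⟨-x, by linear_combination hxy⟩⟩
  apply HH_of_cf he hep hpq
  intro n
  rw [cf_symm he hep hpq hlam hlam']
  exact hf.cf_bound ce hlam n

end Pool.Agent.H67.Flat
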