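import Pool.Agent.H67.Gen.Fam2
import Pool.Agent.H67.Gen.Level
import Pool.Agent.H67.Flat.Cases2

/-!
# The case `r ≡ ± e [p q]` with `2 ≤ e ≤ p - 2`, by induction on the modulus
-/

namespace Pool.Agent.H67.Flat

/-- there is no flat triple with modulus `p` in the generic position -/
def GenFalse (p : ℕ) : Prop := ∀ (q : ℕ) (r : ℤ), p < q → IsCoprime (p : ℤ) (q : ℤ) →
  IsCoprime r ((p : ℤ) * q) → HFlat p q r → ¬ (p : ℤ) ∣ q - 1 → ¬ (p : ℤ) ∣ q + 1 →
  ¬ (p : ℤ) ∣ r - 1 → ¬ (p : ℤ) ∣ r + 1 → False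

variable {p q e : ℕ}

section

variable (hf : HFlat p q e) (hpq : p < q) (he : 3 ≤ e) (hep : e < p)
  (cpq : IsCoprime (p : ℤ) (q : ℤ)) (ce : IsCoprime (e : ℤ) ((p : ℤ) * q))
  (hq1 : ¬ (p : ℤ) ∣ q - 1) (hq2 : ¬ (p : ℤ) ∣ q + 1)

include hf hpq he hep cpq ce hq1 hq2

/-- the core of `p ≡ ± 1 [e]` -/
theorem beta_core {ε ν u τ : ℤ} (hε : ε = 1 ∨ ε = -1) (hpε : (e : ℤ) ∣ p - ε)
    (hτ : τ = 1 ∨ τ = -1) (hu : (e : ℤ) * p ∣ u * q - τ) (hν0 : 0 < ν) (hνe : ν < e)
    (huν : (e : ℤ) ∣ u - ε * ν) (hu0 : 0 < u) (huνp : u < ν * p) : False := by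
  have he' : (3 : ℤ) ≤ e := by exact_mod_cast he
  have he0 : (0 : ℤ) < e := by omega
  have hep' : (e : ℤ) < p := by exact_mod_cast hep
  have hp0 : (0 : ℤ) < p := by omega
  have hε2 : ε * ε = 1 := by rcases hε with rfl | rfl <;> norm_num
  have hτ2 : τ * τ = 1 := by rcases hτ with rfl | rfl <;> norm_num
  have hu1 : u ≠ 1 := by
    rintro rfl
    have : (p : ℤ) ∣ 1 * q - τ := (dvd_mul_left _ _).trans hu
    rw [one_mul] at this
    rcases hτ with rfl | rfl
    · exact hq1 this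
    · apply hq2; rwa [sub_neg_eq_add] at this
  have cuN : IsCoprime u ((e : ℤ) * p) := by
    obtain ⟨c, hc⟩ := hu
    exact ⟨q * τ, -(c * τ), by linear_combination τ * hc + hτ2⟩
  have cup : IsCoprime u (p : ℤ) := cuN.of_mul_right_right
  have cue : IsCoprime u (e : ℤ) := cuN.of_mul_right_left
  have cνe : IsCoprime ν (e : ℤ) := by
    obtain ⟨c, hc⟩ := huν
    obtain ⟨x, y, hxy⟩ := cue
    exact ⟨x * ε, x * c + y, by linear_combination hxy - x * hc⟩
  have hfe : HFlat e p q := hf.level (by omega) hep hpq cpq ce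
  -- `q ≡ - τ ε` modulo `e` if `ν = e - 1`
  have hqe : ν = e - 1 → (e : ℤ) ∣ q + τ * ε := by
    intro h
    obtain ⟨c1, hc1⟩ := huν
    obtain ⟨c2, hc2⟩ := hu
    refine ⟨q + ε * (c1 * q) - ε * p * c2, ?_⟩
    rw [h] at hc1
    linear_combination (ε * q) * hc1 - ε * hc2 + (q * (e - 1)) * hε2
  have hExc : Exc e p ν u (p - ε) := by
    rcases hε with rfl | rfl
    · refine case1 he hep' hpε hν0 hνe cνe (by simpa using huν) hu0 huνp cup ?_
      intro m T
      refine hfe.FF_bound (by omega) hep (by simpa using hpε) ?_ m T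
      rcases hτ with rfl | rfl
      · left; exact hu
      · right; simpa using hu
    · have hp1 : (e : ℤ) ∣ p + 1 := by simpa using hpε
      have := case2 (u := u) (ν := ν) he hep' hp1 hν0 hνe cνe
        (by simpa using huν) hu0 huνp cup (by
          intro m T
          refine hfe.FF_bound (by omega) hep ?_ ?_ m T
          · have e1 : (-1 : ℤ) * p - 1 = -(p + 1) := by ring
            rw [e1]; exact (dvd_neg).mpr hp1
          · rcases hτ with rfl | rfl
            · left; exact hu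
            · right; simpa using hu)
      simpa using this
  obtain ⟨K, hK0, hKe, hνK, hcase⟩ := hExc
  -- `ν = e - 1` iff `K = e - 1`
  have hνK' : (e : ℤ) ∣ ν * K - 1 := by
    have := Int.mul_ediv_add_emod (ν * K) e
    exact ⟨ν * K / e, by rw [hνK] at this; linear_combination -this⟩
  have hKν : K = e - 1 → ν = e - 1 := by
    intro h
    obtain ⟨c, hc⟩ := hνK'
    rw [h] at hc
    have : (e : ℤ) ∣ ν - (e - 1) := ⟨ν - c - 1, by linear_combination -hc⟩
    have := Int.eq_zero_of_abs_lt_dvd this (by rw [abs_lt]; constructor <;> omega)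
    omega
  have hνK'' : ν = e - 1 → K = e - 1 := by
    intro h
    obtain ⟨c, hc⟩ := hνK'
    rw [h] at hc
    have : (e : ℤ) ∣ K - (e - 1) := ⟨K - c - 1, by linear_combination -hc⟩
    have := Int.eq_zero_of_abs_lt_dvd this (by rw [abs_lt]; constructor <;> omega)
    omega
  obtain ⟨a, ha⟩ := hpε
  rcases hcase with ⟨h1, h2⟩ | ⟨h1, h2⟩
  · -- `u K < p`
    have huK : 1 ≤ u * K := by
      have : u * 1 ≤ u * K := mul_le_mul_of_nonneg_left (by omega) (by omega)
      omega
    have huK1 : u ≤ u * K := by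
      have : u * 1 ≤ u * K := mul_le_mul_of_nonneg_left (by omega) (by omega)
      omega
    rcases h2 with h2 | h2
    · -- family 3A
      have hν := hKν h2
      obtain ⟨C, hC⟩ := hqe hν
      obtain ⟨c1, hc1⟩ := huν
      -- `u = e μ - ε`
      have hμ : u = e * (c1 + ε) - ε := by rw [hν] at hc1; linear_combination hc1
      have hμ1 : 1 ≤ c1 + ε := by
        by_contra hcon
        have h3 : (e : ℤ) * (c1 + ε) ≤ e * 0 := mul_le_mul_of_nonneg_left (by omega) he0.le
        rcases hε with h4 | h4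
        · omega
        · rw [h4] at hμ h3
          omega
      refine fam3A hf hpq he hep cpq ce hε hτ (a := a) (μ := c1 + ε) (C := C) (w := u)
        (by linear_combination ha) (by linear_combination hC) hμ1 hμ (by rw [← h2]; exact h1) ?_
      obtain ⟨c2, hc2⟩ := hu
      exact ⟨τ * e * c2, by linear_combination τ * hc2 + hτ2⟩
    · -- impossible
      rcases hε with h3 | h3
      · rw [h3] at h2
        omega
      · rw [h3] at h2
        omega
  · -- `(ν p - u) K < p`
    have hdt : (e : ℤ) ∣ ν * p - u := by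
      obtain ⟨c1, hc1⟩ := huν
      exact ⟨ν * a - c1, by linear_combination ν * ha - hc1⟩
    obtain ⟨m, hm⟩ := hdt
    have hm1 : 1 ≤ m := by
      by_contra hcon
      have h3 : (e : ℤ) * m ≤ e * 0 := mul_le_mul_of_nonneg_left (by omega) he0.le
      omega
    rcases h2 with h2 | ⟨j, hj0, hjK, hje, hj⟩
    · -- family 3B
      have hKe' := hνK'' h2
      obtain ⟨C, hC⟩ := hqe h2
      rw [hm, hKe'] at h1
      refine fam3B hf hpq he hep cpq ce hε (s := -τ) (by
        rcases hτ with h | h <;> rw [h] <;> norm_num) (a := a) (m := m) (C := C)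
        (by linear_combination ha) (by linear_combination hC) hm1 h1 ?_
      obtain ⟨c2, hc2⟩ := hu
      exact ⟨τ * e * c2 - τ * ν * q, by
        linear_combination τ * hc2 + hτ2 + (τ * q) * hm⟩
    · -- family 2
      rw [hm] at h1 hj
      have hjt : (e : ℤ) * m * j ≤ e * m * K := mul_le_mul_of_nonneg_left hjK (by positivity)
      rcases hε with h3 | h3
      · subst h3
        have hKj : (e : ℤ) * m * K = p - 1 := by omega
        have hjj : (e : ℤ) * m * j = p - 1 := by omega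
        have hKj' : K = j := by
          have h4 : (e : ℤ) * m * (K - j) = 0 := by linear_combination hKj - hjj
          rcases mul_eq_zero.1 h4 with h5 | h5
          · exfalso
            have : 0 < (e : ℤ) * m := by positivity
            omega
          · omega
        subst hKj'
        -- `K (e - ν) = e - 1`
        have hKν2 : K * (e - ν) = e - 1 := by
          have h5 : 0 < K * ((e : ℤ) - ν) := mul_pos hK0 (by omega)
          obtain ⟨c, hc⟩ := hνK'
          have h6 : (e : ℤ) ∣ K * (e - ν) - (e - 1) := ⟨K - c - 1, by linear_combination -hc⟩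
          have := Int.eq_zero_of_abs_lt_dvd h6 (by rw [abs_lt]; constructor <;> omega)
          omega
        have hK2 : 2 ≤ K := by
          by_contra hcon
          have hK1 : K = 1 := by omega
          apply hu1
          rw [hK1] at hKν2 hKj
          have hν1 : ν = 1 := by omega
          rw [hν1] at hm
          linear_combination -hm - hKj
        obtain ⟨c, hc⟩ := hνK'
        obtain ⟨c2, hc2⟩ := hu
        -- `u K = 1 + e c p`
        have huK : u * K = 1 + e * c * p := by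
          linear_combination -K * hm - hKj + p * hc
        refine fam2 hf hpq he hep cpq ce hτ hK2 hKe hm1 (l := c2 * K - c * q) (by
          linear_combination -hKj) ?_
        linear_combination K * hc2 - q * huK
      · rw [h3] at hj
        omega

/-- `p ≡ ± 1 [e]` -/
theorem beta {ε : ℤ} (hε : ε = 1 ∨ ε = -1) (hpε : (e : ℤ) ∣ p - ε) : False := by
  have he' : (3 : ℤ) ≤ e := by exact_mod_cast he
  have he0 : (0 : ℤ) < e := by omega
  have hep' : (e : ℤ) < p := by exact_mod_cast hep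
  have hp0 : (0 : ℤ) < p := by omega
  have hN : 0 < (e : ℤ) * p := by positivity
  have hε2 : ε * ε = 1 := by rcases hε with rfl | rfl <;> norm_num
  -- `u q ≡ 1`
  have cq : IsCoprime (q : ℤ) ((e : ℤ) * p) := by
    have h1 : IsCoprime (q : ℤ) (e : ℤ) := ce.of_mul_right_right.symm
    exact h1.mul_right cpq.symm
  obtain ⟨x, y, hxy⟩ := cq
  have main : ∀ u τ : ℤ, (τ = 1 ∨ τ = -1) → (e : ℤ) * p ∣ u * q - τ → 0 < u → u < e * p →
      ∃ ν : ℤ, 0 < ν ∧ ν < e ∧ (e : ℤ) ∣ u - ε * ν ∧ u ≠ ν * p := by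
    intro u τ hτ hu hu0 huN
    have hτ2 : τ * τ = 1 := by rcases hτ with rfl | rfl <;> norm_num
    have cuN : IsCoprime u ((e : ℤ) * p) := by
      obtain ⟨c, hc⟩ := hu
      exact ⟨q * τ, -(c * τ), by linear_combination τ * hc + hτ2⟩
    have cup : IsCoprime u (p : ℤ) := cuN.of_mul_right_right
    have cue : IsCoprime u (e : ℤ) := cuN.of_mul_right_left
    have h0 := Int.emod_nonneg (ε * u) he0.ne'
    have h1 := Int.emod_lt_of_pos (ε * u) he0
    have h2 := Int.mul_ediv_add_emod (ε * u) e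
    have hd : (e : ℤ) ∣ u - ε * ((ε * u) % e) :=
      ⟨ε * ((ε * u) / e), by linear_combination -ε * h2 - u * hε2⟩
    refine ⟨(ε * u) % e, ?_, h1, hd, ?_⟩
    · rcases h0.lt_or_eq with h | h
      · exact h
      · exfalso
        rw [← h, mul_zero, sub_zero] at hd
        have h3 := cue.symm.isUnit_of_dvd' dvd_rfl hd
        rcases Int.isUnit_iff.1 h3 with h4 | h4 <;> omega
    · intro h
      have h3 : (p : ℤ) ∣ u := ⟨_, by rw [h, mul_comm]⟩
      have h4 := cup.symm.isUnit_of_dvd' dvd_rfl h3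
      rcases Int.isUnit_iff.1 h4 with h5 | h5 <;> omega
  set u := x % ((e : ℤ) * p) with hu
  have hu0 := Int.emod_nonneg x hN.ne'
  have hu1 := Int.emod_lt_of_pos x hN
  have hu2 := Int.mul_ediv_add_emod x ((e : ℤ) * p)
  rw [← hu] at hu0 hu1 hu2
  have huq : (e : ℤ) * p ∣ u * q - 1 :=
    ⟨-(x / ((e : ℤ) * p)) * q - y, by linear_combination q * hu2 + hxy⟩
  have hu0' : 0 < u := by
    rcases hu0.lt_or_eq with h | h
    · exact h
    · exfalso
      rw [← h, zero_mul, zero_sub] at huq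
      have := Int.le_of_dvd one_pos ((dvd_neg).1 huq)
      have : (3 : ℤ) * 1 ≤ e * p := mul_le_mul he' (by omega) (by norm_num) (by omega)
      omega
  obtain ⟨ν, hν0, hνe, hd, hne⟩ := main u 1 (Or.inl rfl) huq hu0' hu1
  rcases lt_or_gt_of_ne hne with h | h
  · exact beta_core hf hpq he hep cpq ce hq1 hq2 hε hpε (Or.inl rfl) huq hν0 hνe hd hu0' h
  · refine beta_core hf hpq he hep cpq ce hq1 hq2 hε hpε (ν := e - ν) (u := e * p - u)
      (Or.inr rfl) ?_ (by omega) (by omega) ?_ (by omega) ?_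
    · obtain ⟨c, hc⟩ := huq
      exact ⟨q - c, by linear_combination -hc⟩
    · obtain ⟨c, hc⟩ := hd
      exact ⟨p - c - ε, by linear_combination -hc⟩
    · have : ((e : ℤ) - ν) * p = e * p - ν * p := by ring
      omega

/-- `q ≡ ± 1 [e]`, `p` in general position modulo `e` -/
theorem gamma {τ0 : ℤ} (hτ0 : τ0 = 1 ∨ τ0 = -1) (hqτ : (e : ℤ) ∣ q - τ0)
    (hp1 : ¬ (e : ℤ) ∣ p - 1) (hp2 : ¬ (e : ℤ) ∣ p + 1) : False := by
  have he' : (3 : ℤ) ≤ e := by exact_mod_cast he
  have he0 : (0 : ℤ) < e := by omega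
  have hep' : (e : ℤ) < p := by exact_mod_cast hep
  have hp0 : (0 : ℤ) < p := by omega
  have hN : 0 < (e : ℤ) * p := by positivity
  have hτ2 : τ0 * τ0 = 1 := by rcases hτ0 with rfl | rfl <;> norm_num
  have hfe : HFlat e p q := hf.level (by omega) hep hpq cpq ce
  have cq : IsCoprime (q : ℤ) ((e : ℤ) * p) := by
    have h1 : IsCoprime (q : ℤ) (e : ℤ) := ce.of_mul_right_right.symm
    exact h1.mul_right cpq.symm
  obtain ⟨x, y, hxy⟩ := cq
  -- `u q ≡ τ0`, `u ≡ 1 [e]`
  set u := (τ0 * x) % ((e : ℤ) * p) with hu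
  have hu0 := Int.emod_nonneg (τ0 * x) hN.ne'
  have hu1 := Int.emod_lt_of_pos (τ0 * x) hN
  have hu2 := Int.mul_ediv_add_emod (τ0 * x) ((e : ℤ) * p)
  rw [← hu] at hu0 hu1 hu2
  have huq : (e : ℤ) * p ∣ u * q - τ0 :=
    ⟨-((τ0 * x) / ((e : ℤ) * p)) * q - τ0 * y, by linear_combination q * hu2 + τ0 * hxy⟩
  have hue : (e : ℤ) ∣ u - 1 := by
    obtain ⟨c, hc⟩ := hqτ
    obtain ⟨d, hd⟩ := huq
    exact ⟨τ0 * p * d - τ0 * u * c, by
      linear_combination τ0 * hd - (τ0 * u) * hc - (u - 1) * hτ2⟩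
  have cuN : IsCoprime u ((e : ℤ) * p) := by
    obtain ⟨c, hc⟩ := huq
    exact ⟨q * τ0, -(c * τ0), by linear_combination τ0 * hc + hτ2⟩
  have cup : IsCoprime u (p : ℤ) := cuN.of_mul_right_right
  have cue : IsCoprime u (e : ℤ) := cuN.of_mul_right_left
  have hu0' : u ≠ 0 := by
    intro h
    rw [h, zero_sub] at hue
    have := Int.le_of_dvd one_pos ((dvd_neg).1 hue)
    omega
  have hu1' : u ≠ 1 := by
    intro h
    rw [h, one_mul] at huq
    have : (p : ℤ) ∣ q - τ0 := (dvd_mul_left _ _).trans huq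
    rcases hτ0 with rfl | rfl
    · exact hq1 this
    · apply hq2; rwa [sub_neg_eq_add] at this
  -- `ν p ≡ 1 [e]`
  have cep : IsCoprime (e : ℤ) (p : ℤ) := ce.of_mul_right_left
  obtain ⟨x', y', hxy'⟩ := cep
  set ν := y' % (e : ℤ) with hν
  have hν0 := Int.emod_nonneg y' he0.ne'
  have hν1 := Int.emod_lt_of_pos y' he0
  have hν2 := Int.mul_ediv_add_emod y' e
  rw [← hν] at hν0 hν1 hν2
  have hνp : (e : ℤ) ∣ ν * p - 1 := ⟨-(y' / e) * p - x', by linear_combination p * hν2 + hxy'⟩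
  have hν0' : ν ≠ 0 := by
    intro h
    rw [h, zero_mul, zero_sub] at hνp
    have := Int.le_of_dvd one_pos ((dvd_neg).1 hνp)
    omega
  have hν1' : ν ≠ 1 := by
    intro h
    rw [h, one_mul] at hνp
    exact hp1 hνp
  have hν2' : ν ≠ e - 1 := by
    intro h
    apply hp2
    obtain ⟨c, hc⟩ := hνp
    rw [h] at hc
    exact ⟨p - c, by linear_combination -hc⟩
  have cνe : IsCoprime ν (e : ℤ) := by
    obtain ⟨c, hc⟩ := hνp
    exact ⟨p, -c, by linear_combination hc⟩
  have hFF : ∀ v : ℤ, ((e : ℤ) * p ∣ v * q - 1 ∨ (e : ℤ) * p ∣ v * q + 1) →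
      ∀ m T, |FF e p ν v m T| ≤ 1 :=
    fun v hv m T => hfe.FF_bound (by omega) hep hνp hv m T
  rcases lt_trichotomy u (ν * p) with h | h | h
  · refine case3 he hep' (by omega) (by omega) cνe hνp hue (by omega) h cup cue (hFF u ?_)
    rcases hτ0 with rfl | rfl
    · left; exact huq
    · right; simpa using huq
  · have h3 : (p : ℤ) ∣ u := ⟨_, by rw [h, mul_comm]⟩
    have h4 := cup.symm.isUnit_of_dvd' dvd_rfl h3
    rcases Int.isUnit_iff.1 h4 with h5 | h5 <;> omega
  · refine case4 (lam := ν) (ν := e - ν) (u := e * p - u) he hep' (by omega) (by omega) ?_ hνp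
      ⟨1, by ring⟩ ?_ (by omega) ?_ ?_ ?_ (hFF _ ?_)
    · obtain ⟨a, b, hab⟩ := cνe
      exact ⟨-a, b + a, by linear_combination hab⟩
    · obtain ⟨c, hc⟩ := hue
      exact ⟨p - c, by linear_combination -hc⟩
    · have : ((e : ℤ) - ν) * p = e * p - ν * p := by ring
      omega
    · obtain ⟨a, b, hab⟩ := cup
      exact ⟨-a, b + a * e, by linear_combination hab⟩
    · obtain ⟨a, b, hab⟩ := cue
      exact ⟨-a, b + a * p, by linear_combination hab⟩
    · obtain ⟨c, hc⟩ := huq
      rcases hτ0 with h1 | h1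
      · right; exact ⟨q - c, by rw [h1] at hc; linear_combination -hc⟩
      · left; exact ⟨q - c, by rw [h1] at hc; linear_combination -hc⟩

end

/-- the case `e = 2` -/
theorem a0_two (hf : HFlat p q 2) (hpq : p < q) (hp4 : 4 ≤ p)
    (cpq : IsCoprime (p : ℤ) (q : ℤ)) (ce : IsCoprime (2 : ℤ) ((p : ℤ) * q))
    (hq1 : ¬ (p : ℤ) ∣ q - 1) (hq2 : ¬ (p : ℤ) ∣ q + 1) : False := by
  have hpq' : (p : ℤ) < q := by exact_mod_cast hpq
  have hp0 : (0 : ℤ) < p := by omega
  have odd : ∀ z : ℤ, IsCoprime (2 : ℤ) z → z % 2 = 1 := by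
    intro z hz
    rcases Int.emod_two_eq_zero_or_one z with h | h
    · exfalso
      have h1 : (2 : ℤ) ∣ z := Int.dvd_of_emod_eq_zero h
      have h2 := hz.isUnit_of_dvd' dvd_rfl h1
      rcases Int.isUnit_iff.1 h2 with h4 | h4 <;> omega
    · exact h
  have hpo := odd _ ce.of_mul_right_left
  have hqo := odd _ ce.of_mul_right_right
  obtain ⟨x, y, hxy⟩ := cpq
  -- `w q ≡ 1`
  set w := y % (p : ℤ) with hw
  have hw0 := Int.emod_nonneg y hp0.ne'
  have hw1 := Int.emod_lt_of_pos y hp0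
  have hw2 := Int.mul_ediv_add_emod y p
  rw [← hw] at hw0 hw1 hw2
  have hwq : (p : ℤ) ∣ w * q - 1 := ⟨-(y / p) * q - x, by linear_combination q * hw2 + hxy⟩
  have hw0' : w ≠ 0 := by
    intro h
    rw [h, zero_mul, zero_sub] at hwq
    have := Int.le_of_dvd one_pos ((dvd_neg).1 hwq)
    omega
  have hw1' : w ≠ 1 := by
    intro h
    rw [h, one_mul] at hwq
    exact hq1 hwq
  have hw2' : w ≠ p - 1 := by
    intro h
    apply hq2
    obtain ⟨c, hc⟩ := hwq
    rw [h] at hc
    exact ⟨q - c, by linear_combination -hc⟩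
  rcases Int.emod_two_eq_zero_or_one w with h | h
  · refine fam_two hf hpq (by omega) ⟨x, y, hxy⟩ ce (a := p / 2) (C := q / 2) (m := w / 2)
      (s := 1) (Or.inl rfl) (by omega) (by omega) (by omega) (by omega) ?_
    rwa [show 1 * (2 * (w / 2)) * (q : ℤ) - 1 = w * q - 1 by
      rw [show 2 * (w / 2) = w by omega]; ring]
  · refine fam_two hf hpq (by omega) ⟨x, y, hxy⟩ ce (a := p / 2) (C := q / 2) (m := (p - w) / 2)
      (s := -1) (Or.inr rfl) (by omega) (by omega) (by omega) (by omega) ?_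
    have := dvd_sub hwq (dvd_mul_right (p : ℤ) q)
    rwa [show -1 * (2 * ((p - w) / 2)) * (q : ℤ) - 1 = w * q - 1 - p * q by
      rw [show 2 * ((p - w) / 2) = (p : ℤ) - w by omega]; ring]

/-- **the case `r ≡ e [p q]`**, by induction on the modulus -/
theorem a0_false (ih : ∀ n < p, GenFalse n) (hf : HFlat p q e) (hpq : p < q) (he : 2 ≤ e)
    (hep : e + 2 ≤ p) (cpq : IsCoprime (p : ℤ) (q : ℤ)) (ce : IsCoprime (e : ℤ) ((p : ℤ) * q))
    (hq1 : ¬ (p : ℤ) ∣ q - 1) (hq2 : ¬ (p : ℤ) ∣ q + 1) : False := by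
  rcases Nat.lt_or_ge e 3 with h3 | h3
  · have : e = 2 := by omega
    subst this
    exact a0_two (by exact_mod_cast hf) hpq hep cpq (by exact_mod_cast ce) hq1 hq2
  · by_cases hp1 : (e : ℤ) ∣ p - 1
    · exact beta hf hpq h3 (by omega) cpq ce hq1 hq2 (Or.inl rfl) hp1
    by_cases hp2 : (e : ℤ) ∣ p + 1
    · exact beta hf hpq h3 (by omega) cpq ce hq1 hq2 (Or.inr rfl) (by simpa using hp2)
    by_cases hq3 : (e : ℤ) ∣ q - 1
    · exact gamma hf hpq h3 (by omega) cpq ce hq1 hq2 (Or.inl rfl) hq3 hp1 hp2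
    by_cases hq4 : (e : ℤ) ∣ q + 1
    · exact gamma hf hpq h3 (by omega) cpq ce hq1 hq2 (Or.inr rfl) (by simpa using hq4) hp1 hp2
    have cq : IsCoprime (q : ℤ) ((e : ℤ) * p) := by
      have h1 : IsCoprime (q : ℤ) (e : ℤ) := ce.of_mul_right_right.symm
      exact h1.mul_right cpq.symm
    exact ih e (by omega) p q (by omega) ce.of_mul_right_left cq
      (hf.level he (by omega) hpq cpq ce) hp1 hp2 hq3 hq4

end Pool.Agent.H67.Flat
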