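import Pool.Agent.H67.Gen.Near
import Pool.Agent.H67.Gen.A0
import Pool.Agent.H67.Flat.Assemble

/-!
# The generic theorem for all moduli, and the frozen statement
-/

namespace Pool.Agent.H67.Flat

open Pool.Agent.H98.Flat Pool.Agent.H78.Tie

/-- the small inverse of `x`, up to sign -/
theorem half_invG {p : ℕ} (hp3 : 3 ≤ p) {x : ℤ} (cx : IsCoprime x (p : ℤ))
    (h1 : ¬ (p : ℤ) ∣ x - 1) (h2 : ¬ (p : ℤ) ∣ x + 1) :
    ∃ w : ℕ, 2 ≤ w ∧ 2 * w < p ∧ ((p : ℤ) ∣ w * x - 1 ∨ (p : ℤ) ∣ w * x + 1) := by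
  have hp' : (0 : ℤ) < p := by exact_mod_cast (by omega : 0 < p)
  obtain ⟨y, hy⟩ : ∃ y : ℤ, (p : ℤ) ∣ y * x - 1 := by
    obtain ⟨a, b, hab⟩ := cx
    exact ⟨a, -b, by linear_combination hab⟩
  have r0 := Int.emod_nonneg y hp'.ne'
  have r1 := Int.emod_lt_of_pos y hp'
  have re := Int.mul_ediv_add_emod y p
  obtain ⟨c, hc⟩ := hy
  have hz : (p : ℤ) ∣ (y % p) * x - 1 := ⟨c - (y / p) * x, by linear_combination hc + x * re⟩
  set z := y % (p : ℤ)
  have cz : IsCoprime z (p : ℤ) := by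
    obtain ⟨c, hc⟩ := hz
    exact ⟨x, -c, by linear_combination hc⟩
  have hodd : 2 * z ≠ p := by
    intro h
    have h3 : z ∣ (p : ℤ) := ⟨2, by rw [← h]; ring⟩
    have h4 := cz.isUnit_of_dvd' dvd_rfl h3
    rcases Int.isUnit_iff.1 h4 with h5 | h5 <;> omega
  have z0 : z ≠ 0 := by
    intro h0
    rw [h0, zero_mul, zero_sub, dvd_neg] at hz
    have := Int.le_of_dvd one_pos hz
    omega
  rcases lt_or_ge (2 * z) p with h | h
  · refine ⟨z.toNat, ?_, by omega, Or.inl (by rwa [Int.toNat_of_nonneg r0])⟩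
    by_contra hlt
    have : z = 1 := by omega
    rw [this, one_mul] at hz
    exact h1 hz
  · refine ⟨(p - z).toNat, ?_, by omega, Or.inr ?_⟩
    · by_contra hlt
      have : z = p - 1 := by omega
      apply h2
      have h3 := dvd_sub (dvd_mul_right (p : ℤ) x) hz
      rwa [this, show (p : ℤ) * x - ((p - 1) * x - 1) = x + 1 by ring] at h3
    · rw [Int.toNat_of_nonneg (by omega)]
      have h3 := dvd_sub (dvd_mul_right (p : ℤ) x) hz
      rwa [show (p : ℤ) * x - (z * x - 1) = (p - z) * x + 1 by ring] at h3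

/-- **no flat triple in the generic position**, for all moduli -/
theorem genFalse
    (hT : ∀ (A : TAp) (T : A.Tie), A.Fl → |T.x| < A.h → (∀ T' : A.Tie, T'.x ≠ 0) → False) :
    ∀ p, GenFalse p := by
  intro p
  induction p using Nat.strong_induction_on with
  | _ p ih =>
    intro q r hpq cpq cr hf q1 q2 r1 r2
    have hp3 : 3 ≤ p := by
      by_contra hcon
      have : p = 0 ∨ p = 1 ∨ p = 2 := by omega
      rcases this with rfl | rfl | rfl
      · obtain ⟨a, b, hab⟩ := cpq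
        have h1 : (q : ℤ) ∣ 1 := ⟨b, by push_cast at hab; linear_combination -hab⟩
        have h2 := Int.le_of_dvd one_pos h1
        have h3 : (q : ℤ) = 1 := by omega
        apply q1
        rw [h3]; simp
      · exact q1 (by simp)
      · rcases Int.emod_two_eq_zero_or_one (q : ℤ) with h | h
        · have h1 := cpq.isUnit_of_dvd' dvd_rfl (by exact_mod_cast Int.dvd_of_emod_eq_zero h :
            ((2 : ℕ) : ℤ) ∣ q)
          rcases Int.isUnit_iff.1 h1 with h5 | h5 <;> omega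
        · apply q1
          push_cast
          omega
    have hp' : (0 : ℤ) < p := by exact_mod_cast (by omega : 0 < p)
    have hq' : (0 : ℤ) < q := by exact_mod_cast (by omega : 0 < q)
    have hN : 0 < (p : ℤ) * q := by positivity
    -- `r` may be taken to be a natural number
    have r0 := Int.emod_nonneg r hN.ne'
    have re := Int.mul_ediv_add_emod r ((p : ℤ) * q)
    have hrr : (((r % ((p : ℤ) * q)).toNat : ℕ) : ℤ) = r % ((p : ℤ) * q) := Int.toNat_of_nonneg r0
    have hrd : (p : ℤ) * q ∣ r - ((r % ((p : ℤ) * q)).toNat : ℕ) := by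
      rw [hrr]
      exact ⟨r / ((p : ℤ) * q), by linear_combination -re⟩
    set r' : ℕ := (r % ((p : ℤ) * q)).toNat with hr'
    have hf' : HFlat p q r' := hf.congr hrd
    have cr' : IsCoprime (r' : ℤ) ((p : ℤ) * q) := by
      obtain ⟨c, hc⟩ := hrd
      obtain ⟨a, b, hab⟩ := cr
      exact ⟨a, b + a * c, by linear_combination hab - a * hc⟩
    have r1' : ¬ (p : ℤ) ∣ r' - 1 := by
      intro h
      apply r1
      have := dvd_add h ((dvd_mul_right (p : ℤ) q).trans hrd)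
      rwa [show (r' : ℤ) - 1 + (r - r') = r - 1 by ring] at this
    have r2' : ¬ (p : ℤ) ∣ r' + 1 := by
      intro h
      apply r2
      have := dvd_add h ((dvd_mul_right (p : ℤ) q).trans hrd)
      rwa [show (r' : ℤ) + 1 + (r - r') = r + 1 by ring] at this
    obtain ⟨w, w2, wp, hw⟩ := half_invG hp3 cpq.symm q1 q2
    obtain ⟨h, h2, hp, hh⟩ := half_invG hp3 cr'.of_mul_right_left r1' r2'
    obtain ⟨A, T, e1, e2, e3, e4, F, hx, hz⟩ := hf'.exists_tap_tie hpq cr' w2 h2 wp hp hw hh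
    by_cases hx0' : ∃ T' : A.Tie, T'.x = 0
    · obtain ⟨T, hx0⟩ := hx0'
      have hz := hz T
      have T0 := T.t0
      have Tp := T.tp
      rw [e1] at Tp
      have ht : ((T.t.toNat : ℕ) : ℤ) = T.t := Int.toNat_of_nonneg T0.le
      have hfe : HFlat p q ((T.t.toNat : ℕ) : ℤ) := by
        rw [ht]
        rcases hz hx0 with g | g
        · exact hf'.congr g
        · refine (hf'.neg (by omega) hpq cr').congr ?_
          rw [← dvd_neg]
          rwa [show -(-(r' : ℤ) - T.t) = r' + T.t by ring]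
      have ce : IsCoprime ((T.t.toNat : ℕ) : ℤ) ((p : ℤ) * q) := by
        rw [ht]
        obtain ⟨a, b, hab⟩ := cr'
        rcases hz hx0 with ⟨c, hc⟩ | ⟨c, hc⟩
        · exact ⟨a, b + a * c, by linear_combination hab - a * hc⟩
        · exact ⟨-a, b + a * c, by linear_combination hab - a * hc⟩
      have n1 : T.t ≠ 1 := by
        intro h1
        rcases hz hx0 with g | g
        · rw [h1] at g
          exact r1' ((dvd_mul_right _ _).trans g)
        · rw [h1] at g
          exact r2' ((dvd_mul_right _ _).trans g)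
      have n2 : T.t ≠ p - 1 := by
        intro h1
        rcases hz hx0 with g | g
        · rw [h1] at g
          apply r2'
          have := dvd_add ((dvd_mul_right _ _).trans g) (dvd_refl (p : ℤ))
          rwa [show (r' : ℤ) - (p - 1) + p = r' + 1 by ring] at this
        · rw [h1] at g
          apply r1'
          have := dvd_sub ((dvd_mul_right _ _).trans g) (dvd_refl (p : ℤ))
          rwa [show (r' : ℤ) + (p - 1) - p = r' - 1 by ring] at this
      exact a0_false ih hfe hpq (by omega) (by omega) cpq ce q1 q2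
    · push Not at hx0'
      exact hT A T F hx hx0'

theorem final_of_tieG
    (hT : ∀ (A : TAp) (T : A.Tie), A.Fl → |T.x| < A.h → (∀ T' : A.Tie, T'.x ≠ 0) → False) :
    ∀ p q r w : ℕ, p.Prime → q.Prime → r.Prime → Odd p → p < q → q < r →
      (∀ k : ℕ, |(Polynomial.cyclotomic (p * q * r) ℤ).coeff k| ≤ 1) →
      0 < w →
      ((r : ℤ) ≡ (w : ℤ) [ZMOD ((p : ℤ) * q)] ∨ (r : ℤ) ≡ -(w : ℤ) [ZMOD ((p : ℤ) * q)]) →
      (∀ v : ℕ, 0 < v → v < w →
        ¬ ((r : ℤ) ≡ (v : ℤ) [ZMOD ((p : ℤ) * q)] ∨ (r : ℤ) ≡ -(v : ℤ) [ZMOD ((p : ℤ) * q)])) →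
      ¬ p ≡ 1 [MOD w] →
      (p < w ∧ p ^ 2 - p < q ∧
        ((q : ℤ) ≡ 1 [ZMOD (p : ℤ)] ∨ (q : ℤ) ≡ -1 [ZMOD (p : ℤ)]) ∧
        ((w : ℤ) ≡ 1 [ZMOD (p : ℤ)] ∨ (w : ℤ) ≡ -1 [ZMOD (p : ℤ)]) ∧
        ((w : ℤ) ≡ 1 [ZMOD (p : ℤ)] →
          ¬ ((q : ℤ) ≡ 1 [ZMOD ((w : ℤ) * p)] ∨ (q : ℤ) ≡ -1 [ZMOD ((w : ℤ) * p)]))) := by
  intro p q r w hp hq hr hodd hpq hqr hflat hw0 hrw hmin hpw
  have hp3 : 3 ≤ p := by
    have h2 := hp.two_le
    obtain ⟨k, hk⟩ := hodd
    omega
  have hp3' : (3 : ℤ) ≤ p := by exact_mod_cast hp3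
  have hpq' : (p : ℤ) < q := by exact_mod_cast hpq
  have hN : 0 < (p : ℤ) * q := by
    have : (0 : ℤ) < q := by omega
    positivity
  have hm1 : ∀ a n : ℤ, a ≡ 1 [ZMOD n] ↔ n ∣ a - 1 := fun a n =>
    ⟨fun h => h.symm.dvd, fun h => (Int.modEq_of_dvd h).symm⟩
  have hm2 : ∀ a n : ℤ, a ≡ -1 [ZMOD n] ↔ n ∣ a + 1 := fun a n =>
    ⟨fun h => by simpa using h.symm.dvd, fun h => (Int.modEq_of_dvd (by simpa using h)).symm⟩
  have hrW : (p : ℤ) * q ∣ r - w ∨ (p : ℤ) * q ∣ r + w := by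
    rcases hrw with h | h
    · left; exact h.symm.dvd
    · right; simpa using h.symm.dvd
  have hwp : ¬ (w : ℤ) ∣ (p : ℤ) - 1 := by
    intro h
    apply hpw
    have h1 : (p : ℤ) ≡ 1 [ZMOD (w : ℤ)] := (hm1 _ _).mpr h
    exact (Int.natCast_modEq_iff).mp (by exact_mod_cast h1)
  -- minimality gives `2 w ≤ p q`
  have hwN : (w : ℤ) < p * q := by
    by_contra hcon
    push Not at hcon
    have h1 := Int.emod_nonneg (r : ℤ) hN.ne'
    have h2 := Int.emod_lt_of_pos (r : ℤ) hN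
    have h0 : 0 < (r : ℤ) % ((p : ℤ) * q) := by
      rcases h1.lt_or_eq with h | h
      · exact h
      · exfalso
        have h3 : (p : ℤ) * q ∣ r := Int.dvd_of_emod_eq_zero h.symm
        have h4 : p ∣ r := by
          have : (p : ℤ) ∣ r := (dvd_mul_right _ _).trans h3
          exact_mod_cast this
        rcases (Nat.dvd_prime hr).mp h4 with h5 | h5 <;> omega
    refine hmin ((r : ℤ) % ((p : ℤ) * q)).toNat (by omega) (by omega) (Or.inl ?_)
    rw [Int.toNat_of_nonneg h1]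
    exact (Int.mod_modEq _ _).symm
  have hw2 : 2 * (w : ℤ) ≤ p * q := by
    by_contra hcon
    push Not at hcon
    refine hmin ((p : ℤ) * q - w).toNat (by omega) (by omega) ?_
    rw [Int.toNat_of_nonneg (by omega)]
    rcases hrW with h | h
    · right
      refine (Int.modEq_of_dvd ?_).symm
      have e : (r : ℤ) - -((p : ℤ) * q - w) = (r - w) + p * q := by ring
      rw [e]; exact dvd_add h (dvd_refl _)
    · left
      refine (Int.modEq_of_dvd ?_).symm
      have e : (r : ℤ) - ((p : ℤ) * q - w) = (r + w) - p * q := by ring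
      rw [e]; exact dvd_sub h (dvd_refl _)
  have hmod' : (p : ℤ) ∣ q - 1 ∨ (p : ℤ) ∣ q + 1 ∨ (p : ℤ) ∣ r - 1 ∨ (p : ℤ) ∣ r + 1 := by
    by_contra hcon
    rw [not_or, not_or, not_or] at hcon
    obtain ⟨c1, c2, c3, c4⟩ := hcon
    have cpq : IsCoprime (p : ℤ) (q : ℤ) := by
      rw [Nat.isCoprime_iff_coprime]
      exact (Nat.coprime_primes hp hq).2 (by omega)
    have cr : IsCoprime (r : ℤ) ((p : ℤ) * q) := by
      rw [show (p : ℤ) * q = ((p * q : ℕ) : ℤ) by push_cast; ring]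
      rw [Nat.isCoprime_iff_coprime]
      exact Nat.Coprime.mul_right ((Nat.coprime_primes hr hp).2 (by omega))
        ((Nat.coprime_primes hr hq).2 (by omega))
    exact genFalse hT p q r hpq cpq cr (hflat_of_prime hp hq hr hpq hqr hflat) c1 c2 c3 c4
  obtain ⟨h1, h2, h3, h4, h5⟩ := conc hp hq hr hp3 hpq hqr hflat (W := (w : ℤ)) hrW
    (by exact_mod_cast hw0) hw2 hwp hmod'
  refine ⟨by exact_mod_cast h1, ?_, ?_, ?_, ?_⟩
  · have e : ((p ^ 2 - p : ℕ) : ℤ) = (p : ℤ) * (p - 1) := by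
      rw [Nat.cast_sub (by nlinarith)]; push_cast; ring
    have : ((p ^ 2 - p : ℕ) : ℤ) < (q : ℤ) := by rw [e]; exact h2
    exact_mod_cast this
  · rcases h3 with h | h
    · exact Or.inl ((hm1 _ _).mpr h)
    · exact Or.inr ((hm2 _ _).mpr h)
  · rcases h4 with h | h
    · exact Or.inl ((hm1 _ _).mpr h)
    · exact Or.inr ((hm2 _ _).mpr h)
  · intro h hcon
    refine h5 ((hm1 _ _).mp h) ?_
    rcases hcon with h' | h'
    · exact Or.inl ((hm1 _ _).mp h')
    · exact Or.inr ((hm2 _ _).mp h')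

end Pool.Agent.H67.Flat
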