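import Pool.Agent.H67.Gen.Cfg
import Pool.Agent.H78.Tie.Bridge

/-!
# `ApData` for flat triples with arbitrary coprime moduli
-/

namespace Pool.Agent.H67.Flat

open Finset
open Pool.Agent.H98.Flat Pool.Agent.H78.Tie

theorem HFlat.apData {p q r w h : ℕ} (hf : HFlat p q r) (hp : 2 ≤ p) (hpq : p < q)
    (cr : IsCoprime (r : ℤ) ((p : ℤ) * q))
    (hw0 : 0 < w) (hh0 : 0 < h) (hwh : w + h ≤ p)
    (hw : (p : ℤ) ∣ w * q - 1 ∨ (p : ℤ) ∣ w * q + 1)
    (hh : (p : ℤ) ∣ h * r - 1 ∨ (p : ℤ) ∣ h * r + 1) :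
    ApData p q r w h := by
  have hp' : (0 : ℤ) < p := by exact_mod_cast (by omega : 0 < p)
  have hq' : (0 : ℤ) < q := by exact_mod_cast (by omega : 0 < q)
  have h1p : ¬ (p : ℤ) ∣ 1 := by
    intro h
    have := Int.le_of_dvd (by norm_num) h
    omega
  have crp : IsCoprime (r : ℤ) (p : ℤ) := cr.of_mul_right_left
  -- choose `u`
  have hu : ∃ u : ℤ, ∃ ε : ℤ, (ε = 1 ∨ ε = -1) ∧ (p : ℤ) * q ∣ u * r - ε ∧ (p : ℤ) ∣ h - u := by
    obtain ⟨x, y, hxy⟩ := cr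
    rcases hh with h2 | h2
    · refine ⟨x, 1, Or.inl rfl, ⟨-y, by linear_combination hxy⟩, ?_⟩
      have : (p : ℤ) ∣ (h - x) * r := by
        obtain ⟨c, hc⟩ := h2
        exact ⟨c + y * q, by linear_combination hc - hxy⟩
      exact crp.symm.dvd_of_dvd_mul_right this
    · refine ⟨-x, -1, Or.inr rfl, ⟨y, by linear_combination -hxy⟩, ?_⟩
      have : (p : ℤ) ∣ (h - -x) * r := by
        obtain ⟨c, hc⟩ := h2
        exact ⟨c - y * q, by linear_combination hc + hxy⟩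
      exact crp.symm.dvd_of_dvd_mul_right this
  obtain ⟨u, ε, hε, hur, hhu⟩ := hu
  have hur' : (p : ℤ) * q ∣ u * r - 1 ∨ (p : ℤ) * q ∣ u * r + 1 := by
    rcases hε with rfl | rfl
    · left; exact hur
    · right; simpa using hur
  have hε2 : ε * ε = 1 := by rcases hε with rfl | rfl <;> norm_num
  -- choose `t`
  have ht : ∀ w0 : ℕ, (p : ℤ) ∣ w0 * q - 1 → (p : ℤ) ∣ w0 * u * (-(ε * q * r)) + 1 := by
    intro w0 hw0
    obtain ⟨c1, hc1⟩ := hw0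
    obtain ⟨c2, hc2⟩ : (p : ℤ) ∣ u * r - ε := (dvd_mul_right _ _).trans hur
    exact ⟨-(ε * c2) * (w0 * q) - c1, by
      linear_combination -(ε * (w0 * q)) * hc2 - hc1 - (w0 * q) * hε2⟩
  set t : ℤ := -(ε * q * r) with htdef
  have apx : ∀ w0 : ℕ, (p : ℤ) ∣ w0 * q - 1 → ∀ k : ℤ,
      (p : ℤ) ∣ k - -(w0 * u) * ((t * k) % p) := by
    intro w0 hw0 k
    obtain ⟨c, hc⟩ := ht w0 hw0
    have := Int.mul_ediv_add_emod (t * k) p
    refine ⟨c * k - w0 * u * ((t * k) / p), ?_⟩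
    linear_combination (w0 * u) * this + k * hc
  have hw0p : ∀ w0 : ℕ, (p : ℤ) ∣ w0 * q - 1 → ¬ (p : ℤ) ∣ w0 := by
    intro w0 hw0 h1
    apply h1p
    have := dvd_sub (h1.mul_right q) hw0
    simpa using this
  have cuq : IsCoprime (q : ℤ) u := by
    obtain ⟨c1, hc1⟩ := hur
    exact ⟨-(ε * p * c1), ε * r, by linear_combination ε * hc1 + hε2⟩
  have cup : IsCoprime u (p : ℤ) := by
    obtain ⟨c1, hc1⟩ := hur
    exact ⟨ε * r, -(ε * q * c1), by linear_combination ε * hc1 + hε2⟩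
  have hδ : ∀ w0 : ℕ, (p : ℤ) ∣ w0 * q - 1 → IsCoprime (-(w0 * u)) (p : ℤ) := by
    intro w0 hw0
    obtain ⟨c1, hc1⟩ := hw0
    have : IsCoprime (w0 : ℤ) (p : ℤ) := ⟨q, -c1, by linear_combination hc1⟩
    exact (this.mul_left cup).neg_left
  have ha : ∀ w0 : ℕ, IsCoprime (q : ℤ) (u * (q * w0 - 1)) := by
    intro w0
    have : IsCoprime (q : ℤ) (q * w0 - 1) := ⟨w0, -1, by ring⟩
    exact cuq.mul_right this
  have hap : ∀ w0 : ℕ, (p : ℤ) ∣ w0 * q - 1 → (p : ℤ) ∣ u * (q * w0 - 1) := by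
    intro w0 h1
    rw [mul_comm (q : ℤ)]
    exact h1.mul_left u
  have hqu : ∀ w0 : ℕ, (q : ℤ) ∣ u * (q * w0 - 1) + u := fun w0 => ⟨u * w0, by ring⟩
  have hδu : ∀ w0 : ℕ, (p : ℤ) ∣ w0 * q - 1 → (p : ℤ) ∣ -(w0 * u) * q + u := by
    intro w0 h1
    obtain ⟨c, hc⟩ := h1
    exact ⟨-(c * u), by linear_combination (-u) * hc⟩
  have hδh : ∀ w0 : ℕ, (p : ℤ) ∣ w0 * q - 1 → (p : ℤ) ∣ -(w0 * u) * q + h := by
    intro w0 h1
    have := dvd_add (hδu w0 h1) hhu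
    rwa [show -((w0 : ℤ) * u) * q + u + (h - u) = -(w0 * u) * q + h by ring] at this
  rcases hw with hw | hw
  · -- kind zero
    have P := pre_UcG hp hpq hw0 (by omega : w < p) hh0 (by omega : h < p) hw (ht w hw) cuq
    refine ⟨P.cfg hwh, u * (q * w - 1), 0, -(w * u), 0, fun k => (t * k) % p, -1, u, ε,
      rfl, rfl, rfl, rfl, P.gen hwh, hap w hw, ha w, hδ w hw,
      fun k => ⟨Int.emod_nonneg _ hp'.ne', Int.emod_lt_of_pos _ hp'⟩, ?_, ?_, ?_,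
      Or.inl ⟨rfl, dvd_zero _⟩, ?_, hδh w hw, hε, hur, hqu w, hδu w hw⟩
    · intro k
      have := apx w hw k
      rw [zero_add]; exact this
    · intro k
      change Uc p q w u t k = _
      unfold Uc; ring
    · intro x hx v Y
      rw [P.Fint_eq]
      exact Fc_bound_zeroG hp hpq hf hw0 (by omega) hw hhu (ht w hw) hur' hx v Y
    · rwa [show (q : ℤ) * w + -1 = w * q - 1 by ring]
  · -- kind one
    obtain ⟨w0, rfl⟩ : ∃ w0, w = p - w0 := ⟨p - w, by omega⟩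
    have hw0' : w0 < p := by omega
    have hcw : ((p - w0 : ℕ) : ℤ) = p - w0 := Nat.cast_sub hw0'.le
    have hw1 : (p : ℤ) ∣ w0 * q - 1 := by
      rw [hcw] at hw
      obtain ⟨c, hc⟩ := hw
      exact ⟨q - c, by linear_combination -hc⟩
    have hw00 : 0 < w0 := by
      rcases Nat.eq_zero_or_pos w0 with h1 | h1
      · exact absurd (by rw [h1]; simp) (hw0p w0 hw1)
      · exact h1
    have P0 := pre_UcG hp hpq hw00 hw0' hh0 (by omega : h < p) hw1 (ht w0 hw1) cuq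
    have P := P0.compl
    have bd : ∀ x, (p : ℤ) ∣ x → ∀ v Y, |(P.cfg hwh).Fint x v Y| ≤ 1 := by
      intro x hx v Y
      rw [P.Fint_eq, Fc_compl P0, abs_neg]
      exact Fc_bound_zeroG hp hpq hf hw00 hw0' hw1 hhu (ht w0 hw1) hur' hx v Y
    refine ⟨P.cfg hwh, u * (q * w0 - 1), q * w0, -(w0 * u), -w0, fun k => (t * (k + w0)) % p, 1,
      u, ε, rfl, rfl, rfl, rfl, P.gen hwh, hap w0 hw1, ha w0, hδ w0 hw1,
      fun k => ⟨Int.emod_nonneg _ hp'.ne', Int.emod_lt_of_pos _ hp'⟩, ?_, ?_, bd,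
      Or.inr ⟨rfl, ?_⟩, ?_, hδh w0 hw1, hε, hur, hqu w0, hδu w0 hw1⟩
    · intro k
      have := apx w0 hw1 (k + w0)
      rwa [show k - (-(w0 : ℤ) + -(w0 * u) * ((t * (k + w0)) % p))
        = k + w0 - -(w0 * u) * ((t * (k + w0)) % p) by ring]
    · intro k
      change cU q w0 (Uc p q w0 u t) k = _
      unfold cU Uc; ring
    · rwa [mul_comm]
    · rwa [mul_comm]

end Pool.Agent.H67.Flat
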