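import Pool.Agent.H67.Flat.Bound
import Pool.Agent.H67.Flat.CfgBridge3

/-!
# Flatness for arbitrary pairwise coprime moduli

`HFlat p q r` is the flatness of the inclusion-exclusion polynomial `Q_{p,q,r}` expressed through
the heights `HH`; it only depends on `r` modulo `p q`.
-/

namespace Pool.Agent.H67.Flat

open Finset
open Pool.Agent.H98.Flat

/-- flatness of the triple `(p, q, r)` -/
def HFlat (p q : ℕ) (r : ℤ) : Prop :=
  ∀ lam : ℤ, (p : ℤ) ∣ lam * q - 1 → ∀ (m : ℤ) (T : ℕ), |HH p q lam r m T| ≤ 1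

theorem hflat_of_prime {p q r : ℕ} (hp : p.Prime) (hq : q.Prime) (hr : r.Prime)
    (hpq : p < q) (hqr : q < r)
    (hflat : ∀ n : ℕ, |(Polynomial.cyclotomic (p * q * r) ℤ).coeff n| ≤ 1) : HFlat p q r :=
  fun _ hlam m T => HH_bound hp hq hr hpq hqr hlam hflat m T

theorem HFlat.congr {p q : ℕ} {r r' : ℤ} (h : HFlat p q r) (hr : (p : ℤ) * q ∣ r - r') :
    HFlat p q r' := by
  intro lam hlam m T
  have := h lam hlam m T
  obtain ⟨c, hc⟩ := hr
  unfold HH at this ⊢
  have e : ∀ j ∈ Finset.range (T + 1), aF p q lam j * bF p q (r' * (m - j)) =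
      aF p q lam j * bF p q (r * (m - j)) := by
    intro j _
    rw [bF_congr (c := -c * (m - j)) (by linear_combination -(m - (j : ℤ)) * hc :
      r' * (m - j) = r * (m - j) + p * q * (-c * (m - j)))]
  rw [Finset.sum_congr rfl e]
  exact this

/-- the FF heights of a flat triple are bounded -/
theorem HFlat.FF_bound {p q : ℕ} {r lam u : ℤ} (hf : HFlat p q r) (hp : 2 ≤ p) (hpq : p < q)
    (hlam : (p : ℤ) ∣ lam * q - 1)
    (hur : (p : ℤ) * q ∣ u * r - 1 ∨ (p : ℤ) * q ∣ u * r + 1) (m T : ℤ) :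
    |FF p q lam u m T| ≤ 1 := by
  have hN : 0 < (p : ℤ) * q := by
    have h1 : (0 : ℤ) < p := by exact_mod_cast (by omega : 0 < p)
    have h2 : (0 : ℤ) < q := by exact_mod_cast (by omega : 0 < q)
    positivity
  have main : ∀ u' : ℤ, (p : ℤ) * q ∣ u' * r - 1 → ∀ m T : ℤ, |FF p q lam u' m T| ≤ 1 := by
    intro u' hu' m T
    have h1 : ∀ T : ℕ, (T : ℤ) < p * q → |FF p q lam u' m T| ≤ 1 := by
      intro T hT
      rw [← HH_eq_FF (r := r) T (by omega) (by exact_mod_cast hpq) hp hT hu']
      exact hf lam hlam m T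
    rcases lt_or_ge T 0 with h | h
    · rw [FF_of_neg hN h]; norm_num
    · rcases lt_or_ge T (p * q) with h' | h'
      · have := h1 T.toNat (by rw [Int.toNat_of_nonneg h]; exact h')
        rwa [Int.toNat_of_nonneg h] at this
      · rw [FF_of_ge hN h']
        have h2 : (0 : ℤ) ≤ p * q - 1 := by omega
        have := h1 (p * q - 1 : ℤ).toNat (by rw [Int.toNat_of_nonneg h2]; omega)
        rwa [Int.toNat_of_nonneg h2] at this
  rcases hur with h | h
  · exact main u h m T
  · have h3 : (p : ℤ) * q ∣ (-u) * r - 1 := by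
      obtain ⟨c, hc⟩ := h
      exact ⟨-c, by linear_combination -hc⟩
    have h4 := FF_neg (p := p) (q := q) (lam := lam) (u := -u) (m := m) (T := T)
    rw [neg_neg] at h4
    rw [h4, abs_neg]
    exact main _ h3 _ _

/-- flatness is symmetric in the sign of `r` -/
theorem HFlat.neg {p q : ℕ} {r : ℤ} (hf : HFlat p q r) (hp : 2 ≤ p) (hpq : p < q)
    (hr : IsCoprime r ((p : ℤ) * q)) : HFlat p q (-r) := by
  intro lam hlam m T
  have hp' : (0 : ℤ) < p := by exact_mod_cast (by omega : 0 < p)
  have hq' : (0 : ℤ) < q := by exact_mod_cast (by omega : 0 < q)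
  have hN : 0 < (p : ℤ) * q := by positivity
  obtain ⟨x, y, hxy⟩ := hr
  have h1 : (p : ℤ) * q ∣ (-x) * (-r) - 1 := ⟨-y, by linear_combination hxy⟩
  have h2 : (p : ℤ) * q ∣ (-x) * r + 1 := ⟨y, by linear_combination -hxy⟩
  have h3 : ∀ T : ℕ, (T : ℤ) < p * q → |HH p q lam (-r) m T| ≤ 1 := by
    intro T hT
    rw [HH_eq_FF T (by omega) (by exact_mod_cast hpq) hp hT h1]
    exact hf.FF_bound hp hpq hlam (Or.inr h2) m T
  rcases lt_or_ge (T : ℤ) (p * q) with h | h
  · exact h3 T h
  · -- beyond `p q` the coefficients vanish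
    have hpq1 : 1 ≤ p * q := Nat.mul_pos (by omega) (by omega)
    have hsplit : HH p q lam (-r) m T = HH p q lam (-r) m (p * q - 1) := by
      unfold HH
      have hle : p * q - 1 + 1 ≤ T + 1 := by
        have : p * q ≤ T := by exact_mod_cast h
        omega
      rw [← Finset.sum_subset (Finset.range_mono hle)]
      intro j _ hj2
      rw [Finset.mem_range] at hj2
      have hj3 : (p : ℤ) * q ≤ j := by
        have : p * q ≤ j := by omega
        exact_mod_cast this
      have key : ∀ z : ℤ, (p : ℤ) * q - 1 ≤ z → sF p q lam z = 1 := by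
        intro z hz
        unfold sF
        rw [if_pos]
        have e1 := Int.emod_lt_of_pos (lam * z) hp'
        have : (q : ℤ) * ((lam * z) % p) ≤ q * (p - 1) :=
          mul_le_mul_of_nonneg_left (by omega) hq'.le
        have : (q : ℤ) * (p - 1) = p * q - q := by ring
        omega
      unfold aF
      rw [key j (by omega), key (j - 1) (by omega)]
      norm_num
    rw [hsplit]
    apply h3
    have : ((p * q - 1 : ℕ) : ℤ) = (p : ℤ) * q - 1 := by
      rw [Nat.cast_sub hpq1]; push_cast; ring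
    rw [this]; omega

end Pool.Agent.H67.Flat
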