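import Pool.Agent.H67.Gen.Basic
import Pool.Agent.H67.Flat.CfgBridge4

/-!
# The rectangle configuration of a flat triple with arbitrary coprime moduli
-/

namespace Pool.Agent.H67.Flat

open Finset
open Pool.Agent.H98.Flat

/-- the configuration attached to coprime data is generic -/
theorem pre_UcG {p q w h : ℕ} {u t : ℤ} (hp : 2 ≤ p) (hpq : p < q)
    (hw0 : 0 < w) (hwp : w < p) (hh0 : 0 < h) (hhp : h < p)
    (hl : (p : ℤ) ∣ w * q - 1) (ht : (p : ℤ) ∣ w * u * t + 1) (huq : IsCoprime (q : ℤ) u) :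
    Pre p q w h (Uc p q w u t) := by
  have hp' : (0 : ℤ) < p := by exact_mod_cast (by omega : 0 < p)
  have hq' : (0 : ℤ) < q := by exact_mod_cast (by omega : 0 < q)
  have h1p : ¬ (p : ℤ) ∣ 1 := by
    intro h
    have := Int.le_of_dvd (by norm_num) h
    omega
  obtain ⟨a7, ha7⟩ := hl
  have idx : ∀ i j : ℤ, (q : ℤ) ∣ Uc p q w u t i - Uc p q w u t j → (p : ℤ) ∣ i - j := by
    intro i j hd
    unfold Uc at hd
    have h1 : (q : ℤ) ∣ u * ((t * i) % p - (t * j) % p) := by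
      obtain ⟨c, hc⟩ := hd
      exact ⟨((t * i) % p - (t * j) % p) * u * w - c, by linear_combination -hc⟩
    have i0 := Int.emod_nonneg (t * i) hp'.ne'
    have i1 := Int.emod_lt_of_pos (t * i) hp'
    have j0 := Int.emod_nonneg (t * j) hp'.ne'
    have j1 := Int.emod_lt_of_pos (t * j) hp'
    have h2 : (t * i) % p - (t * j) % p = 0 := by
      refine Int.eq_zero_of_abs_lt_dvd (huq.dvd_of_dvd_mul_left h1) ?_
      rw [abs_lt]; constructor <;> omega
    have h3 : (p : ℤ) ∣ t * i - t * j := Int.ModEq.dvd (by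
        show (t * j) % p = (t * i) % p; omega)
    obtain ⟨c, hc⟩ := h3
    obtain ⟨d, hd'⟩ := ht
    exact ⟨d * (i - j) - w * u * c, by linear_combination (i - j) * hd' - (w * u) * hc⟩
  have hUp : ∀ i, (p : ℤ) ∣ Uc p q w u t i := by
    intro i
    unfold Uc
    exact ⟨(t * i) % p * u * a7, by linear_combination ((t * i) % p * u) * ha7⟩
  have qN : ∀ x : ℤ, (p : ℤ) * q ∣ x → (q : ℤ) ∣ x := fun x hx => (dvd_mul_left _ _).trans hx
  have pN : ∀ x : ℤ, (p : ℤ) * q ∣ x → (p : ℤ) ∣ x := fun x hx => (dvd_mul_right _ _).trans hx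
  have hph : ¬ (p : ℤ) ∣ h := by
    intro h1
    have := Int.le_of_dvd (by exact_mod_cast hh0) h1
    omega
  refine ⟨by omega, hw0, hwp, hh0, hhp, ?_, ?_, ?_, ?_, ?_⟩
  · intro k
    unfold Uc
    have : (t * (k + p)) % (p : ℤ) = (t * k) % p := by
      rw [mul_add, Int.add_mul_emod_self_right]
    rw [this]; simp
  · intro i j h1
    exact idx i j (qN _ h1)
  · intro i j h1
    have h2 := pN _ h1
    have h3 := dvd_sub (hUp i) (hUp j)
    have h4 := dvd_sub h3 h2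
    apply h1p
    obtain ⟨c, hc⟩ := h4
    exact ⟨c - a7, by linear_combination hc - ha7⟩
  · intro i j h1
    apply idx
    obtain ⟨c, hc⟩ := qN _ h1
    exact ⟨c - i + j, by linear_combination hc⟩
  · intro i j h1
    have h2 : (p : ℤ) ∣ i - j := by
      apply idx
      obtain ⟨c, hc⟩ := qN _ h1
      exact ⟨c - i + j - h, by linear_combination hc⟩
    apply hph
    obtain ⟨d, hd⟩ := h2
    have h3 : Uc p q w u t i = Uc p q w u t j := by
      unfold Uc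
      have : (t * i) % (p : ℤ) = (t * j) % p := emod_congr ⟨t * d, by linear_combination t * hd⟩
      rw [this]
    rw [h3] at h1
    obtain ⟨c, hc⟩ := h1
    have : (q : ℤ) * (p * (c - d) - h) = 0 := by linear_combination q * hd - hc
    have h6 : (p : ℤ) * (c - d) - h = 0 := by
      rcases mul_eq_zero.1 this with h7 | h7
      · omega
      · exact h7
    exact ⟨c - d, by omega⟩

theorem Fc_bound_zeroG {p q w h : ℕ} {r u t : ℤ} (hp : 2 ≤ p) (hpq : p < q)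
    (hf : HFlat p q r) (hw0 : 0 < w) (hwp : w < p)
    (hl : (p : ℤ) ∣ w * q - 1) (hh : (p : ℤ) ∣ h - u) (ht : (p : ℤ) ∣ w * u * t + 1)
    (hur : (p : ℤ) * q ∣ u * r - 1 ∨ (p : ℤ) * q ∣ u * r + 1)
    {u0 : ℤ} (hu0 : (p : ℤ) ∣ u0) (v0 Y : ℤ) :
    |Fc p q w h (Uc p q w u t) u0 v0 Y| ≤ 1 := by
  have hp' : (0 : ℤ) < p := by exact_mod_cast (by omega : 0 < p)
  have hq' : (0 : ℤ) < q := by exact_mod_cast (by omega : 0 < q)
  have hN : (0 : ℤ) < p * q := mul_pos hp' hq'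
  obtain ⟨b, hb⟩ := hu0
  obtain ⟨a7, ha7⟩ := hl
  set m : ℤ := (q * w - 1) * u0 - q * w * q * Y with hm
  set T : ℤ := (v0 + m) % (p * q) with hT
  have hT0 := Int.emod_nonneg (v0 + m) hN.ne'
  have hT1 := Int.emod_lt_of_pos (v0 + m) hN
  have hTe := Int.mul_ediv_add_emod (v0 + m) (p * q)
  rw [← hT] at hT0 hT1 hTe
  have hwp' : ¬ (p : ℤ) ∣ w := by
    intro h1
    have := Int.le_of_dvd (by exact_mod_cast hw0) h1
    omega
  rw [← FF_eq_Fc (m := m) (T := T) (by omega) (by omega) hwp' ⟨a7, ha7⟩ hh ht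
    ⟨b * (2 - q * w) * w + a7 * w * q * Y, by
      rw [hm]; linear_combination (q * w * (2 - q * w) : ℤ) * hb + (w * q * q * Y : ℤ) * ha7⟩
    ⟨-Y * a7 * (1 + w * q) + w * a7 * u0, by
      rw [hm]; linear_combination (-Y * (1 + w * q) + w * u0 : ℤ) * ha7⟩
    ⟨(v0 + m) / (p * q), by linear_combination -hTe⟩ hT0 hT1]
  exact hf.FF_bound hp hpq ⟨a7, ha7⟩ hur m T

theorem PW_tieG {p q w : ℕ} {r u t : ℤ} (hp : 2 ≤ p)
    (hl : (p : ℤ) ∣ w * q - 1)
    (hur : (p : ℤ) * q ∣ u * r - 1 ∨ (p : ℤ) * q ∣ u * r + 1)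
    (hnt : ∀ e : ℤ, |e| < p → ¬ (q : ℤ) ∣ r - e) (x : ℤ) (hx0 : (p : ℤ) ∣ x)
    (hx : PW p q w (Uc p q w u t) x) (hx1 : PW p q w (Uc p q w u t) (x + 1)) : False := by
  have hp' : (0 : ℤ) < p := by exact_mod_cast (by omega : 0 < p)
  have h1 : ¬ (p : ℤ) ∣ 1 := by
    intro h
    have := Int.le_of_dvd (by norm_num) h
    omega
  obtain ⟨a7, ha7⟩ := hl
  obtain ⟨b0, hb0⟩ := hx0
  have hL : ∃ k, (p : ℤ) * q ∣ x - Uc p q w u t k := by
    rcases hx with h | ⟨k, c, hc⟩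
    · exact h
    · exfalso
      unfold Uc at hc
      exact h1 ⟨b0 - q * c - (t * k) % p * u * a7 - a7, by
        linear_combination hb0 - hc - ((t * k) % p * u + 1) * ha7⟩
  have hR : ∃ k, (p : ℤ) * q ∣ x + 1 - (Uc p q w u t k + q * w) := by
    rcases hx1 with ⟨k, c, hc⟩ | h
    · exfalso
      unfold Uc at hc
      exact h1 ⟨-b0 + q * c + (t * k) % p * u * a7, by
        linear_combination -hb0 + hc + ((t * k) % p * u) * ha7⟩
    · exact h
  obtain ⟨i, c, hc⟩ := hL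
  obtain ⟨j, d, hd⟩ := hR
  unfold Uc at hc hd
  have i0 := Int.emod_nonneg (t * i) hp'.ne'
  have i1 := Int.emod_lt_of_pos (t * i) hp'
  have j0 := Int.emod_nonneg (t * j) hp'.ne'
  have j1 := Int.emod_lt_of_pos (t * j) hp'
  set I := (t * i) % (p : ℤ)
  set J := (t * j) % (p : ℤ)
  have h2 : (q : ℤ) ∣ 1 + u * (J - I) := by
    refine ⟨p * (d - c) + (J - I) * u * w + w, ?_⟩
    linear_combination hd - hc
  rcases hur with h3 | h3
  · have h4 : (q : ℤ) ∣ u * r - 1 := (dvd_mul_left _ _).trans h3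
    refine hnt (I - J) (by rw [abs_lt]; constructor <;> omega) ?_
    obtain ⟨c1, hc1⟩ := h2
    obtain ⟨c2, hc2⟩ := h4
    exact ⟨r * c1 - (J - I) * c2, by linear_combination r * hc1 - (J - I) * hc2⟩
  · have h4 : (q : ℤ) ∣ u * r + 1 := (dvd_mul_left _ _).trans h3
    refine hnt (J - I) (by rw [abs_lt]; constructor <;> omega) ?_
    obtain ⟨c1, hc1⟩ := h2
    obtain ⟨c2, hc2⟩ := h4
    exact ⟨r * c1 - (J - I) * c2, by linear_combination r * hc1 - (J - I) * hc2⟩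

/-- the rectangles form an arithmetic progression with `p` terms; coprime version -/
def APG (C : Cfg) (a c δ κ : ℤ) (i : ℤ → ℤ) : Prop :=
  IsCoprime δ (C.p : ℤ) ∧ IsCoprime a (C.q : ℤ) ∧ (C.p : ℤ) ∣ a ∧
  (∀ k, 0 ≤ i k ∧ i k < C.p) ∧ (∀ k, (C.p : ℤ) ∣ k - (κ + δ * i k)) ∧
  (∀ k, C.U k = c + a * i k)

/-- **the bridge, coprime version**: a flat triple gives a generic configuration of `w × h`
rectangles with all heights at multiples of `p` bounded by one, and all heights if there is no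
tie.  Here `w q = ± 1`, `h r = ± 1` modulo `p`; the step `a` of the progression satisfies
`a = u (q w₀ - 1)` and the step of the rows is `δ = - w₀ u` with `w₀ q ≡ 1 [p]`,
`u r ≡ ε [p q]`, `u ≡ h [p]`. -/
theorem exists_cfgG {p q w h : ℕ} {r : ℤ} (hp : 2 ≤ p) (hpq : p < q)
    (cpq : IsCoprime (p : ℤ) (q : ℤ)) (cr : IsCoprime r ((p : ℤ) * q)) (hf : HFlat p q r)
    (hw0 : 0 < w) (hh0 : 0 < h) (hwh : w + h ≤ p)
    (hw : (p : ℤ) ∣ w * q - 1 ∨ (p : ℤ) ∣ w * q + 1)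
    (hh : (p : ℤ) ∣ h * r - 1 ∨ (p : ℤ) ∣ h * r + 1) :
    ∃ (C : Cfg) (w0 : ℕ) (u ε c κ : ℤ) (i : ℤ → ℤ),
      C.p = p ∧ C.q = q ∧ C.w = w ∧ C.h = h ∧ C.Gen ∧
      (p : ℤ) ∣ w0 * q - 1 ∧ (w0 = w ∨ w0 + w = p) ∧
      (ε = 1 ∨ ε = -1) ∧ (p : ℤ) * q ∣ u * r - ε ∧ (p : ℤ) ∣ h - u ∧
      APG C (u * (q * w0 - 1)) c (-(w0 * u)) κ i ∧
      (∀ x, Wall C x → (C.p : ℤ) ∣ x ∨ (C.p : ℤ) ∣ x - 1) ∧
      (∀ x, (C.p : ℤ) ∣ x → ∀ v Y, |C.Fint x v Y| ≤ 1) ∧
      ((∀ e : ℤ, |e| < p → ¬ (q : ℤ) ∣ r - e) → ∀ x v Y, |C.Fint x v Y| ≤ 1) := by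
  have hp' : (0 : ℤ) < p := by exact_mod_cast (by omega : 0 < p)
  have hq' : (0 : ℤ) < q := by exact_mod_cast (by omega : 0 < q)
  have h1p : ¬ (p : ℤ) ∣ 1 := by
    intro h
    have := Int.le_of_dvd (by norm_num) h
    omega
  have crp : IsCoprime r (p : ℤ) := cr.of_mul_right_left
  have crq : IsCoprime r (q : ℤ) := cr.of_mul_right_right
  have hu : ∃ u : ℤ, ∃ ε : ℤ, (ε = 1 ∨ ε = -1) ∧ (p : ℤ) * q ∣ u * r - ε ∧ (p : ℤ) ∣ h - u := by
    obtain ⟨x, y, hxy⟩ := cr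
    rcases hh with h2 | h2
    · refine ⟨x, 1, Or.inl rfl, ⟨-y, by linear_combination hxy⟩, ?_⟩
      have : (p : ℤ) ∣ (h - x) * r := by
        obtain ⟨c, hc⟩ := h2
        exact ⟨c + y * q, by linear_combination hc - hxy⟩
      exact crp.symm.dvd_of_dvd_mul_right this
    · refine ⟨-x, -1, Or.inr rfl, ⟨y, by linear_combination -hxy⟩, ?_⟩
      have : (p : ℤ) ∣ (h - -x) * r := by
        obtain ⟨c, hc⟩ := h2
        exact ⟨c - y * q, by linear_combination hc + hxy⟩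
      exact crp.symm.dvd_of_dvd_mul_right this
  obtain ⟨u, ε, hε, hur, hhu⟩ := hu
  have hur' : (p : ℤ) * q ∣ u * r - 1 ∨ (p : ℤ) * q ∣ u * r + 1 := by
    rcases hε with rfl | rfl
    · left; exact hur
    · right; simpa using hur
  have hε2 : ε * ε = 1 := by rcases hε with rfl | rfl <;> norm_num
  have cuN : IsCoprime u ((p : ℤ) * q) := by
    obtain ⟨c, hc⟩ := hur
    exact ⟨r * ε, -(c * ε), by linear_combination ε * hc + hε2⟩
  have cup : IsCoprime u (p : ℤ) := cuN.of_mul_right_left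
  have cuq : IsCoprime u (q : ℤ) := cuN.of_mul_right_right
  -- choose `t`
  have ht : ∀ w0 : ℕ, (p : ℤ) ∣ w0 * q - 1 → (p : ℤ) ∣ w0 * u * (-(ε * q * r)) + 1 := by
    intro w0 hw0
    obtain ⟨c1, hc1⟩ := hw0
    obtain ⟨c2, hc2⟩ : (p : ℤ) ∣ u * r - ε := (dvd_mul_right _ _).trans hur
    exact ⟨-(ε * c2) * (w0 * q) - c1, by
      linear_combination -(ε * (w0 * q)) * hc2 - hc1 - (w0 * q) * hε2⟩
  set t : ℤ := -(ε * q * r) with htdef
  have apx : ∀ w0 : ℕ, (p : ℤ) ∣ w0 * q - 1 → ∀ k : ℤ,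
      (p : ℤ) ∣ k - -(w0 * u) * ((t * k) % p) := by
    intro w0 hw0 k
    obtain ⟨c, hc⟩ := ht w0 hw0
    have := Int.mul_ediv_add_emod (t * k) p
    refine ⟨c * k - w0 * u * ((t * k) / p), ?_⟩
    linear_combination (w0 * u) * this + k * hc
  have cw0 : ∀ w0 : ℕ, (p : ℤ) ∣ w0 * q - 1 → IsCoprime (w0 : ℤ) (p : ℤ) := by
    intro w0 hw0
    obtain ⟨c, hc⟩ := hw0
    exact ⟨q, -c, by linear_combination hc⟩
  have hδ : ∀ w0 : ℕ, (p : ℤ) ∣ w0 * q - 1 → IsCoprime (-(w0 * u) : ℤ) (p : ℤ) := by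
    intro w0 hw0
    exact ((cw0 w0 hw0).mul_left cup).neg_left
  have ha : ∀ w0 : ℕ, IsCoprime (u * (q * w0 - 1)) (q : ℤ) := by
    intro w0
    refine cuq.mul_left ?_
    exact ⟨-1, w0, by ring⟩
  have hap : ∀ w0 : ℕ, (p : ℤ) ∣ w0 * q - 1 → (p : ℤ) ∣ u * (q * w0 - 1) := by
    intro w0 h1
    rw [mul_comm (q : ℤ)]
    exact h1.mul_left u
  rcases hw with hw | hw
  · -- kind zero
    have P := pre_UcG hp hpq hw0 (by omega : w < p) hh0 (by omega : h < p) hw (ht w hw) cuq.symm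
    have Wi : ∀ x, Wall (P.cfg hwh) x → PW p q w (Uc p q w u t) x := fun x hx => hx
    refine ⟨P.cfg hwh, w, u, ε, 0, 0, fun k => (t * k) % p, rfl, rfl, rfl, rfl, P.gen hwh,
      hw, Or.inl rfl, hε, hur, hhu, ?_, ?_, ?_, ?_⟩
    · refine ⟨hδ w hw, ha w, hap w hw,
        fun k => ⟨Int.emod_nonneg _ hp'.ne', Int.emod_lt_of_pos _ hp'⟩, ?_, ?_⟩
      · intro k
        have := apx w hw k
        rw [zero_add]; exact this
      · intro k
        change Uc p q w u t k = _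
        unfold Uc; ring
    · intro x hx
      exact PW_res hw x (Wi x hx)
    · intro x hx v Y
      rw [P.Fint_eq]
      exact Fc_bound_zeroG hp hpq hf hw0 (by omega) hw hhu (ht w hw) hur' hx v Y
    · intro hnt
      refine Fint_all hp (fun x hx => PW_res hw x (Wi x hx)) ?_ ?_
      · intro x hx h1 h2
        exact PW_tieG hp hw hur' hnt x hx (Wi _ h1) (Wi _ h2)
      · intro x hx v Y
        rw [P.Fint_eq]
        exact Fc_bound_zeroG hp hpq hf hw0 (by omega) hw hhu (ht w hw) hur' hx v Y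
  · -- kind one
    obtain ⟨w0, rfl⟩ : ∃ w0, w = p - w0 := ⟨p - w, by omega⟩
    have hw0' : w0 < p := by omega
    have hcw : ((p - w0 : ℕ) : ℤ) = p - w0 := Nat.cast_sub hw0'.le
    have hw1 : (p : ℤ) ∣ w0 * q - 1 := by
      rw [hcw] at hw
      obtain ⟨c, hc⟩ := hw
      exact ⟨q - c, by linear_combination -hc⟩
    have hw00 : 0 < w0 := by
      rcases Nat.eq_zero_or_pos w0 with h1 | h1
      · exfalso
        rw [h1] at hw1
        apply h1p
        rw [← dvd_neg]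
        simpa using hw1
      · exact h1
    have P0 := pre_UcG hp hpq hw00 hw0' hh0 (by omega : h < p) hw1 (ht w0 hw1) cuq.symm
    have P := P0.compl
    have Wi : ∀ x, Wall (P.cfg hwh) x → PW p q w0 (Uc p q w0 u t) x := by
      intro x hx
      rcases hx with ⟨k, hk⟩ | ⟨k, hk⟩
      · right
        exact ⟨k + w0, hk⟩
      · left
        refine ⟨k + w0, ?_⟩
        have hk' : (p : ℤ) * q ∣ x - (Uc p q w0 u t (k + w0) + q * w0 + q * ((p - w0 : ℕ) : ℤ)) := hk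
        rw [hcw] at hk'
        obtain ⟨c, hc⟩ := hk'
        exact ⟨c + 1, by linear_combination hc⟩
    have bd : ∀ x, (p : ℤ) ∣ x → ∀ v Y, |(P.cfg hwh).Fint x v Y| ≤ 1 := by
      intro x hx v Y
      rw [P.Fint_eq, Fc_compl P0, abs_neg]
      exact Fc_bound_zeroG hp hpq hf hw00 hw0' hw1 hhu (ht w0 hw1) hur' hx v Y
    refine ⟨P.cfg hwh, w0, u, ε, q * w0, -w0, fun k => (t * (k + w0)) % p,
      rfl, rfl, rfl, rfl, P.gen hwh, hw1, Or.inr (by omega), hε, hur, hhu, ?_, ?_, bd, ?_⟩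
    · refine ⟨hδ w0 hw1, ha w0, hap w0 hw1,
        fun k => ⟨Int.emod_nonneg _ hp'.ne', Int.emod_lt_of_pos _ hp'⟩, ?_, ?_⟩
      · intro k
        have := apx w0 hw1 (k + w0)
        show (p : ℤ) ∣ _
        rwa [show k - (-(w0 : ℤ) + -(w0 * u) * ((t * (k + w0)) % p))
          = k + w0 - -(w0 * u) * ((t * (k + w0)) % p) by ring]
      · intro k
        change cU q w0 (Uc p q w0 u t) k = _
        unfold cU Uc; ring
    · intro x hx
      exact PW_res hw1 x (Wi x hx)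
    · intro hnt
      refine Fint_all hp (fun x hx => PW_res hw1 x (Wi x hx)) ?_ bd
      intro x hx h1 h2
      exact PW_tieG hp hw1 hur' hnt x hx (Wi _ h1) (Wi _ h2)

end Pool.Agent.H67.Flat
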