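import Pool.Agent.H67.Gen.Kill

/-!
# The explicit families `p ≡ ± 1 [e]`
-/

namespace Pool.Agent.H67.Flat

theorem ediv_of {n e c r : ℤ} (h : n = e * c + r) (h0 : 0 ≤ r) (h1 : r < e) : n / e = c := by
  have he : 0 < e := by omega
  rw [h, add_comm, Int.add_mul_ediv_left _ _ he.ne', Int.ediv_eq_zero_of_lt h0 h1, zero_add]

theorem le_of_mul_lt {e x a : ℤ} (he : 0 < e) (h : e * x < e * a + e) : x ≤ a := by
  have h1 : e * x < e * (a + 1) := by rw [mul_add, mul_one]; exact h
  have := lt_of_mul_lt_mul_left h1 he.le
  omega

/-- ceiling division -/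
theorem exists_ceil {w : ℤ} (R : ℤ) (hw : 0 < w) : ∃ i, R ≤ w * i ∧ w * i ≤ R + w - 1 := by
  refine ⟨(R + w - 1) / w, ?_, Int.mul_ediv_self_le hw.ne'⟩
  have := Int.lt_mul_ediv_self_add (x := R + w - 1) hw
  omega

variable {p q e : ℕ}

section

variable (hf : HFlat p q e) (hpq : p < q) (he : 3 ≤ e) (hep : e < p)
  (cpq : IsCoprime (p : ℤ) (q : ℤ)) (ce : IsCoprime (e : ℤ) ((p : ℤ) * q))

include hf hpq he hep cpq ce

theorem fam3B {a m C ε s : ℤ} (hε : ε = 1 ∨ ε = -1) (hs : s = 1 ∨ s = -1)
    (hpe : (p : ℤ) = e * a + ε) (hqe : (q : ℤ) = e * C + s * ε) (hm : 1 ≤ m)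
    (hw : (e : ℤ) * m * (e - 1) < p) (hg : (p : ℤ) ∣ s * (e * m) * q - 1) : False := by
  have he' : (3 : ℤ) ≤ e := by exact_mod_cast he
  have he0 : (0 : ℤ) < e := by omega
  have hpq' : (p : ℤ) < q := by exact_mod_cast hpq
  have hep' : (e : ℤ) < p := by exact_mod_cast hep
  have hq0 : (0 : ℤ) < q := by omega
  have cep : IsCoprime (p : ℤ) (e : ℤ) := ce.of_mul_right_left.symm
  have hε2 : ε * ε = 1 := by rcases hε with rfl | rfl <;> norm_num
  have hs2 : s * s = 1 := by rcases hs with rfl | rfl <;> norm_num
  obtain ⟨c, hc⟩ := hg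
  have idxC : ∀ i : ℤ, (p : ℤ) ∣ (C + i) - (-ε * (a + m) + s * (e * m) * i) * q := by
    intro i
    refine cep.dvd_of_dvd_mul_left (y := (e : ℤ)) ⟨(ε * s - e * i) * c + ε * q, ?_⟩
    linear_combination -hqe - ε * q * hpe + (ε * s - e * i) * hc - q * hε2 - (ε * (e * m * q)) * hs2
  have idxa : (p : ℤ) ∣ a + s * ε * m * q := by
    refine cep.dvd_of_dvd_mul_left (y := (e : ℤ)) ⟨1 + ε * c, ?_⟩
    linear_combination -hpe + ε * hc
  have i0 := idxC 0
  simp only [add_zero, mul_zero] at i0
  have em : (e : ℤ) ≤ e * m := by
    have : (e : ℤ) * 1 ≤ e * m := mul_le_mul_of_nonneg_left hm he0.le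
    omega
  have e2w : 2 * ((e : ℤ) * m) ≤ e * m * (e - 1) := by
    have : ((e : ℤ) * m) * 2 ≤ e * m * (e - 1) := mul_le_mul_of_nonneg_left (by omega) (by omega)
    omega
  have e2m : 2 * m ≤ (e - 1) * m := mul_le_mul_of_nonneg_right (by omega) (by omega)
  rcases hε with rfl | rfl
  · -- `ε = 1`
    have hm1 : ((e : ℤ) - 1) * m ≤ a := by
      apply le_of_mul_lt he0
      have : (e : ℤ) * ((e - 1) * m) = e * m * (e - 1) := by ring
      omega
    have ha3 : 3 * a ≤ e * a := mul_le_mul_of_nonneg_right he' (by omega)
    rcases hs with rfl | rfl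
    · -- `s = 1`
      obtain ⟨i, hi1, hi2⟩ := exists_ceil (a + 1) (by omega : 0 < (e : ℤ) * m)
      have hi0 : 1 ≤ i := by
        by_contra hcon
        have : (e : ℤ) * m * i ≤ e * m * 0 := mul_le_mul_of_nonneg_left (by omega) (by omega)
        omega
      have hia : i ≤ a + 1 := by
        by_contra hcon
        have h1 : (e : ℤ) * m * (a + 2) ≤ e * m * i :=
          mul_le_mul_of_nonneg_left (by omega) (by omega)
        have h2 : (1 : ℤ) * a ≤ e * m * a := mul_le_mul_of_nonneg_right (by omega) (by omega)
        have h3 : (e : ℤ) * m * (a + 2) = e * m * a + 2 * (e * m) := by ring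
        omega
      have hdi := idxC i
      set W := (e : ℤ) * m * i with hW
      have hem : (e : ℤ) * m = (e - 1) * m + m := by ring
      rcases le_or_gt 1 (W - a - m) with ht | ht
      · refine hf.killI (ρ := e - 2) (x := C) (y := a) (D := C + i) (δ := W - a - m)
          (j2 := p - (a + m)) (j3 := p - m) (by omega) hpq (by omega) cpq ce (by omega) (by omega)
          (ediv_of (r := e - 1) (by rw [hqe]; ring) (by omega) (by omega))
          (ediv_of (r := e - 1) (by rw [hpe]; ring) (by omega) (by omega)) (by omega) ?_ ht ?_ ?_ ?_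
          (by omega) (by omega) ?_ (by omega) (by omega)
        · rw [ediv_of (c := a + C + 1) (r := 0) (by rw [hqe, hpe]; ring) le_rfl (by omega)]
          omega
        · have : (e : ℤ) * (W - a - m) ≤ e * a := mul_le_mul_of_nonneg_left (by omega) he0.le
          omega
        · rwa [show C + i - (W - a - m) * q = C + i - (-1 * (a + m) + 1 * (e * m) * i) * q by
            rw [hW]; ring]
        · have := dvd_sub i0 (dvd_mul_right (p : ℤ) q)
          rwa [show C - (-1 * (a + m)) * q - p * q = C - (p - (a + m)) * q by ring] at this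
        · have := dvd_sub idxa (dvd_mul_right (p : ℤ) q)
          rwa [show a + 1 * 1 * m * q - p * q = a - (p - m) * q by ring] at this
      · refine hf.killII (ρ := e - 2) (x := C) (y := a) (D := C + i) (d := a + m - W)
          (j2 := p - (a + m)) (j3 := p - m) (by omega) hpq (by omega) cpq ce (by omega) (by omega)
          hep' (ediv_of (r := e - 1) (by rw [hqe]; ring) (by omega) (by omega))
          (ediv_of (r := e - 1) (by rw [hpe]; ring) (by omega) (by omega)) (by omega) ?_ (by omega)
          ?_ ?_ ?_ (by omega) (by omega) ?_ (by omega) (by omega)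
        · rw [ediv_of (c := a + C + 1) (r := 0) (by rw [hqe, hpe]; ring) le_rfl (by omega)]
          omega
        · have h1 : (e : ℤ) * (a + m - W) ≤ e * (m - 1) :=
            mul_le_mul_of_nonneg_left (by omega) he0.le
          have h2 : (e : ℤ) * (a + m - W) * q ≤ (p - 3) * q := by
            apply mul_le_mul_of_nonneg_right _ hq0.le
            have : (e : ℤ) * (m - 1) = e * m - e := by ring
            omega
          have h3 : ((p : ℤ) - 3) * q = p * q - 3 * q := by ring
          omega
        · rwa [show C + i + (a + m - W) * q = C + i - (-1 * (a + m) + 1 * (e * m) * i) * q by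
            rw [hW]; ring]
        · have := dvd_sub i0 (dvd_mul_right (p : ℤ) q)
          rwa [show C - (-1 * (a + m)) * q - p * q = C - (p - (a + m)) * q by ring] at this
        · have := dvd_sub idxa (dvd_mul_right (p : ℤ) q)
          rwa [show a + 1 * 1 * m * q - p * q = a - (p - m) * q by ring] at this
    · -- `s = -1`
      obtain ⟨i, hi1, hi2⟩ := exists_ceil (p - a - 2 * m) (by omega : 0 < (e : ℤ) * m)
      have hi0 : 1 ≤ i := by
        by_contra hcon
        have : (e : ℤ) * m * i ≤ e * m * 0 := mul_le_mul_of_nonneg_left (by omega) (by omega)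
        omega
      have hia : i ≤ a := by
        by_contra hcon
        have h1 : (e : ℤ) * m * (a + 1) ≤ e * m * i :=
          mul_le_mul_of_nonneg_left (by omega) (by omega)
        have h2 : (e : ℤ) * a ≤ e * m * a := mul_le_mul_of_nonneg_right em (by omega)
        have h3 : (e : ℤ) * m * (a + 1) = e * m * a + (e * m) := by ring
        omega
      have hdi := idxC i
      set W := (e : ℤ) * m * i with hW
      have hem : (e : ℤ) * m = (e - 1) * m + m := by ring
      rcases le_or_gt 1 (p - a - m - W) with ht | ht
      · refine hf.killI (ρ := 1) (x := C) (y := a) (D := C + i) (δ := p - a - m - W)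
          (j2 := p - (a + m)) (j3 := m) (by omega) hpq (by omega) cpq ce (by omega) (by omega)
          (ediv_of (r := 0) (by rw [hqe]; ring) (by omega) (by omega))
          (ediv_of (r := 2) (by rw [hpe]; ring) (by omega) (by omega)) (by omega) ?_ ht ?_ ?_ ?_
          (by omega) (by omega) ?_ (by omega) (by omega)
        · rw [ediv_of (c := a + C) (r := 1) (by rw [hqe, hpe]; ring) (by omega) (by omega)]
          omega
        · have : (e : ℤ) * (p - a - m - W) ≤ e * a := mul_le_mul_of_nonneg_left (by omega) he0.le
          omega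
        · have := dvd_sub hdi (dvd_mul_right (p : ℤ) q)
          rwa [show C + i - (-1 * (a + m) + -1 * (e * m) * i) * q - p * q =
            C + i - (p - a - m - W) * q by rw [hW]; ring] at this
        · have := dvd_sub i0 (dvd_mul_right (p : ℤ) q)
          rwa [show C - (-1 * (a + m)) * q - p * q = C - (p - (a + m)) * q by ring] at this
        · rwa [show a + -1 * 1 * m * q = a - m * q by ring] at idxa
      · refine hf.killII (ρ := 1) (x := C) (y := a) (D := C + i) (d := a + m + W - p)
          (j2 := p - (a + m)) (j3 := m) (by omega) hpq (by omega) cpq ce (by omega) (by omega)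
          hep' (ediv_of (r := 0) (by rw [hqe]; ring) (by omega) (by omega))
          (ediv_of (r := 2) (by rw [hpe]; ring) (by omega) (by omega)) (by omega) ?_ (by omega)
          ?_ ?_ ?_ (by omega) (by omega) ?_ (by omega) (by omega)
        · rw [ediv_of (c := a + C) (r := 1) (by rw [hqe, hpe]; ring) (by omega) (by omega)]
          omega
        · have h1 : (e : ℤ) * (a + m + W - p) ≤ e * (a - 1) :=
            mul_le_mul_of_nonneg_left (by omega) he0.le
          have h2 : (e : ℤ) * (a + m + W - p) * q ≤ (p - 1 - e) * q := by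
            apply mul_le_mul_of_nonneg_right _ hq0.le
            have : (e : ℤ) * (a - 1) = e * a - e := by ring
            omega
          have h3 : ((p : ℤ) - 1 - e) * q = p * q - q - e * q := by ring
          have h4 : (3 : ℤ) * q ≤ e * q := mul_le_mul_of_nonneg_right he' hq0.le
          omega
        · have := dvd_sub hdi (dvd_mul_right (p : ℤ) q)
          rwa [show C + i - (-1 * (a + m) + -1 * (e * m) * i) * q - p * q =
            C + i + (a + m + W - p) * q by rw [hW]; ring] at this
        · have := dvd_sub i0 (dvd_mul_right (p : ℤ) q)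
          rwa [show C - (-1 * (a + m)) * q - p * q = C - (p - (a + m)) * q by ring] at this
        · rwa [show a + -1 * 1 * m * q = a - m * q by ring] at idxa
  · -- `ε = -1`
    have hm1 : ((e : ℤ) - 1) * m ≤ a - 1 := by
      apply le_of_mul_lt he0
      have : (e : ℤ) * ((e - 1) * m) = e * m * (e - 1) := by ring
      have : (e : ℤ) * (a - 1) = e * a - e := by ring
      omega
    have ha3 : 3 * a ≤ e * a := mul_le_mul_of_nonneg_right he' (by omega)
    have hem : (e : ℤ) * m = (e - 1) * m + m := by ring
    rcases hs with rfl | rfl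
    · -- `s = 1`
      have hCa : a + 1 ≤ C := by
        by_contra hcon
        have : (e : ℤ) * C ≤ e * a := mul_le_mul_of_nonneg_left (by omega) he0.le
        omega
      have hqp : (p : ℤ) + e ≤ q := by
        have : (e : ℤ) * (a + 1) ≤ e * C := mul_le_mul_of_nonneg_left hCa he0.le
        have : (e : ℤ) * (a + 1) = e * a + e := by ring
        omega
      obtain ⟨i, hi1, hi2⟩ := exists_ceil (p - 2 * a - m + 1) (by omega : 0 < (e : ℤ) * m)
      have hi0 : 1 ≤ i := by
        by_contra hcon
        have : (e : ℤ) * m * i ≤ e * m * 0 := mul_le_mul_of_nonneg_left (by omega) (by omega)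
        omega
      have hia : i ≤ a := by
        by_contra hcon
        have h1 : (e : ℤ) * m * (a + 1) ≤ e * m * i :=
          mul_le_mul_of_nonneg_left (by omega) (by omega)
        have h2 : (e : ℤ) * a ≤ e * m * a := mul_le_mul_of_nonneg_right em (by omega)
        have h3 : (e : ℤ) * m * (a + 1) = e * m * a + (e * m) := by ring
        omega
      have hdi := idxC i
      set W := (e : ℤ) * m * i with hW
      rcases le_or_gt 1 (a + m + W - p) with ht | ht
      · refine hf.killI (ρ := e - 1) (x := C) (y := a) (D := C + i) (δ := a + m + W - p)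
          (j2 := a + m) (j3 := m) (by omega) hpq (by omega) cpq ce (by omega) (by omega)
          (ediv_of (r := e - 2) (by rw [hqe]; ring) (by omega) (by omega))
          (ediv_of (r := e - 2) (by rw [hpe]; ring) (by omega) (by omega)) (by omega) ?_ ht ?_ ?_ ?_
          (by omega) (by omega) ?_ (by omega) (by omega)
        · rw [ediv_of (c := a + C) (r := e - 3) (by rw [hqe, hpe]; ring) (by omega) (by omega)]
          omega
        · have : (e : ℤ) * (a + m + W - p) ≤ e * (a - 1) :=
            mul_le_mul_of_nonneg_left (by omega) he0.le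
          have : (e : ℤ) * (a - 1) = e * a - e := by ring
          omega
        · have := dvd_add hdi (dvd_mul_right (p : ℤ) q)
          rwa [show C + i - (- -1 * (a + m) + 1 * (e * m) * i) * q + p * q =
            C + i - (a + m + W - p) * q by rw [hW]; ring] at this
        · rwa [show C - (- -1 * (a + m)) * q = C - (a + m) * q by ring] at i0
        · rwa [show a + 1 * -1 * m * q = a - m * q by ring] at idxa
      · refine hf.killII (ρ := e - 1) (x := C) (y := a) (D := C + i) (d := p - (a + m + W))
          (j2 := a + m) (j3 := m) (by omega) hpq (by omega) cpq ce (by omega) (by omega)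
          hep' (ediv_of (r := e - 2) (by rw [hqe]; ring) (by omega) (by omega))
          (ediv_of (r := e - 2) (by rw [hpe]; ring) (by omega) (by omega)) (by omega) ?_ (by omega)
          ?_ ?_ ?_ (by omega) (by omega) ?_ (by omega) (by omega)
        · rw [ediv_of (c := a + C) (r := e - 3) (by rw [hqe, hpe]; ring) (by omega) (by omega)]
          omega
        · have h1 : (e : ℤ) * (p - (a + m + W)) ≤ e * (a - 1) :=
            mul_le_mul_of_nonneg_left (by omega) he0.le
          have h2 : (e : ℤ) * (p - (a + m + W)) * q ≤ (p + 1 - e) * q := by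
            apply mul_le_mul_of_nonneg_right _ hq0.le
            have : (e : ℤ) * (a - 1) = e * a - e := by ring
            omega
          have h3 : ((p : ℤ) + 1 - e) * q = p * q + q - e * q := by ring
          have h4 : (3 : ℤ) * q ≤ e * q := mul_le_mul_of_nonneg_right he' hq0.le
          omega
        · have := dvd_add hdi (dvd_mul_right (p : ℤ) q)
          rwa [show C + i - (- -1 * (a + m) + 1 * (e * m) * i) * q + p * q =
            C + i + (p - (a + m + W)) * q by rw [hW]; ring] at this
        · rwa [show C - (- -1 * (a + m)) * q = C - (a + m) * q by ring] at i0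
        · rwa [show a + 1 * -1 * m * q = a - m * q by ring] at idxa
    · -- `s = -1`
      have hdi := idxC 1
      refine hf.killI (ρ := 1) (x := C) (y := a) (D := C + 1) (δ := a + m - e * m)
        (j2 := a + m) (j3 := p - m) (by omega) hpq (by omega) cpq ce (by omega) (by omega)
        (ediv_of (r := 2) (by rw [hqe]; ring) (by omega) (by omega))
        (ediv_of (r := 0) (by rw [hpe]; ring) (by omega) (by omega)) (by omega) ?_ (by omega)
        ?_ ?_ ?_ (by omega) (by omega) ?_ (by omega) (by omega)
      · rw [ediv_of (c := a + C) (r := 1) (by rw [hqe, hpe]; ring) (by omega) (by omega)]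
        omega
      · have : (e : ℤ) * (a + m - e * m) ≤ e * (a - 1) :=
          mul_le_mul_of_nonneg_left (by omega) he0.le
        have : (e : ℤ) * (a - 1) = e * a - e := by ring
        omega
      · rwa [show C + 1 - (- -1 * (a + m) + -1 * (e * m) * 1) * q =
          C + 1 - (a + m - e * m) * q by ring] at hdi
      · rwa [show C - (- -1 * (a + m)) * q = C - (a + m) * q by ring] at i0
      · have := dvd_sub idxa (dvd_mul_right (p : ℤ) q)
        rwa [show a + -1 * -1 * m * q - p * q = a - (p - m) * q by ring] at this

end

end Pool.Agent.H67.Flat
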