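import Pool.Agent.H67.Gen.Fam

/-!
# The explicit families `p ≡ ± 1 [e]`, continued
-/

namespace Pool.Agent.H67.Flat

variable {p q e : ℕ}

section

variable (hf : HFlat p q e) (hpq : p < q) (he : 3 ≤ e) (hep : e < p)
  (cpq : IsCoprime (p : ℤ) (q : ℤ)) (ce : IsCoprime (e : ℤ) ((p : ℤ) * q))

include hf hpq he hep cpq ce

theorem fam3A {a μ C ε s w : ℤ} (hε : ε = 1 ∨ ε = -1) (hs : s = 1 ∨ s = -1)
    (hpe : (p : ℤ) = e * a + ε) (hqe : (q : ℤ) = e * C - s * ε) (hμ : 1 ≤ μ)
    (hwe : w = e * μ - ε) (hw : w * (e - 1) < p) (hg : (p : ℤ) ∣ s * w * q - 1) : False := by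
  have he' : (3 : ℤ) ≤ e := by exact_mod_cast he
  have he0 : (0 : ℤ) < e := by omega
  have hpq' : (p : ℤ) < q := by exact_mod_cast hpq
  have hep' : (e : ℤ) < p := by exact_mod_cast hep
  have hq0 : (0 : ℤ) < q := by omega
  have cep : IsCoprime (p : ℤ) (e : ℤ) := ce.of_mul_right_left.symm
  have hε2 : ε * ε = 1 := by rcases hε with rfl | rfl <;> norm_num
  have hs2 : s * s = 1 := by rcases hs with rfl | rfl <;> norm_num
  obtain ⟨c, hc⟩ := hg
  have idxC : ∀ i : ℤ, (p : ℤ) ∣ (C + i) - (ε * μ + s * w * i) * q := by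
    intro i
    refine cep.dvd_of_dvd_mul_left (y := (e : ℤ)) ⟨-(ε * s + e * i) * c, ?_⟩
    linear_combination -hqe - (ε * s + e * i) * hc + (ε * q) * hwe + (ε * w * q) * hs2 - q * hε2
  have idxa : (p : ℤ) ∣ a + s * ε * (μ + a) * q := by
    refine cep.dvd_of_dvd_mul_left (y := (e : ℤ)) ⟨1 + s * ε * q + ε * c, ?_⟩
    linear_combination -hpe + ε * hc - (s * ε * q) * hpe - (s * ε * q) * hwe
  have i0 := idxC 0
  simp only [add_zero, mul_zero] at i0
  have eμ : (e : ℤ) ≤ e * μ := by
    have : (e : ℤ) * 1 ≤ e * μ := mul_le_mul_of_nonneg_left hμ he0.le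
    omega
  have e3μ : 3 * μ ≤ e * μ := mul_le_mul_of_nonneg_right he' (by omega)
  have eμ1 : (e : ℤ) * μ = (e - 1) * μ + μ := by ring
  have e2w : w * 2 ≤ w * (e - 1) := mul_le_mul_of_nonneg_left (by omega) (by omega)
  rcases hε with rfl | rfl
  · -- `ε = 1`
    have hm1 : ((e : ℤ) - 1) * μ ≤ a := by
      apply le_of_mul_lt he0
      have : (e : ℤ) * ((e - 1) * μ) = (w + 1) * (e - 1) := by rw [hwe]; ring
      have : (w + 1) * ((e : ℤ) - 1) = w * (e - 1) + e - 1 := by ring
      omega
    have ha3 : 3 * a ≤ e * a := mul_le_mul_of_nonneg_right he' (by omega)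
    rcases hs with rfl | rfl
    · -- `s = 1`
      have im := idxC (-1)
      refine hf.killI (ρ := 0) (x := C - 1) (y := a) (D := C) (δ := μ)
        (j2 := p + μ - w) (j3 := p - μ - a) (by omega) hpq (by omega) cpq ce (by omega) (by omega)
        (ediv_of (r := e - 1) (by rw [hqe]; ring) (by omega) (by omega))
        (ediv_of (r := 1) (by rw [hpe]; ring) (by omega) (by omega)) (by omega) ?_ hμ
        ?_ ?_ ?_ (by omega) (by omega) ?_ (by omega) (by omega)
      · rw [ediv_of (c := a + C) (r := 0) (by rw [hqe, hpe]; ring) (by omega) (by omega)]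
        omega
      · have : (e : ℤ) * μ ≤ e * a := mul_le_mul_of_nonneg_left (by omega) he0.le
        omega
      · rwa [show C - 1 * μ * q = C - μ * q by ring] at i0
      · have := dvd_sub im (dvd_mul_right (p : ℤ) q)
        rwa [show C + -1 - (1 * μ + 1 * w * -1) * q - p * q = C - 1 - (p + μ - w) * q by ring] at this
      · have := dvd_sub idxa (dvd_mul_right (p : ℤ) q)
        rwa [show a + 1 * 1 * (μ + a) * q - p * q = a - (p - μ - a) * q by ring] at this
    · -- `s = -1`
      have hdi := idxC 1
      refine hf.killII (ρ := e - 2) (x := C) (y := a) (D := C + 1) (d := w - μ)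
        (j2 := μ) (j3 := μ + a) (by omega) hpq (by omega) cpq ce (by omega) (by omega)
        hep' (ediv_of (r := e - 1) (by rw [hqe]; ring) (by omega) (by omega))
        (ediv_of (r := e - 1) (by rw [hpe]; ring) (by omega) (by omega)) (by omega) ?_ (by omega)
        ?_ ?_ ?_ (by omega) (by omega) ?_ (by omega) (by omega)
      · rw [ediv_of (c := a + C + 1) (r := 0) (by rw [hqe, hpe]; ring) (by omega) (by omega)]
        omega
      · have h1 : (e : ℤ) * (w - μ) ≤ e * (a - 1) :=
          mul_le_mul_of_nonneg_left (by omega) he0.le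
        have h2 : (e : ℤ) * (w - μ) * q ≤ (p - 1 - e) * q := by
          apply mul_le_mul_of_nonneg_right _ hq0.le
          have : (e : ℤ) * (a - 1) = e * a - e := by ring
          omega
        have h3 : ((p : ℤ) - 1 - e) * q = p * q - q - e * q := by ring
        have h4 : (3 : ℤ) * q ≤ e * q := mul_le_mul_of_nonneg_right he' hq0.le
        omega
      · rwa [show C + 1 - (1 * μ + -1 * w * 1) * q = C + 1 + (w - μ) * q by ring] at hdi
      · rwa [show C - 1 * μ * q = C - μ * q by ring] at i0
      · rwa [show a + -1 * 1 * (μ + a) * q = a - (μ + a) * q by ring] at idxa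
  · -- `ε = -1`
    have hm1 : ((e : ℤ) - 1) * μ ≤ a - 2 := by
      apply le_of_mul_lt he0
      have : (e : ℤ) * ((e - 1) * μ) = (w - 1) * (e - 1) := by rw [hwe]; ring
      have : (w - 1) * ((e : ℤ) - 1) = w * (e - 1) - e + 1 := by ring
      have : (e : ℤ) * (a - 2) = e * a - 2 * e := by ring
      omega
    have ha3 : 3 * a ≤ e * a := mul_le_mul_of_nonneg_right he' (by omega)
    rcases hs with rfl | rfl
    · -- `s = 1`
      have hdi := idxC 1
      refine hf.killI (ρ := 1) (x := C) (y := a) (D := C + 1) (δ := w - μ)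
        (j2 := p - μ) (j3 := μ + a) (by omega) hpq (by omega) cpq ce (by omega) (by omega)
        (ediv_of (r := 2) (by rw [hqe]; ring) (by omega) (by omega))
        (ediv_of (r := 0) (by rw [hpe]; ring) (by omega) (by omega)) (by omega) ?_ (by omega)
        ?_ ?_ ?_ (by omega) (by omega) ?_ (by omega) (by omega)
      · rw [ediv_of (c := a + C) (r := 1) (by rw [hqe, hpe]; ring) (by omega) (by omega)]
        omega
      · have : (e : ℤ) * (w - μ) ≤ e * (a - 1) :=
          mul_le_mul_of_nonneg_left (by omega) he0.le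
        have : (e : ℤ) * (a - 1) = e * a - e := by ring
        omega
      · rwa [show C + 1 - (-1 * μ + 1 * w * 1) * q = C + 1 - (w - μ) * q by ring] at hdi
      · have := dvd_sub i0 (dvd_mul_right (p : ℤ) q)
        rwa [show C - -1 * μ * q - p * q = C - (p - μ) * q by ring] at this
      · rwa [show a + 1 * -1 * (μ + a) * q = a - (μ + a) * q by ring] at idxa
    · -- `s = -1`
      obtain ⟨i, hi1, hi2⟩ := exists_ceil (p - μ - a + 1) (by omega : 0 < w)
      have hi0 : 1 ≤ i := by
        by_contra hcon
        have : w * i ≤ w * 0 := mul_le_mul_of_nonneg_left (by omega) (by omega)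
        omega
      have hia : i ≤ a := by
        by_contra hcon
        have h1 : w * (a + 1) ≤ w * i := mul_le_mul_of_nonneg_left (by omega) (by omega)
        have h2 : (e : ℤ) * a ≤ w * a := mul_le_mul_of_nonneg_right (by omega) (by omega)
        have h3 : w * (a + 1) = w * a + w := by ring
        omega
      have hdi := idxC i
      set W := w * i with hW
      rcases le_or_gt 1 (p - μ - W) with ht | ht
      · refine hf.killI (ρ := e - 1) (x := C) (y := a) (D := C + i) (δ := p - μ - W)
          (j2 := p - μ) (j3 := p - μ - a) (by omega) hpq (by omega) cpq ce (by omega) (by omega)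
          (ediv_of (r := e - 2) (by rw [hqe]; ring) (by omega) (by omega))
          (ediv_of (r := e - 2) (by rw [hpe]; ring) (by omega) (by omega)) (by omega) ?_ ht ?_ ?_ ?_
          (by omega) (by omega) ?_ (by omega) (by omega)
        · rw [ediv_of (c := a + C) (r := e - 3) (by rw [hqe, hpe]; ring) (by omega) (by omega)]
          omega
        · have : (e : ℤ) * (p - μ - W) ≤ e * (a - 1) :=
            mul_le_mul_of_nonneg_left (by omega) he0.le
          have : (e : ℤ) * (a - 1) = e * a - e := by ring
          omega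
        · have := dvd_sub hdi (dvd_mul_right (p : ℤ) q)
          rwa [show C + i - (-1 * μ + -1 * w * i) * q - p * q =
            C + i - (p - μ - W) * q by rw [hW]; ring] at this
        · have := dvd_sub i0 (dvd_mul_right (p : ℤ) q)
          rwa [show C - -1 * μ * q - p * q = C - (p - μ) * q by ring] at this
        · have := dvd_sub idxa (dvd_mul_right (p : ℤ) q)
          rwa [show a + -1 * -1 * (μ + a) * q - p * q = a - (p - μ - a) * q by ring] at this
      · refine hf.killII (ρ := e - 1) (x := C) (y := a) (D := C + i) (d := μ + W - p)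
          (j2 := p - μ) (j3 := p - μ - a) (by omega) hpq (by omega) cpq ce (by omega) (by omega)
          hep' (ediv_of (r := e - 2) (by rw [hqe]; ring) (by omega) (by omega))
          (ediv_of (r := e - 2) (by rw [hpe]; ring) (by omega) (by omega)) (by omega) ?_ (by omega)
          ?_ ?_ ?_ (by omega) (by omega) ?_ (by omega) (by omega)
        · rw [ediv_of (c := a + C) (r := e - 3) (by rw [hqe, hpe]; ring) (by omega) (by omega)]
          omega
        · have h1 : (e : ℤ) * (μ + W - p) ≤ e * (μ - 1) :=
            mul_le_mul_of_nonneg_left (by omega) he0.le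
          have h2 : (e : ℤ) * (μ + W - p) * q ≤ (p - 4) * q := by
            apply mul_le_mul_of_nonneg_right _ hq0.le
            have : (e : ℤ) * (μ - 1) = e * μ - e := by ring
            omega
          have h3 : ((p : ℤ) - 4) * q = p * q - 4 * q := by ring
          omega
        · have := dvd_sub hdi (dvd_mul_right (p : ℤ) q)
          rwa [show C + i - (-1 * μ + -1 * w * i) * q - p * q =
            C + i + (μ + W - p) * q by rw [hW]; ring] at this
        · have := dvd_sub i0 (dvd_mul_right (p : ℤ) q)
          rwa [show C - -1 * μ * q - p * q = C - (p - μ) * q by ring] at this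
        · have := dvd_sub idxa (dvd_mul_right (p : ℤ) q)
          rwa [show a + -1 * -1 * (μ + a) * q - p * q = a - (p - μ - a) * q by ring] at this

theorem fam2 {K t l s : ℤ} (hs : s = 1 ∨ s = -1) (hK : 2 ≤ K) (hKe : K < e) (ht : 1 ≤ t)
    (hpe : (p : ℤ) = 1 + e * (K * t)) (hqe : (q : ℤ) = s * K + e * p * l) : False := by
  have he' : (3 : ℤ) ≤ e := by exact_mod_cast he
  have he0 : (0 : ℤ) < e := by omega
  have hpq' : (p : ℤ) < q := by exact_mod_cast hpq
  have hep' : (e : ℤ) < p := by exact_mod_cast hep
  have hq0 : (0 : ℤ) < q := by omega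
  have h2t : 2 * t ≤ K * t := mul_le_mul_of_nonneg_right hK (by omega)
  have het : 3 * t ≤ e * t := mul_le_mul_of_nonneg_right he' (by omega)
  have h2et : 2 * (e * t) ≤ (e : ℤ) * (K * t) := by
    have : (e : ℤ) * (2 * t) ≤ e * (K * t) := mul_le_mul_of_nonneg_left h2t he0.le
    have : (e : ℤ) * (2 * t) = 2 * (e * t) := by ring
    omega
  rcases hs with rfl | rfl
  · refine hf.killI (ρ := e - K) (x := p * l + 1) (y := K * t) (D := p * l + K * t) (δ := t)
      (j2 := p - e * t) (j3 := t) (by omega) hpq (by omega) cpq ce (by omega) (by omega)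
      (ediv_of (r := 0) (by rw [hqe]; ring) (by omega) (by omega))
      (ediv_of (r := 1 + e - K) (by rw [hpe]; ring) (by omega) (by omega)) (by omega) ?_ ht
      ?_ ?_ ?_ (by omega) (by omega) ?_ (by omega) (by omega)
    · rw [ediv_of (c := p * l + K * t + 1) (r := 1) (by rw [hqe]; linear_combination hpe)
        (by omega) (by omega)]
      omega
    · have : (e : ℤ) * t ≤ e * (K * t) := mul_le_mul_of_nonneg_left (by omega) he0.le
      omega
    · exact ⟨l - t * e * l, by rw [hqe]; ring⟩
    · refine ⟨l + 1 - q + e * t * e * l, ?_⟩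
      linear_combination (e * t) * hqe - hpe
    · exact ⟨-(t * e * l), by rw [hqe]; ring⟩
  · refine hf.killII (ρ := 0) (x := p * l - 1) (y := K * t) (D := p * l) (d := 0)
      (j2 := p - e * t) (j3 := p - t) (by omega) hpq (by omega) cpq ce (by omega) (by omega)
      hep' (ediv_of (r := e - K) (by rw [hqe]; ring) (by omega) (by omega))
      (ediv_of (r := 1) (by rw [hpe]; ring) (by omega) (by omega)) (by omega) ?_ le_rfl
      ?_ ?_ ?_ (by omega) (by omega) ?_ (by omega) (by omega)
    · rw [ediv_of (c := p * l + K * t - 1) (r := e + 1 - K)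
        (by rw [hqe]; linear_combination hpe) (by omega) (by omega)]
      omega
    · have : (4 : ℤ) * q ≤ p * q := mul_le_mul_of_nonneg_right (by omega) hq0.le
      rw [mul_zero, zero_mul]
      omega
    · rw [zero_mul, add_zero]; exact dvd_mul_right _ _
    · refine ⟨l - 1 - q + 1 + (e * t * e * l) - 1, ?_⟩
      linear_combination (e * t) * hqe + hpe
    · refine ⟨-q + t * e * l, ?_⟩
      linear_combination t * hqe

end

/-- the case `e = 2` -/
theorem fam_two (hf : HFlat p q 2) (hpq : p < q) (hp5 : 5 ≤ p)
    (cpq : IsCoprime (p : ℤ) (q : ℤ)) (ce : IsCoprime (2 : ℤ) ((p : ℤ) * q))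
    {a m C s : ℤ} (hs : s = 1 ∨ s = -1)
    (hpe : (p : ℤ) = 2 * a + 1) (hqe : (q : ℤ) = 2 * C + 1) (hm : 1 ≤ m)
    (hm2 : m ≤ a - 1) (hg : (p : ℤ) ∣ s * (2 * m) * q - 1) : False := by
  have hf' : HFlat p q ((2 : ℕ) : ℤ) := by exact_mod_cast hf
  have ce' : IsCoprime ((2 : ℕ) : ℤ) ((p : ℤ) * q) := by exact_mod_cast ce
  have hpq' : (p : ℤ) < q := by exact_mod_cast hpq
  have hq0 : (0 : ℤ) < q := by omega
  have cep : IsCoprime (p : ℤ) (2 : ℤ) := ce.of_mul_right_left.symm
  obtain ⟨c, hc⟩ := hg
  have c2 : ((2 : ℕ) : ℤ) = 2 := by norm_num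
  rcases hs with rfl | rfl
  · -- `s = 1`
    have idxC : ∀ i : ℤ, (p : ℤ) ∣ (C + i) - (a + 1 - m + 2 * m * i) * q := by
      intro i
      refine cep.dvd_of_dvd_mul_left (y := (2 : ℤ)) ⟨(1 - 2 * i) * c - q, ?_⟩
      linear_combination -hqe + (1 - 2 * i) * hc + q * hpe
    have idxa : (p : ℤ) ∣ a + m * q := by
      refine cep.dvd_of_dvd_mul_left (y := (2 : ℤ)) ⟨1 + c, ?_⟩
      linear_combination -hpe + hc
    have i0 := idxC 0
    simp only [add_zero, mul_zero] at i0
    have ja := dvd_sub idxa (dvd_mul_right (p : ℤ) q)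
    rw [show a + m * q - p * q = a - (p - m) * q by ring] at ja
    rcases le_or_gt (2 * m) a with h2 | h2
    · obtain ⟨i, hi1, hi2⟩ := exists_ceil (a + 1) (by omega : 0 < 2 * m)
      have hi0 : 1 ≤ i := by
        by_contra hcon
        have : 2 * m * i ≤ 2 * m * 0 := mul_le_mul_of_nonneg_left (by omega) (by omega)
        omega
      have hia : i ≤ a + 1 := by
        by_contra hcon
        have h1 : 2 * m * (a + 2) ≤ 2 * m * i := mul_le_mul_of_nonneg_left (by omega) (by omega)
        have h2 : 2 * m * (a + 2) = 2 * m * a + 4 * m := by ring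
        have h3 : 2 * a ≤ 2 * m * a := mul_le_mul_of_nonneg_right (by omega) (by omega)
        omega
      have hdi := idxC i
      set W := 2 * m * i with hW
      rcases le_or_gt 1 (a + 1 - m + W - p) with ht | ht
      · refine hf'.killI (ρ := 0) (x := C) (y := a) (D := C + i) (δ := a + 1 - m + W - p)
          (j2 := a + 1 - m) (j3 := p - m) (by omega) hpq (by omega) cpq ce' (by omega) (by omega)
          (ediv_of (r := 1) (by rw [hqe, c2]; ring) (by omega) (by omega))
          (ediv_of (r := 1) (by rw [hpe, c2]; ring) (by omega) (by omega)) (by omega) ?_ ht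
          (by omega) ?_ i0 (by omega) (by omega) ja (by omega) (by omega)
        · rw [ediv_of (c := a + C + 1) (r := 0) (by rw [hqe, hpe, c2]; ring) (by omega) (by omega)]
          omega
        · have := dvd_add hdi (dvd_mul_right (p : ℤ) q)
          rwa [show C + i - (a + 1 - m + W) * q + p * q = C + i - (a + 1 - m + W - p) * q by
            ring] at this
      · refine hf'.killII (ρ := 0) (x := C) (y := a) (D := C + i) (d := p - (a + 1 - m + W))
          (j2 := a + 1 - m) (j3 := p - m) (by omega) hpq (by omega) cpq ce' (by omega) (by omega)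
          (by omega) (ediv_of (r := 1) (by rw [hqe, c2]; ring) (by omega) (by omega))
          (ediv_of (r := 1) (by rw [hpe, c2]; ring) (by omega) (by omega)) (by omega) ?_ (by omega)
          ?_ ?_ i0 (by omega) (by omega) ja (by omega) (by omega)
        · rw [ediv_of (c := a + C + 1) (r := 0) (by rw [hqe, hpe, c2]; ring) (by omega) (by omega)]
          omega
        · have h2 : ((2 : ℕ) : ℤ) * (p - (a + 1 - m + W)) * q ≤ (p - 2) * q := by
            apply mul_le_mul_of_nonneg_right _ hq0.le
            omega
          have h3 : ((p : ℤ) - 2) * q = p * q - 2 * q := by ring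
          omega
        · have := dvd_add hdi (dvd_mul_right (p : ℤ) q)
          rwa [show C + i - (a + 1 - m + W) * q + p * q = C + i + (p - (a + 1 - m + W)) * q by
            ring] at this
    · have hdi := idxC 1
      refine hf'.killII (ρ := 0) (x := C) (y := a) (D := C + 1) (d := a - m)
        (j2 := a + 1 - m) (j3 := p - m) (by omega) hpq (by omega) cpq ce' (by omega) (by omega)
        (by omega) (ediv_of (r := 1) (by rw [hqe, c2]; ring) (by omega) (by omega))
        (ediv_of (r := 1) (by rw [hpe, c2]; ring) (by omega) (by omega)) (by omega) ?_ (by omega)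
        ?_ ?_ i0 (by omega) (by omega) ja (by omega) (by omega)
      · rw [ediv_of (c := a + C + 1) (r := 0) (by rw [hqe, hpe, c2]; ring) (by omega) (by omega)]
        omega
      · have h2 : ((2 : ℕ) : ℤ) * (a - m) * q ≤ (p - 3) * q := by
          apply mul_le_mul_of_nonneg_right _ hq0.le
          omega
        have h3 : ((p : ℤ) - 3) * q = p * q - 3 * q := by ring
        omega
      · have := dvd_add hdi (dvd_mul_right (p : ℤ) q)
        rwa [show C + 1 - (a + 1 - m + 2 * m * 1) * q + p * q = C + 1 + (a - m) * q by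
          rw [hpe]; ring] at this
  · -- `s = -1`
    have idxC : ∀ i : ℤ, (p : ℤ) ∣ (C + i) - (m + a + 1 - 2 * m * i) * q := by
      intro i
      refine cep.dvd_of_dvd_mul_left (y := (2 : ℤ)) ⟨(1 - 2 * i) * c - q, ?_⟩
      linear_combination -hqe + (1 - 2 * i) * hc + q * hpe
    have idxa : (p : ℤ) ∣ a - m * q := by
      refine cep.dvd_of_dvd_mul_left (y := (2 : ℤ)) ⟨1 + c, ?_⟩
      linear_combination -hpe + hc
    have i0 := idxC 0
    simp only [add_zero, mul_zero, sub_zero] at i0
    rcases le_or_gt (2 * m) a with h2 | h2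
    · obtain ⟨i, hi1, hi2⟩ := exists_ceil (a + 1) (by omega : 0 < 2 * m)
      have hi0 : 1 ≤ i := by
        by_contra hcon
        have : 2 * m * i ≤ 2 * m * 0 := mul_le_mul_of_nonneg_left (by omega) (by omega)
        omega
      have hia : i ≤ a + 1 := by
        by_contra hcon
        have h1 : 2 * m * (a + 2) ≤ 2 * m * i := mul_le_mul_of_nonneg_left (by omega) (by omega)
        have h2 : 2 * m * (a + 2) = 2 * m * a + 4 * m := by ring
        have h3 : 2 * a ≤ 2 * m * a := mul_le_mul_of_nonneg_right (by omega) (by omega)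
        omega
      have hdi := idxC i
      set W := 2 * m * i with hW
      rcases le_or_gt 1 (m + a + 1 - W) with ht | ht
      · refine hf'.killI (ρ := 0) (x := C) (y := a) (D := C + i) (δ := m + a + 1 - W)
          (j2 := m + a + 1) (j3 := m) (by omega) hpq (by omega) cpq ce' (by omega) (by omega)
          (ediv_of (r := 1) (by rw [hqe, c2]; ring) (by omega) (by omega))
          (ediv_of (r := 1) (by rw [hpe, c2]; ring) (by omega) (by omega)) (by omega) ?_ ht
          (by omega) hdi i0 (by omega) (by omega) idxa (by omega) (by omega)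
        rw [ediv_of (c := a + C + 1) (r := 0) (by rw [hqe, hpe, c2]; ring) (by omega) (by omega)]
        omega
      · refine hf'.killII (ρ := 0) (x := C) (y := a) (D := C + i) (d := W - (m + a + 1))
          (j2 := m + a + 1) (j3 := m) (by omega) hpq (by omega) cpq ce' (by omega) (by omega)
          (by omega) (ediv_of (r := 1) (by rw [hqe, c2]; ring) (by omega) (by omega))
          (ediv_of (r := 1) (by rw [hpe, c2]; ring) (by omega) (by omega)) (by omega) ?_ (by omega)
          ?_ ?_ i0 (by omega) (by omega) idxa (by omega) (by omega)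
        · rw [ediv_of (c := a + C + 1) (r := 0) (by rw [hqe, hpe, c2]; ring) (by omega) (by omega)]
          omega
        · have h2 : ((2 : ℕ) : ℤ) * (W - (m + a + 1)) * q ≤ (p - 2) * q := by
            apply mul_le_mul_of_nonneg_right _ hq0.le
            omega
          have h3 : ((p : ℤ) - 2) * q = p * q - 2 * q := by ring
          omega
        · rwa [show C + i - (m + a + 1 - W) * q = C + i + (W - (m + a + 1)) * q by ring] at hdi
    · have hdi := idxC 1
      refine hf'.killI (ρ := 0) (x := C) (y := a) (D := C + 1) (δ := a + 1 - m)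
        (j2 := m + a + 1) (j3 := m) (by omega) hpq (by omega) cpq ce' (by omega) (by omega)
        (ediv_of (r := 1) (by rw [hqe, c2]; ring) (by omega) (by omega))
        (ediv_of (r := 1) (by rw [hpe, c2]; ring) (by omega) (by omega)) (by omega) ?_ (by omega)
        (by omega) ?_ i0 (by omega) (by omega) idxa (by omega) (by omega)
      · rw [ediv_of (c := a + C + 1) (r := 0) (by rw [hqe, hpe, c2]; ring) (by omega) (by omega)]
        omega
      · rwa [show C + 1 - (m + a + 1 - 2 * m * 1) * q = C + 1 - (a + 1 - m) * q by ring] at hdi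

end Pool.Agent.H67.Flat
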