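import Pool.Agent.H67.Gen.Basic

/-!
# Windows below `p q` for `r = e < p`
-/

namespace Pool.Agent.H67.Flat

theorem sF_mem {p q lam z j : ℤ} (hp : 0 < p) (hlam : p ∣ lam * q - 1) (h0 : 0 ≤ j) (h1 : j < p)
    (hd : p ∣ z - j * q) (hz : j * q ≤ z) : sF p q lam z = 1 := by
  have e : (lam * z) % p = j := by
    obtain ⟨a, ha⟩ := hlam
    obtain ⟨b, hb⟩ := hd
    exact emod_eq_of (c := lam * b + a * j) (by linear_combination lam * hb + j * ha) h0 h1
  unfold sF
  rw [e, if_pos (by rwa [mul_comm])]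

theorem sF_nmem {p q lam z j : ℤ} (hp : 0 < p) (hlam : p ∣ lam * q - 1) (h0 : 0 ≤ j) (h1 : j < p)
    (hd : p ∣ z - j * q) (hz : z < j * q) : sF p q lam z = 0 := by
  have e : (lam * z) % p = j := by
    obtain ⟨a, ha⟩ := hlam
    obtain ⟨b, hb⟩ := hd
    exact emod_eq_of (c := lam * b + a * j) (by linear_combination lam * hb + j * ha) h0 h1
  unfold sF
  rw [e, if_neg (by rw [mul_comm]; omega)]

theorem tele {p q lam a b : ℤ} (hp : 0 < p) (hq : 0 < q) (hab : a ≤ b) (n : ℕ) :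
    ∑ j ∈ Finset.range n, aF p q lam j * (if a < (j : ℤ) ∧ (j : ℤ) ≤ b then 1 else 0) =
      sF p q lam (min b (n - 1)) - sF p q lam (min a (n - 1)) := by
  induction n with
  | zero =>
    rw [Finset.sum_range_zero, sF_neg hp hq (by simp), sF_neg hp hq (by simp), sub_zero]
  | succ n ih =>
    rw [Finset.sum_range_succ, ih]
    push_cast
    rw [add_sub_cancel_right]
    by_cases h1 : (n : ℤ) ≤ a
    · rw [if_neg (by omega), mul_zero, add_zero, min_eq_right (by omega : (n : ℤ) - 1 ≤ b),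
        min_eq_right (by omega : (n : ℤ) - 1 ≤ a), min_eq_right (by omega : (n : ℤ) ≤ b),
        min_eq_right h1, sub_self, sub_self]
    · by_cases h2 : (n : ℤ) ≤ b
      · rw [if_pos ⟨by omega, h2⟩, mul_one, min_eq_right (by omega : (n : ℤ) - 1 ≤ b),
          min_eq_left (by omega : a ≤ (n : ℤ) - 1), min_eq_right h2,
          min_eq_left (by omega : a ≤ (n : ℤ))]
        unfold aF
        ring
      · rw [if_neg (by omega), mul_zero, add_zero, min_eq_left (by omega : b ≤ (n : ℤ) - 1),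
          min_eq_left (by omega : a ≤ (n : ℤ) - 1), min_eq_left (by omega : b ≤ (n : ℤ)),
          min_eq_left (by omega : a ≤ (n : ℤ))]

theorem lt_iff_ediv {n e j : ℤ} (he : 0 < e) : n < e * j ↔ n / e < j := by
  rw [Int.ediv_lt_iff_lt_mul he, mul_comm]

theorem le_iff_ediv {n e j : ℤ} (he : 0 < e) : e * j ≤ n ↔ j ≤ n / e := by
  rw [Int.le_ediv_iff_mul_le he, mul_comm]

/-- the window inequality -/
theorem HFlat.window {p q e : ℕ} {lam n T : ℤ} (hf : HFlat p q e)
    (hp : 2 ≤ p) (hpq : p < q) (he : 0 < e)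
    (ce : IsCoprime (e : ℤ) ((p : ℤ) * q)) (hlam : (p : ℤ) ∣ lam * q - 1)
    (hn : n < p * q) (hT0 : 0 ≤ T) (hT : T ≤ n / e) (hT' : (n - p) / e ≤ T) :
    |sF p q lam T - sF p q lam ((n - p) / e) - sF p q lam ((n - q) / e) +
      sF p q lam ((n - p - q) / e)| ≤ 1 := by
  have hp' : (0 : ℤ) < p := by exact_mod_cast (by omega : 0 < p)
  have hq' : (0 : ℤ) < q := by exact_mod_cast (by omega : 0 < q)
  have he' : (0 : ℤ) < e := by exact_mod_cast he
  have hpq' : (p : ℤ) < q := by exact_mod_cast hpq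
  have h2q : (2 : ℤ) * q ≤ p * q := mul_le_mul_of_nonneg_right (by exact_mod_cast hp) hq'.le
  obtain ⟨x, y, hxy⟩ := ce
  have hb := hf lam hlam (x * n) T.toNat
  have key : HH p q lam e (x * n) T.toNat = sF p q lam T - sF p q lam ((n - p) / e) -
      sF p q lam ((n - q) / e) + sF p q lam ((n - p - q) / e) := by
    unfold HH
    have e1 : ∀ j ∈ Finset.range (T.toNat + 1), aF p q lam j * bF p q (e * (x * n - j)) =
        aF p q lam j * (if (n - p) / e < (j : ℤ) ∧ (j : ℤ) ≤ T then 1 else 0) -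
        aF p q lam j * (if (n - p - q) / e < (j : ℤ) ∧ (j : ℤ) ≤ (n - q) / e then 1 else 0) := by
      intro j hj
      rw [Finset.mem_range] at hj
      have hjT : (j : ℤ) ≤ T := by omega
      have hje : (e : ℤ) * j ≤ n := (le_iff_ediv he').2 (hjT.trans hT)
      have hj0 : 0 ≤ (e : ℤ) * j := by positivity
      rw [bF_congr (c := -(y * n)) (by linear_combination (n : ℤ) * hxy :
        (e : ℤ) * (x * n - j) = (n - e * j) + p * q * (-(y * n)))]
      rw [← mul_sub]
      congr 1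
      unfold bF
      rw [Int.emod_eq_of_lt (by omega) (by omega)]
      have c1 : (n - e * j < p) ↔ ((n - p) / e < (j : ℤ) ∧ (j : ℤ) ≤ T) := by
        rw [← lt_iff_ediv he']
        constructor
        · intro h; exact ⟨by omega, hjT⟩
        · rintro ⟨h, -⟩; omega
      have c2 : ((q : ℤ) ≤ n - e * j ∧ n - e * j < q + p) ↔
          ((n - p - q) / e < (j : ℤ) ∧ (j : ℤ) ≤ (n - q) / e) := by
        rw [← lt_iff_ediv he', ← le_iff_ediv he']
        constructor
        · rintro ⟨h1, h2⟩; exact ⟨by omega, by omega⟩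
        · rintro ⟨h1, h2⟩; exact ⟨by omega, by omega⟩
      simp only [c1, c2]
    rw [Finset.sum_congr rfl e1, Finset.sum_sub_distrib, tele hp' hq' hT', tele hp' hq'
      (Int.ediv_le_ediv he' (by omega))]
    push_cast
    rw [add_sub_cancel_right, Int.toNat_of_nonneg hT0, min_self, min_eq_left hT',
      min_eq_left ((Int.ediv_le_ediv he' (by omega)).trans hT'),
      min_eq_left ((Int.ediv_le_ediv he' (by omega)).trans hT')]
    ring
  rwa [key] at hb

/-- a violated window -/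
theorem HFlat.kill {p q e : ℕ} {lam n T : ℤ} (hf : HFlat p q e)
    (hp : 2 ≤ p) (hpq : p < q) (he : 0 < e)
    (ce : IsCoprime (e : ℤ) ((p : ℤ) * q)) (hlam : (p : ℤ) ∣ lam * q - 1)
    (hn : n < p * q) (hT0 : 0 ≤ T) (hT : T ≤ n / e) (hT' : (n - p) / e ≤ T)
    (h1 : sF p q lam T = 1) (h2 : sF p q lam ((n - p - q) / e) = 1)
    (h3 : sF p q lam ((n - p) / e) = 0) (h4 : sF p q lam ((n - q) / e) = 0) : False := by
  have := hf.window hp hpq he ce hlam hn hT0 hT hT'
  rw [h1, h2, h3, h4] at this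
  norm_num at this

variable {p q e : ℕ} {ρ x y D j2 j3 : ℤ}

/-- first type of violated windows -/
theorem HFlat.killI (hf : HFlat p q e) (hp : 2 ≤ p) (hpq : p < q) (he : 2 ≤ e)
    (cpq : IsCoprime (p : ℤ) (q : ℤ)) (ce : IsCoprime (e : ℤ) ((p : ℤ) * q))
    (hρ0 : 0 ≤ ρ) (hρ : ρ < e) (hx : (q + ρ) / e = x) (hy : (p + ρ) / e = y) (hD : x < D)
    (hD' : D ≤ (p + q + ρ) / e) {δ : ℤ} (hδ : 1 ≤ δ) (heδ : e * δ ≤ p - 1)
    (hDδ : (p : ℤ) ∣ D - δ * q)
    (h2 : (p : ℤ) ∣ x - j2 * q) (h2a : δ ≤ j2) (h2b : j2 < p)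
    (h3 : (p : ℤ) ∣ y - j3 * q) (h3a : δ ≤ j3) (h3b : j3 < p) : False := by
  have hp' : (0 : ℤ) < p := by exact_mod_cast (by omega : 0 < p)
  have hq' : (0 : ℤ) < q := by exact_mod_cast (by omega : 0 < q)
  have he' : (0 : ℤ) < e := by exact_mod_cast (by omega : 0 < e)
  have he2 : (2 : ℤ) ≤ e := by exact_mod_cast he
  have hpq' : (p : ℤ) < q := by exact_mod_cast hpq
  obtain ⟨lam, hlam⟩ : ∃ lam : ℤ, (p : ℤ) ∣ lam * q - 1 := by
    obtain ⟨x, y, hxy⟩ := cpq
    exact ⟨y, ⟨-x, by linear_combination hxy⟩⟩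
  obtain ⟨k, hk⟩ := hDδ
  -- `D ≤ q`
  have hDq : D ≤ q := by
    by_contra hcon
    have h1 : (e : ℤ) * D ≤ p + q + ρ := (le_iff_ediv he').2 hD'
    have h2 : (e : ℤ) * (q + 1) ≤ e * D := mul_le_mul_of_nonneg_left (by omega) he'.le
    have h3 : (2 : ℤ) * q ≤ e * q := mul_le_mul_of_nonneg_right he2 hq'.le
    have h4 : (e : ℤ) * (q + 1) = e * q + e := by ring
    omega
  have hδq : (q : ℤ) ≤ δ * q := by
    have : (1 : ℤ) * q ≤ δ * q := mul_le_mul_of_nonneg_right hδ hq'.le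
    omega
  have hk0 : k ≤ 0 := by
    by_contra hcon
    have : (p : ℤ) * 1 ≤ p * k := mul_le_mul_of_nonneg_left (by omega) hp'.le
    omega
  have hδp : δ < p := by
    have : (2 : ℤ) * δ ≤ e * δ := mul_le_mul_of_nonneg_right he2 (by omega)
    omega
  -- `s = - k p`
  set n : ℤ := e * (p * (-k)) + p + q + ρ with hn
  have n1 : (n - p - q) / e = p * (-k) := by
    rw [show n - p - q = ρ + e * (p * (-k)) by rw [hn]; ring, Int.add_mul_ediv_left _ _ he'.ne',
      Int.ediv_eq_zero_of_lt hρ0 hρ, zero_add]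
  have n2 : (n - p) / e = x + p * (-k) := by
    rw [show n - p = (q + ρ) + e * (p * (-k)) by rw [hn]; ring,
      Int.add_mul_ediv_left _ _ he'.ne', hx]
  have n3 : (n - q) / e = y + p * (-k) := by
    rw [show n - q = (p + ρ) + e * (p * (-k)) by rw [hn]; ring,
      Int.add_mul_ediv_left _ _ he'.ne', hy]
  have n4 : n / e = (p + q + ρ) / e + p * (-k) := by
    rw [show n = (p + q + ρ) + e * (p * (-k)) by rw [hn]; ring,
      Int.add_mul_ediv_left _ _ he'.ne']
  have hT : δ * q = D + p * (-k) := by linear_combination -hk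
  have hyx : y ≤ x := by
    rw [← hx, ← hy]
    exact Int.ediv_le_ediv he' (by omega)
  have hex : (q : ℤ) + ρ < e * (x + 1) := by
    rw [lt_iff_ediv he']; omega
  have hlt : n < p * q := by
    have h1 : (e : ℤ) * (x + 1) ≤ e * D := mul_le_mul_of_nonneg_left (by omega) he'.le
    have h2 : n = e * δ * q - e * D + p + q + ρ := by
      rw [hn]
      linear_combination (e : ℤ) * hk
    have h3 : (e : ℤ) * δ * q ≤ (p - 1) * q := mul_le_mul_of_nonneg_right heδ hq'.le
    have h4 : ((p : ℤ) - 1) * q = p * q - q := by ring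
    omega
  refine hf.kill (T := δ * q) hp hpq (by omega) ce hlam hlt (by omega) (by rw [n4]; omega)
    (by rw [n2]; omega) ?_ ?_ ?_ ?_
  · exact sF_mem hp' hlam (by omega) hδp (by rw [sub_self]; exact dvd_zero _) le_rfl
  · rw [n1]
    refine sF_mem hp' hlam le_rfl hp' (by rw [zero_mul, sub_zero]; exact dvd_mul_right _ _) ?_
    rw [zero_mul]
    exact mul_nonneg hp'.le (by omega)
  · rw [n2]
    refine sF_nmem hp' hlam (by omega) h2b ?_ ?_
    · rw [show x + p * -k - j2 * q = (x - j2 * q) + p * (-k) by ring]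
      exact dvd_add h2 (dvd_mul_right _ _)
    · have : δ * q ≤ j2 * q := mul_le_mul_of_nonneg_right h2a hq'.le
      omega
  · rw [n3]
    refine sF_nmem hp' hlam (by omega) h3b ?_ ?_
    · rw [show y + p * -k - j3 * q = (y - j3 * q) + p * (-k) by ring]
      exact dvd_add h3 (dvd_mul_right _ _)
    · have : δ * q ≤ j3 * q := mul_le_mul_of_nonneg_right h3a hq'.le
      omega

/-- second type of violated windows -/
theorem HFlat.killII (hf : HFlat p q e) (hp : 2 ≤ p) (hpq : p < q) (he : 2 ≤ e)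
    (cpq : IsCoprime (p : ℤ) (q : ℤ)) (ce : IsCoprime (e : ℤ) ((p : ℤ) * q))
    (hρ0 : 0 ≤ ρ) (hρ : ρ < e) (hep : (e : ℤ) < p) (hx : (q + ρ) / e = x) (hy : (p + ρ) / e = y)
    (hD : x < D) (hD' : D ≤ (p + q + ρ) / e) {d : ℤ} (hd : 0 ≤ d)
    (hn : e * d * q + p + q + ρ < p * q) (hDd : (p : ℤ) ∣ D + d * q)
    (h2 : (p : ℤ) ∣ x - j2 * q) (h2a : 1 ≤ j2) (h2b : j2 ≤ p - 1 - d)
    (h3 : (p : ℤ) ∣ y - j3 * q) (h3a : 1 ≤ j3) (h3b : j3 ≤ p - 1 - d) : False := by
  have hp' : (0 : ℤ) < p := by exact_mod_cast (by omega : 0 < p)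
  have hq' : (0 : ℤ) < q := by exact_mod_cast (by omega : 0 < q)
  have he' : (0 : ℤ) < e := by exact_mod_cast (by omega : 0 < e)
  have he2 : (2 : ℤ) ≤ e := by exact_mod_cast he
  have hpq' : (p : ℤ) < q := by exact_mod_cast hpq
  obtain ⟨lam, hlam⟩ : ∃ lam : ℤ, (p : ℤ) ∣ lam * q - 1 := by
    obtain ⟨x, y, hxy⟩ := cpq
    exact ⟨y, ⟨-x, by linear_combination hxy⟩⟩
  set n : ℤ := e * (d * q) + p + q + ρ with hn'
  have n1 : (n - p - q) / e = d * q := by
    rw [show n - p - q = ρ + e * (d * q) by rw [hn']; ring, Int.add_mul_ediv_left _ _ he'.ne',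
      Int.ediv_eq_zero_of_lt hρ0 hρ, zero_add]
  have n2 : (n - p) / e = x + d * q := by
    rw [show n - p = (q + ρ) + e * (d * q) by rw [hn']; ring,
      Int.add_mul_ediv_left _ _ he'.ne', hx]
  have n3 : (n - q) / e = y + d * q := by
    rw [show n - q = (p + ρ) + e * (d * q) by rw [hn']; ring,
      Int.add_mul_ediv_left _ _ he'.ne', hy]
  have n4 : n / e = (p + q + ρ) / e + d * q := by
    rw [show n = (p + q + ρ) + e * (d * q) by rw [hn']; ring,
      Int.add_mul_ediv_left _ _ he'.ne']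
  have hyx : y ≤ x := by
    rw [← hx, ← hy]
    exact Int.ediv_le_ediv he' (by omega)
  have hx0 : 0 ≤ x := by rw [← hx]; exact Int.ediv_nonneg (by omega) he'.le
  have hxq : x < q := by
    have h1 : (e : ℤ) * x ≤ q + ρ := (le_iff_ediv he').2 hx.ge
    by_contra hcon
    have h2 : (e : ℤ) * q ≤ e * x := mul_le_mul_of_nonneg_left (by omega) he'.le
    have h3 : (2 : ℤ) * q ≤ e * q := mul_le_mul_of_nonneg_right he2 hq'.le
    omega
  have hdq : 0 ≤ d * q := mul_nonneg hd hq'.le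
  have hlt : n < p * q := by
    have : n = e * d * q + p + q + ρ := by rw [hn']; ring
    omega
  refine hf.kill (T := D + d * q) hp hpq (by omega) ce hlam hlt (by omega) (by rw [n4]; omega)
    (by rw [n2]; omega) ?_ ?_ ?_ ?_
  · exact sF_mem hp' hlam le_rfl hp' (by rw [zero_mul, sub_zero]; exact hDd)
      (by rw [zero_mul]; omega)
  · rw [n1]
    exact sF_mem hp' hlam hd (by omega) (by rw [sub_self]; exact dvd_zero _) le_rfl
  · rw [n2]
    refine sF_nmem hp' hlam (j := d + j2) (by omega) (by omega) ?_ ?_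
    · rwa [show x + d * q - (d + j2) * q = x - j2 * q by ring]
    · have : (1 : ℤ) * q ≤ j2 * q := mul_le_mul_of_nonneg_right h2a hq'.le
      rw [add_mul]
      omega
  · rw [n3]
    refine sF_nmem hp' hlam (j := d + j3) (by omega) (by omega) ?_ ?_
    · rwa [show y + d * q - (d + j3) * q = y - j3 * q by ring]
    · have : (1 : ℤ) * q ≤ j3 * q := mul_le_mul_of_nonneg_right h3a hq'.le
      rw [add_mul]
      omega

end Pool.Agent.H67.Flat
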