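import Pool.Agent.H67.Gen.Norm
import Pool.Agent.H67.Gen.ApD
import Pool.Agent.H98.Flat.O.All
import Pool.Agent.H98.Flat.T.Far

/-!
# All cases except near ties, for arbitrary coprime moduli
-/

namespace Pool.Agent.H67.Flat

open Finset
open Pool.Agent.H98.Flat Pool.Agent.H78.Tie

theorem exists_twoG {C : Cfg} {u v : ℤ} (h : 2 ≤ C.R u v) :
    ∃ k k' : ℤ, ¬ (C.p : ℤ) ∣ k - k' ∧ C.In k u v ∧ C.In k' u v := by
  classical
  have hp' : (0 : ℤ) < C.p := by exact_mod_cast C.p_pos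
  by_contra hc
  push Not at hc
  obtain ⟨k0, hk0⟩ := C.exists_In (u := u) (v := v) (by omega)
  have : C.R u v ≤ 1 := by
    unfold Cfg.R
    have key : ∀ k ∈ range C.p, k ≠ (k0 % (C.p : ℤ)).toNat → C.hor k u * C.ver k v = 0 := by
      intro k hk hne
      by_contra hn
      have h1 : C.hor k u = 1 := by
        rcases C.hor01 k u with h | h
        · exact absurd (by rw [h, zero_mul]) hn
        · exact h
      have h2 : C.ver k v = 1 := by
        rcases C.ver01 k v with h | h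
        · exact absurd (by rw [h, mul_zero]) hn
        · exact h
      apply hc k0 k ?_ hk0 ⟨h1, h2⟩
      intro h3
      apply hne
      have hk := Finset.mem_range.1 hk
      have : k0 % (C.p : ℤ) = k := by
        rw [← Int.emod_eq_of_lt (a := (k : ℤ)) (b := C.p) (by omega) (by omega)]
        exact emod_congr h3
      omega
    have l0 := Int.emod_nonneg k0 hp'.ne'
    have l1 := Int.emod_lt_of_pos k0 hp'
    rw [Finset.sum_eq_single_of_mem _ (Finset.mem_range.2 (by omega)) key]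
    rcases C.hor01 ((k0 % (C.p : ℤ)).toNat : ℕ) u with h1 | h1 <;>
      rcases C.ver01 ((k0 % (C.p : ℤ)).toNat : ℕ) v with h2 | h2 <;> rw [h1, h2] <;> norm_num
  omega

/-- difference of two arcs of length `L` with a common point -/
theorem diff_rangeG {N a a' L x : ℤ} (hN : 0 < N) (h : (x - a) % N < L) (h' : (x - a') % N < L) :
    ∃ t, N ∣ (a' - a) - t ∧ -L < t ∧ t < L := by
  have l0 := Int.emod_nonneg (x - a) hN.ne'
  have l1 := Int.emod_nonneg (x - a') hN.ne'
  have e0 := Int.mul_ediv_add_emod (x - a) N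
  have e1 := Int.mul_ediv_add_emod (x - a') N
  refine ⟨(x - a) % N - (x - a') % N, ⟨(x - a) / N - (x - a') / N, ?_⟩, by omega, by omega⟩
  linear_combination e1 - e0

theorem ap_disj_leG {C : Cfg} (hp2 : 2 ≤ C.p) (hpq : C.p < C.q)
    (cw : IsCoprime (C.w : ℤ) (C.p : ℤ)) (ch : IsCoprime (C.h : ℤ) (C.p : ℤ))
    (hw : 2 ≤ C.w) (hwh : C.w ≤ C.h) (hP : 2 * C.h < C.p) (G : C.Gen) (hfl : C.IsFlat)
    (ap : APW C) : C.Disj := by
  obtain ⟨C0, a, δ, d, i, ep, eq, ew, eh, G0, F0, nap, -, -, hD⟩ :=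
    exists_normG hp2 hpq G hfl ap
  apply hD
  have hpq0 : C0.p < C0.q := by rw [ep, eq]; exact hpq
  have hN := C0.N_pos
  have h2p : 2 ≤ C0.p := by rw [ep]; exact hp2
  have hqpos : (0 : ℤ) < C0.q := by exact_mod_cast (by omega : 0 < C0.q)
  have hppos : (0 : ℤ) < C0.p := by exact_mod_cast (by omega : 0 < C0.p)
  -- inverse of δ
  obtain ⟨e', he'⟩ : ∃ e', (C0.p : ℤ) ∣ δ * e' - 1 := by
    obtain ⟨x, y, hxy⟩ := nap.hδ
    exact ⟨x, ⟨-y, by linear_combination hxy⟩⟩
  have hNe : C0.N = C0.p * C0.q := rfl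
  have d0 := nap.hd0
  have d1 := nap.hd1
  have fd0 := Int.emod_nonneg d hqpos.ne'
  have fd1 := Int.emod_lt_of_pos d hqpos
  have fde := Int.mul_ediv_add_emod d C0.q
  have fdne : d % (C0.q : ℤ) ≠ 0 := by
    intro h0
    have h1 : (C0.q : ℤ) ∣ d := Int.dvd_of_emod_eq_zero h0
    have h2 : (C0.q : ℤ) ∣ C0.p * a - d := by
      have := nap.hd
      rw [hNe] at this
      exact (dvd_mul_left _ _).trans this
    have h3 := dvd_add h2 h1
    rw [sub_add_cancel] at h3
    have h4 := nap.haq.dvd_of_dvd_mul_right h3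
    have := Int.le_of_dvd hppos h4
    omega
  have md0 : 0 ≤ d / C0.q := Int.ediv_nonneg d0.le hqpos.le
  have md1 : 2 * (d / C0.q) < C0.p := by
    have : C0.q * (d / C0.q) ≤ d := by omega
    nlinarith
  let A : Ap :=
    { p := C0.p, q := C0.q, w := C0.w, h := C0.h, a := a, e := δ, e' := e'
      md := d / C0.q
      fd := (d % C0.q).toNat
      hw := by rw [ew]; exact hw
      hwh := by rw [ew, eh]; exact hwh
      h2 := by rw [eh, ep]; exact hP
      inv := he'
      gen := by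
        intro i hi0 hi1 hdv
        have h1 := nap.haq.dvd_of_dvd_mul_left hdv
        apply hi0
        exact Int.eq_zero_of_abs_lt_dvd h1 (by omega)
      hmd := md0
      hmd2 := md1
      hfd := by omega
      hfd2 := by omega
      hd := by
        have e1 : ((d % (C0.q : ℤ)).toNat : ℤ) = d % C0.q := Int.toNat_of_nonneg fd0
        rw [e1, fde, mul_comm a]
        exact nap.hd
      cwp := by rw [ew, ep]; exact cw
      chp := by rw [eh, ep]; exact ch }
  have hik : ∀ k, i k = (e' * k) % (C0.p : ℤ) := by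
    intro k
    have h1 := nap.hi k
    rw [← Int.emod_eq_of_lt (a := i k) (b := C0.p) h1.1 h1.2]
    apply emod_congr
    obtain ⟨x, hx⟩ := nap.hik k
    obtain ⟨y, hy⟩ := he'
    exact ⟨-(e' * x) - i k * y, by linear_combination -e' * hx - i k * hy⟩
  have keyU : ∀ k, C0.N ∣ (A.cfg 0).U k - C0.U k := by
    intro k
    change C0.N ∣ a * (0 + (e' * k - 0) % (C0.p : ℤ)) - C0.U k
    rw [nap.hU, hik, zero_add, sub_zero, sub_self]
    exact dvd_zero _
  have F : A.Fl := wU_flat (C := C0) F0 (per' := (A.cfg 0).per) keyU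
  -- the overlap
  intro u v
  by_contra hR
  obtain ⟨k, k', hkk, h1, h2⟩ := exists_twoG (C := C0) (u := u) (v := v) (by omega)
  -- order the indices
  have ine : i k ≠ i k' := by
    intro h
    apply hkk
    have := dvd_sub (nap.hik k) (nap.hik k')
    rwa [h, sub_sub_sub_cancel_right] at this
  have main : ∀ k k' : ℤ, C0.In k u v → C0.In k' u v → i k < i k' → False := by
    intro k k' h1 h2 hlt
    obtain ⟨t, ht, t0, t1⟩ := diff_rangeG hN (ph_eq_one_iff.1 h1.1) (ph_eq_one_iff.1 h2.1)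
    obtain ⟨t', ht', t0', t1'⟩ := diff_rangeG hN (ph_eq_one_iff.1 h1.2) (ph_eq_one_iff.1 h2.2)
    rw [sub_sub_sub_cancel_right] at ht'
    have b1 := nap.hi k
    have b2 := nap.hi k'
    -- class `i k' - i k`
    set j := i k' - i k with hj
    have hWe : C0.W = C0.q * C0.w := rfl
    have hHe : C0.H = C0.q * C0.h := rfl
    -- lifts
    have f0 := Int.emod_nonneg t hqpos.ne'
    have f1 := Int.emod_lt_of_pos t hqpos
    have fe := Int.mul_ediv_add_emod t C0.q
    have aj : C0.N ∣ a * j - t := by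
      have := ht
      rwa [nap.hU, nap.hU, ← mul_sub] at this
    have fne : t % (C0.q : ℤ) ≠ 0 := by
      intro h0
      have h3 : (C0.q : ℤ) ∣ t := Int.dvd_of_emod_eq_zero h0
      have h4 : (C0.q : ℤ) ∣ a * j - t := by
        rw [hNe] at aj
        exact (dvd_mul_left _ _).trans aj
      have h5 := dvd_add h4 h3
      rw [sub_add_cancel] at h5
      exact A.gen j (by omega) (by rw [abs_of_pos (by omega)]; change j ≤ (C0.p : ℤ); omega) h5
    -- V difference: t' = t + q s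
    have hs : C0.N ∣ t' - t - C0.q * (k' - k) := by
      have := dvd_sub ht ht'
      rwa [show C0.U k' - C0.U k - t - (C0.V k' - C0.V k - t') = t' - t - C0.q * (k' - k) by
        unfold Cfg.V; ring] at this
    obtain ⟨z, hz⟩ := hs
    set s : ℤ := k' - k + C0.p * z with hsdef
    have hts : t' = t + C0.q * s := by
      rw [hsdef]
      rw [hNe] at hz
      linear_combination hz
    have m0 : -(C0.w : ℤ) ≤ t / C0.q := by
      rw [Int.le_ediv_iff_mul_le hqpos]
      rw [hWe] at t0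
      have : -(C0.w : ℤ) * C0.q = -(C0.q * C0.w) := by ring
      omega
    have m1 : t / C0.q ≤ (C0.w : ℤ) - 1 := by
      have : t / (C0.q : ℤ) < C0.w := by
        rw [Int.ediv_lt_iff_lt_mul hqpos, mul_comm]
        rw [hWe] at t1; exact t1
      omega
    have ets : t' / (C0.q : ℤ) = t / C0.q + s := by
      rw [hts, Int.add_mul_ediv_left _ _ hqpos.ne']
    have s0 : -(C0.h : ℤ) ≤ t / C0.q + s := by
      rw [← ets, Int.le_ediv_iff_mul_le hqpos]
      rw [hHe] at t0'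
      have : -(C0.h : ℤ) * C0.q = -(C0.q * C0.h) := by ring
      omega
    have s1 : t / C0.q + s ≤ (C0.h : ℤ) - 1 := by
      rw [← ets]
      have : t' / (C0.q : ℤ) < C0.h := by
        rw [Int.ediv_lt_iff_lt_mul hqpos, mul_comm]
        rw [hHe] at t1'; exact t1'
      omega
    have cls : A.Cls j (t / C0.q) (t % C0.q) s := by
      refine ⟨by omega, ?_, by omega, f1, ?_, ?_⟩
      · change j < (C0.p : ℤ); omega
      · change (C0.p : ℤ) * C0.q ∣ a * j - (C0.q * (t / C0.q) + t % C0.q)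
        rw [fe]; exact aj
      · change (C0.p : ℤ) ∣ δ * j - s
        have := dvd_sub (nap.hik k) (nap.hik k')
        rw [show k - δ * i k - (k' - δ * i k') = δ * j - (k' - k) by rw [hj]; ring] at this
        have := dvd_sub this (dvd_mul_right (C0.p : ℤ) z)
        rwa [show δ * j - (k' - k) - C0.p * z = δ * j - s by rw [hsdef]; ring] at this
    exact Ap.no_overlap_all F (i := j) (m := t / C0.q) (f := t % C0.q) (s := s)
      ⟨cls, m0, m1, s0, s1⟩
  rcases lt_or_gt_of_ne ine with h | h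
  · exact main k k' h1 h2 h
  · exact main k' k h2 h1 h

theorem APW.refl {C : Cfg} (h : APW C) : APW C.refl := by
  obtain ⟨a, c, δ, κ, i, h1, h2, h4, h5, h6⟩ := h
  refine ⟨-(a + C.q * δ), -(c + C.q * κ), δ, κ, i, h1, ?_, h4, h5, ?_⟩
  · obtain ⟨x, y, hxy⟩ := h2
    exact ⟨x - y * δ, -y, by
      change (x - y * δ) * (C.q : ℤ) + -y * -(a + C.q * δ) = 1
      linear_combination hxy⟩
  · intro k
    obtain ⟨x, hx⟩ := h6 k
    obtain ⟨y, hy⟩ := h5 k
    refine ⟨-x - y, ?_⟩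
    change - (C.U k + C.q * k) - _ = (C.p : ℤ) * C.q * _
    change _ = (C.p : ℤ) * C.q * x at hx
    linear_combination -hx - C.q * hy

/-- **(O)** for flat arithmetic progressions of rectangles -/
theorem ap_disjG {C : Cfg} (hp2 : 2 ≤ C.p) (hpq : C.p < C.q)
    (cw : IsCoprime (C.w : ℤ) (C.p : ℤ)) (ch : IsCoprime (C.h : ℤ) (C.p : ℤ))
    (hw : 2 ≤ C.w) (hh : 2 ≤ C.h) (hP1 : 2 * C.w < C.p) (hP : 2 * C.h < C.p) (G : C.Gen)
    (hfl : C.IsFlat) (ap : APW C) : C.Disj := by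
  rcases le_total C.w C.h with h | h
  · exact ap_disj_leG hp2 hpq cw ch hw h hP G hfl ap
  · have D := ap_disj_leG (C := C.refl) hp2 hpq ch cw hh h
      (by change 2 * C.w < C.p; omega) (C.gen_refl G) (C.flat_refl hfl) ap.refl
    intro u v
    have := D (-v - 1) (-u - 1)
    rwa [C.refl_R] at this

/-- a visibly flat progression has a near tie -/
theorem near_of_cfgG {C : Cfg} (hp2 : 2 ≤ C.p) (hpq : C.p < C.q)
    (cw : IsCoprime (C.w : ℤ) (C.p : ℤ)) (ch : IsCoprime (C.h : ℤ) (C.p : ℤ))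
    (hw0 : 2 ≤ C.w) (hh0 : 2 ≤ C.h) (hP1 : 2 * C.w < C.p) (hP : 2 * C.h < C.p) (G : C.Gen)
    (ap : APW C) (hk : C.Kind0 ∨ C.Kind1)
    (vis : ∀ x, (C.p : ℤ) ∣ x → ∀ v Y, |C.Fint x v Y| ≤ 1) :
    (C.Kind0 ∧ ∃ i j A, C.Near0 i j A) ∨ (C.Kind1 ∧ ∃ i j A, C.Near1 i j A) := by
  by_contra hcon
  rw [not_or] at hcon
  obtain ⟨n0, n1⟩ := hcon
  have hF' := C.Fint_all_far G (by omega) hk
    (fun k i j A hA => n0 ⟨k, i, j, A, hA⟩) (fun k i j A hA => n1 ⟨k, i, j, A, hA⟩) vis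
  have D : C.Disj := ap_disjG hp2 hpq cw ch hw0 hh0 hP1 hP G (C.flat_of_Fint hF') ap
  exact C.disjoint_not_flat' G D hF' hw0 hh0 (Nat.isCoprime_iff_coprime.1 cw)
    (Nat.isCoprime_iff_coprime.1 ch)

/-- a tie of `TAp` from a tie in a progression -/
theorem tie_ofG {A : TAp} {e x ρ : ℤ} (hρ : ρ = 1 ∨ ρ = -1) (he : e ≠ 0) (he2 : |e| < A.p)
    (h1 : (A.p : ℤ) * A.q ∣ ρ * A.a * e - (A.q * A.w + A.sg))
    (h2 : (A.p : ℤ) ∣ ρ * A.e * e - (x - A.w)) : ∃ T : A.Tie, T.x = x := by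
  rw [abs_lt] at he2
  have hρ2 : ρ * ρ = 1 := by rcases hρ with rfl | rfl <;> norm_num
  have hρ3 : -ρ = 1 ∨ -ρ = -1 := by rcases hρ with rfl | rfl <;> norm_num
  rcases lt_or_gt_of_ne he with h0 | h0
  · refine ⟨⟨-e, -ρ, x, by omega, by omega, hρ3, ?_, ?_⟩, rfl⟩
    · have := h1.mul_left (-ρ)
      rwa [show -ρ * (ρ * A.a * e - (A.q * A.w + A.sg))
        = A.a * -e - -ρ * (A.q * A.w + A.sg) by linear_combination (-A.a * e) * hρ2] at this
    · have := h2.mul_left (-ρ)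
      rwa [show -ρ * (ρ * A.e * e - (x - A.w))
        = A.e * -e - -ρ * (x - A.w) by linear_combination (-A.e * e) * hρ2] at this
  · refine ⟨⟨e, ρ, x, h0, by omega, hρ, ?_, ?_⟩, rfl⟩
    · have := h1.mul_left ρ
      rwa [show ρ * (ρ * A.a * e - (A.q * A.w + A.sg))
        = A.a * e - ρ * (A.q * A.w + A.sg) by linear_combination (A.a * e) * hρ2] at this
    · have := h2.mul_left ρ
      rwa [show ρ * (ρ * A.e * e - (x - A.w))
        = A.e * e - ρ * (x - A.w) by linear_combination (A.e * e) * hρ2] at this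

/-- **all cases except near ties**: a flat triple with `w, h ≥ 2` gives a
visibly flat progression with a near tie; if the offset of a tie is zero then `r ≡ ± t (mod pq)` -/
theorem HFlat.exists_tap_tie {p q r w h : ℕ} (hf : HFlat p q r) (hpq : p < q)
    (cr : IsCoprime (r : ℤ) ((p : ℤ) * q))
    (hw2 : 2 ≤ w) (hh2 : 2 ≤ h) (hwp : 2 * w < p) (hhp : 2 * h < p)
    (hw : (p : ℤ) ∣ w * q - 1 ∨ (p : ℤ) ∣ w * q + 1)
    (hh : (p : ℤ) ∣ h * r - 1 ∨ (p : ℤ) ∣ h * r + 1) :
    ∃ (A : TAp) (T : A.Tie), A.p = p ∧ A.q = q ∧ A.w = w ∧ A.h = h ∧ A.Fl ∧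
      |T.x| < A.h ∧
      (∀ T' : A.Tie, T'.x = 0 → (p : ℤ) * q ∣ r - T'.t ∨ (p : ℤ) * q ∣ r + T'.t) := by
  have cop : ∀ (x : ℕ) (y : ℤ), ((p : ℤ) ∣ x * y - 1 ∨ (p : ℤ) ∣ x * y + 1) →
      IsCoprime (x : ℤ) (p : ℤ) := by
    intro x y h
    rcases h with ⟨c, hc⟩ | ⟨c, hc⟩
    · exact ⟨y, -c, by linear_combination hc⟩
    · exact ⟨-y, c, by linear_combination -hc⟩
  have cw := cop w q hw
  have ch := cop h r hh
  obtain ⟨C, a, c, δ, κ, i, sg, u, ε, rfl, rfl, rfl, rfl, G, hpa, hqa, hδ, hi, hik, hU, hfl, hc,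
    hpw, hqe, hε, hur, hqu, hpu⟩ :=
    hf.apData (by omega) hpq cr (by omega : 0 < w) (by omega : 0 < h) (by omega) hw hh
  have hN := C.N_pos
  have hNe : C.N = C.p * C.q := rfl
  have hWe : C.W = C.q * C.w := rfl
  have hp' : (0 : ℤ) < C.p := by exact_mod_cast C.p_pos
  -- the kind
  have hUc : ∀ k, (C.p : ℤ) ∣ C.U k - c := by
    intro k
    rw [hU k, add_sub_cancel_left]
    exact hpa.mul_right _
  have hk : (sg = -1 ∧ C.Kind0) ∨ (sg = 1 ∧ C.Kind1) := by
    rcases hc with ⟨h1, h2⟩ | ⟨h1, h2⟩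
    · left
      refine ⟨h1, fun k => ?_, ?_⟩
      · have := dvd_add (hUc k) h2
        rwa [sub_add_cancel] at this
      · rw [h1] at hpw
        rwa [hWe]
    · right
      refine ⟨h1, fun k => ?_, ?_⟩
      · have := dvd_add (hUc k) h2
        rwa [show C.U k - c + (c - 1) = C.U k - 1 by ring] at this
      · rw [h1] at hpw
        rwa [hWe]
  have ap : APW C := ⟨a, c, δ, κ, i, hδ, hqa, hi, hik, fun k => by
    rw [hU k, sub_self]; exact dvd_zero _⟩
  -- the near tie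
  have near := near_of_cfgG (by omega) hpq cw ch hw2 hh2 hwp hhp G ap
    (hk.elim (fun h => Or.inl h.2) (fun h => Or.inr h.2)) hfl
  have kk : ¬ (C.Kind0 ∧ C.Kind1) := by
    rintro ⟨⟨_, k1⟩, ⟨_, k2⟩⟩
    have h3 := dvd_sub k2 k1
    rw [show C.W + 1 - (C.W - 1) = 2 by ring] at h3
    have := Int.le_of_dvd two_pos h3
    omega
  obtain ⟨k, j, x, t1, t2, t3, t4⟩ : ∃ k j x, C.N ∣ C.U j - (C.U k + C.W + sg) ∧
      (C.p : ℤ) ∣ C.w + j - k - x ∧ -(C.h : ℤ) ≤ x ∧ x ≤ C.h := by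
    rcases near with ⟨k0, k, j, x, t1, t2, t3, t4⟩ | ⟨k1, k, j, x, t1, t2, t3, t4⟩
    · rcases hk with ⟨e1, _⟩ | ⟨_, e2⟩
      · refine ⟨k, j, x, ?_, t2, by omega, by omega⟩
        rwa [e1, ← sub_eq_add_neg]
      · exact absurd ⟨k0, e2⟩ kk
    · rcases hk with ⟨_, e2⟩ | ⟨e1, _⟩
      · exact absurd ⟨e2, k1⟩ kk
      · refine ⟨k, j, x, ?_, t2, by omega, by omega⟩
        rwa [e1]
  have hsg : sg = 1 ∨ sg = -1 := by rcases hc with h | h <;> [right; left] <;> exact h.1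
  have hsg2 : sg * sg = 1 := by rcases hsg with rfl | rfl <;> norm_num
  set e := i j - i k with he
  have tie : (C.p : ℤ) * C.q ∣ a * e - (C.q * C.w + sg) := by
    rw [hU, hU] at t1
    rwa [show c + a * i j - (c + a * i k + C.W + sg) = a * e - (C.q * C.w + sg) by
      rw [he, hWe]; ring] at t1
  have row : (C.p : ℤ) ∣ δ * e - (x - C.w) := by
    obtain ⟨y1, hy1⟩ := hik j
    obtain ⟨y2, hy2⟩ := hik k
    obtain ⟨y3, hy3⟩ := t2
    exact ⟨y3 - y1 + y2, by rw [he]; linear_combination hy3 - hy1 + hy2⟩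
  have he0 : e ≠ 0 := by
    intro h0
    rw [h0, mul_zero, zero_sub, dvd_neg] at tie
    have h9 : (C.q : ℤ) ∣ C.q * C.w + sg := (dvd_mul_left _ _).trans tie
    have h10 : (C.q : ℤ) ∣ sg := (dvd_add_right (dvd_mul_right _ _)).1 h9
    have h11 : (C.q : ℤ) ∣ 1 := by rw [← hsg2]; exact h10.mul_right _
    have := Int.le_of_dvd one_pos h11
    omega
  have he2 : |e| < C.p := by
    have := hi j
    have := hi k
    rw [abs_lt]; constructor <;> omega
  have hodd : 2 * ((a * C.p) % C.N) ≠ C.N := by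
    intro hcon
    have h1 := Int.mul_ediv_add_emod (a * C.p) C.N
    have h2 : (C.q : ℤ) ∣ a * 2 := by
      refine ⟨2 * ((a * C.p) / C.N) + 1, mul_left_cancel₀ hp'.ne' ?_⟩
      linear_combination -2 * h1 + hcon + (2 * ((a * C.p) / C.N) + 1) * hNe
    have h3 := Int.le_of_dvd (by norm_num) (hqa.dvd_of_dvd_mul_left h2)
    omega
  -- the end, common to both signs
  have fin : ∀ (A : TAp) (η : ℤ), (η = 1 ∨ η = -1) → A.p = C.p → A.q = C.q → A.w = C.w →
      A.h = C.h → A.a = η * a → A.e = η * δ → A.sg = sg → A.Fl →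
      ∃ (A : TAp) (T : A.Tie), A.p = C.p ∧ A.q = C.q ∧ A.w = C.w ∧ A.h = C.h ∧ A.Fl ∧
      |T.x| < A.h ∧
      (∀ T' : A.Tie, T'.x = 0 → (C.p : ℤ) * C.q ∣ r - T'.t ∨ (C.p : ℤ) * C.q ∣ r + T'.t) := by
    intro A η hη e1 e2 e3 e4 e5 e6 e7 F
    have hη2 : η * η = 1 := by rcases hη with rfl | rfl <;> norm_num
    obtain ⟨T, hT⟩ := tie_ofG (A := A) (e := e) (x := x) hη he0 (by rw [e1]; exact he2)
      (by
        rw [e1, e2, e3, e5, e7]
        rwa [show η * (η * a) * e = a * e by linear_combination (a * e) * hη2])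
      (by
        rw [e1, e3, e6]
        rwa [show η * (η * δ) * e = δ * e by linear_combination (δ * e) * hη2])
    refine ⟨A, T, e1, e2, e3, e4, F, ?_, ?_⟩
    · have n1 : x ≠ C.h := by
        rintro rfl
        exact T.not_h F (Or.inl (by rw [hT, e4, sub_self]; exact dvd_zero _))
      have n2 : x ≠ -C.h := by
        rintro rfl
        exact T.not_h F (Or.inr (by rw [hT, e4, neg_add_cancel]; exact dvd_zero _))
      rw [hT, abs_lt, e4]
      constructor <;> omega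
    · intro T' hx0
      have := tie_zero T' hx0 (u := u) (r := r) (ε := ε) (η := η) hε hη
        (by rw [e1, e2]; exact hur)
        (by
          rw [e2, e5, ← mul_add]
          exact hqu.mul_left _)
        (by
          rw [e1, e6, e2, mul_assoc, ← mul_add]
          exact hpu.mul_left _)
      rwa [e1, e2] at this
  have d0 := Int.emod_nonneg (a * C.p) hN.ne'
  have d1 := Int.emod_lt_of_pos (a * C.p) hN
  rcases lt_or_ge (2 * ((a * C.p) % C.N)) C.N with h2d | h2d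
  · obtain ⟨A, e1, e2, e3, e4, e5, e6, e7, e8, F⟩ := tap_of (om := 1) hpq hw2 hh2
      hwp hhp hpa hqa hδ hi hik hU hfl hc hpw (Or.inl rfl) (by rwa [one_mul]) h2d
    exact fin A 1 (Or.inl rfl) e1 e2 e3 e4 (by rw [e5, one_mul]) (by rw [e6, one_mul]) e7 F
  · have hmod : (-a * C.p) % C.N = C.N - (a * C.p) % C.N := by
      have := Int.mul_ediv_add_emod (a * C.p) C.N
      refine ((Int.ediv_emod_unique (q := -(a * C.p / C.N) - 1) hN).2 ⟨?_, by omega, ?_⟩).2
      · linear_combination -this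
      · have : (a * C.p) % C.N ≠ 0 := by omega
        omega
    have g1 : ∀ k, (C.p : ℤ) ∣ k - (κ + δ * (C.p - 1) + -δ * (C.p - 1 - i k)) := by
      intro k
      have := hik k
      rwa [show k - (κ + δ * (C.p - 1) + -δ * (C.p - 1 - i k)) = k - (κ + δ * i k) by ring]
    have g2 : ∀ k, C.U k = c + a * (C.p - 1) + -a * (C.p - 1 - i k) := by
      intro k
      rw [hU k]; ring
    have g3 : (sg = -1 ∧ (C.p : ℤ) ∣ c + a * (C.p - 1)) ∨
        (sg = 1 ∧ (C.p : ℤ) ∣ c + a * (C.p - 1) - 1) := by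
      rcases hc with ⟨h1, h2⟩ | ⟨h1, h2⟩
      · left; exact ⟨h1, dvd_add h2 (hpa.mul_right _)⟩
      · right
        refine ⟨h1, ?_⟩
        have := dvd_add h2 (hpa.mul_right ((C.p : ℤ) - 1))
        rwa [show c - 1 + a * ((C.p : ℤ) - 1) = c + a * (C.p - 1) - 1 by ring] at this
    have g4 : (C.p : ℤ) ∣ -δ * C.q + -1 * C.h := by
      rw [← dvd_neg]
      rwa [show -(-δ * (C.q : ℤ) + -1 * C.h) = δ * C.q + C.h by ring]
    have g5 : 2 * ((-a * C.p) % C.N) < C.N := by rw [hmod]; omega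
    obtain ⟨A, e1, e2, e3, e4, e5, e6, e7, e8, F⟩ := tap_of (C := C) (a := -a)
      (c := c + a * (C.p - 1)) (δ := -δ) (κ := κ + δ * (C.p - 1)) (i := fun k => C.p - 1 - i k)
      (om := -1) (sg := sg) hpq hw2 hh2
      hwp hhp ((dvd_neg).2 hpa) hqa.neg_right hδ.neg_left
      (fun k => by have := hi k; constructor <;> omega) g1 g2 hfl g3 hpw (Or.inr rfl) g4 g5
    exact fin A (-1) (Or.inr rfl) e1 e2 e3 e4 (by rw [e5]; ring) (by rw [e6]; ring) e7 F

end Pool.Agent.H67.Flat
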