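import Pool.Agent.H67.Flat.Shift
import Pool.Agent.H67.Gen.Cfg

/-!
# Normalised arithmetic progressions, coprime version
-/

namespace Pool.Agent.H67.Flat

open Finset
open Pool.Agent.H98.Flat

/-- the rectangles form an arithmetic progression modulo `N`; coprime version -/
def APW (C : Cfg) : Prop := ∃ (a c δ κ : ℤ) (i : ℤ → ℤ),
  IsCoprime δ (C.p : ℤ) ∧ IsCoprime (C.q : ℤ) a ∧
  (∀ k, 0 ≤ i k ∧ i k < C.p) ∧ (∀ k, (C.p : ℤ) ∣ k - (κ + δ * i k)) ∧
  (∀ k, C.N ∣ C.U k - (c + a * i k))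

/-- normalised arithmetic progressions, coprime version -/
structure NAPG (C : Cfg) (a δ d : ℤ) (i : ℤ → ℤ) : Prop where
  hU : ∀ k, C.U k = a * i k
  hi : ∀ k, 0 ≤ i k ∧ i k < C.p
  hik : ∀ k, (C.p : ℤ) ∣ k - δ * i k
  hδ : IsCoprime δ (C.p : ℤ)
  haq : IsCoprime (C.q : ℤ) a
  hd : C.N ∣ C.p * a - d
  hd0 : 0 < d
  hd1 : 2 * d < C.N

theorem exists_normG {C : Cfg} (hp : 2 ≤ C.p) (hpq : C.p < C.q) (G : C.Gen) (hfl : C.IsFlat)
    (hap : APW C) : ∃ (C0 : Cfg) (a δ d : ℤ) (i : ℤ → ℤ),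
    C0.p = C.p ∧ C0.q = C.q ∧ C0.w = C.w ∧ C0.h = C.h ∧ C0.Gen ∧ C0.IsFlat ∧
    NAPG C0 a δ d i ∧ (mv C0 d).Gen ∧ (mv C0 d).IsFlat ∧ (C0.Disj → C.Disj) := by
  have hp' : (0 : ℤ) < C.p := by exact_mod_cast C.p_pos
  have hN := C.N_pos
  have hq2 : 2 < C.q := by omega
  have hNe : C.N = C.p * C.q := rfl
  -- construction for one orientation
  have main : ∀ (a c δ κ : ℤ) (i : ℤ → ℤ),
      IsCoprime δ (C.p : ℤ) → IsCoprime (C.q : ℤ) a →
      (∀ k, 0 ≤ i k ∧ i k < C.p) → (∀ k, (C.p : ℤ) ∣ k - (κ + δ * i k)) →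
      (∀ k, C.N ∣ C.U k - (c + a * i k)) → 2 * ((C.p * a) % C.N) < C.N →
      ∃ (C0 : Cfg) (a δ d : ℤ) (i : ℤ → ℤ),
      C0.p = C.p ∧ C0.q = C.q ∧ C0.w = C.w ∧ C0.h = C.h ∧ C0.Gen ∧ C0.IsFlat ∧
      NAPG C0 a δ d i ∧ (mv C0 d).Gen ∧ (mv C0 d).IsFlat ∧ (C0.Disj → C.Disj) := by
    intro a c δ κ i hδ haq hi hik hU h2
    have iper : ∀ k, i (k + C.p) = i k := by
      intro k
      have h3 := dvd_sub (hik (k + C.p)) (hik k)
      rw [show k + (C.p : ℤ) - (κ + δ * i (k + C.p)) - (k - (κ + δ * i k))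
        = C.p - δ * (i (k + C.p) - i k) by ring] at h3
      have h4 := dvd_sub (dvd_refl (C.p : ℤ)) h3
      rw [sub_sub_cancel] at h4
      have h5 := hδ.symm.dvd_of_dvd_mul_left h4
      have b1 := hi (k + C.p)
      have b2 := hi k
      have := Int.eq_zero_of_abs_lt_dvd h5 (by rw [abs_lt]; constructor <;> omega)
      omega
    set C1 := wU C (fun k => c + a * i k) (fun k => by
      simp only [iper, sub_self]; exact dvd_zero _) with hC1
    have hU1 : ∀ k, C.N ∣ (c + a * i k) - C.U k := fun k => by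
      have := hU k
      rwa [← dvd_neg, neg_sub] at this
    set C0 := tr C1 (-c) (-κ) with hC0
    have G0 : C0.Gen := tr_gen (wU_gen G hU1) _ _
    have F0 : C0.IsFlat := tr_flat (wU_flat hfl hU1) _ _
    have U0 : ∀ k, C0.U k = a * i (k + κ) := by
      intro k
      change c + a * i (k - -κ) + -c = _
      rw [sub_neg_eq_add]; ring
    set d := (C.p * a) % C.N with hd
    have d0 := Int.emod_nonneg (C.p * a) hN.ne'
    have hdd : C.N ∣ C.p * a - d := Int.dvd_self_sub_emod
    have dne : d ≠ 0 := by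
      intro h0
      rw [h0, sub_zero] at hdd
      obtain ⟨z, hz⟩ := hdd
      rw [hNe] at hz
      have h1 : a = C.q * z := mul_left_cancel₀ hp'.ne' (by linear_combination hz)
      have h2 := haq.isUnit_of_dvd' dvd_rfl (⟨z, h1⟩ : (C.q : ℤ) ∣ a)
      rcases Int.isUnit_iff.1 h2 with h4 | h4 <;> omega
    have hik0 : ∀ k, (C.p : ℤ) ∣ k - δ * i (k + κ) := by
      intro k
      have := hik (k + κ)
      rwa [show k + κ - (κ + δ * i (k + κ)) = k - δ * i (k + κ) by ring] at this
    have nap : NAPG C0 a δ d (fun k => i (k + κ)) :=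
      ⟨U0, fun k => hi _, hik0, hδ, haq, hdd, by omega, h2⟩
    -- the second window
    have i0 : ∀ k, (C.p : ℤ) ∣ k → i (k + κ) = 0 := by
      intro k hk
      have h3 := dvd_sub hk (hik0 k)
      rw [sub_sub_cancel] at h3
      have h4 := hδ.symm.dvd_of_dvd_mul_left h3
      have := hi (k + κ)
      exact Int.eq_zero_of_abs_lt_dvd h4 (by rw [abs_lt]; constructor <;> omega)
    have i1 : ∀ k, i (k + κ) = 0 → (C.p : ℤ) ∣ k := by
      intro k hk
      have := hik0 k
      rwa [hk, mul_zero, sub_zero] at this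
    have key : ∀ k, C.N ∣ (mv C0 d).U k - (tr C0 a δ).U k := by
      intro k
      have e1 : (tr C0 a δ).U k = a * i (k - δ + κ) + a := by
        change C0.U (k - δ) + a = _
        rw [U0]
      rw [e1]
      have h5 := hik0 (k - δ)
      have h6 := hik0 k
      have h7 : (C.p : ℤ) ∣ δ * (i (k + κ) - i (k - δ + κ) - 1) := by
        have := dvd_sub h5 h6
        rwa [show k - δ - δ * i (k - δ + κ) - (k - δ * i (k + κ))
          = δ * (i (k + κ) - i (k - δ + κ) - 1) by ring] at this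
      have h8 := hδ.symm.dvd_of_dvd_mul_left h7
      have b1 := hi (k + κ)
      have b2 := hi (k - δ + κ)
      by_cases hk : (C.p : ℤ) ∣ k
      · rw [mv_U0 C0 d k hk, U0, i0 k hk]
        rw [i0 k hk] at h8
        have h9 : i (k - δ + κ) = C.p - 1 := by
          have h10 : (C.p : ℤ) ∣ C.p - 1 - i (k - δ + κ) := by
            have := dvd_add (dvd_refl (C.p : ℤ)) h8
            rwa [show (C.p : ℤ) + (0 - i (k - δ + κ) - 1) = C.p - 1 - i (k - δ + κ) by ring] at this
          have := Int.eq_zero_of_abs_lt_dvd h10 (by rw [abs_lt]; constructor <;> omega)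
          omega
        rw [h9]
        rw [show a * 0 + d - (a * ((C.p : ℤ) - 1) + a) = -(C.p * a - d) by ring]
        exact (dvd_neg).2 hdd
      · rw [mv_U C0 d k hk, U0]
        have hne : i (k + κ) ≠ 0 := fun h => hk (i1 k h)
        have h9 := Int.eq_zero_of_abs_lt_dvd h8 (by rw [abs_lt]; constructor <;> omega)
        have h10 : i (k + κ) = i (k - δ + κ) + 1 := by omega
        rw [h10, mul_add, mul_one, sub_self]
        exact dvd_zero _
    have G1 : (mv C0 d).Gen := wU_gen (C := tr C0 a δ) (tr_gen G0 a δ)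
      (per' := (mv C0 d).per) key
    have F1 : (mv C0 d).IsFlat := wU_flat (C := tr C0 a δ) (tr_flat F0 a δ)
      (per' := (mv C0 d).per) key
    refine ⟨C0, a, δ, d, fun k => i (k + κ), rfl, rfl, rfl, rfl, G0, F0, nap, G1, F1, ?_⟩
    intro hD u v
    have := hD (u - c) (v - (c + C.q * κ))
    rw [hC0, tr_R] at this
    change C1.R (u - c - -c) (v - (c + C.q * κ) - (-c + (C.q : ℤ) * -κ)) ≤ 1 at this
    rw [show u - c - -c = u by ring,
      show v - (c + C.q * κ) - (-c + (C.q : ℤ) * -κ) = v by ring, hC1, wU_R hU1] at this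
    exact this
  obtain ⟨a, c, δ, κ, i, hδ, haq, hi, hik, hU⟩ := hap
  rcases lt_or_ge (2 * ((C.p * a) % C.N)) C.N with h | h
  · exact main a c δ κ i hδ haq hi hik hU h
  · -- reverse the index
    refine main (-a) (c + a * (C.p - 1)) (-δ) (κ + δ * (C.p - 1)) (fun k => C.p - 1 - i k)
      hδ.neg_left haq.neg_right
      (fun k => by have := hi k; constructor <;> omega) ?_ ?_ ?_
    · intro k
      have := hik k
      rwa [show k - (κ + δ * (C.p - 1) + -δ * (C.p - 1 - i k)) = k - (κ + δ * i k) by ring]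
    · intro k
      have := hU k
      rwa [show C.U k - (c + a * (C.p - 1) + -a * (C.p - 1 - i k)) = C.U k - (c + a * i k) by
        ring]
    · have d0 := Int.emod_nonneg (C.p * a) hN.ne'
      have d1 := Int.emod_lt_of_pos (C.p * a) hN
      have hmod : (C.p * -a) % C.N = C.N - (C.p * a) % C.N := by
        refine ((Int.ediv_emod_unique (q := -(C.p * a / C.N) - 1) hN).2 ⟨?_, by omega, by omega⟩).2
        have := Int.mul_ediv_add_emod (C.p * a) C.N
        linear_combination -this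
      rw [hmod]
      have hodd : 2 * ((C.p * a) % C.N) ≠ C.N := by
        intro hcon
        have h1 := Int.mul_ediv_add_emod (C.p * a) C.N
        have h2 : (C.q : ℤ) ∣ a * 2 := by
          refine ⟨2 * ((C.p * a) / C.N) + 1, mul_left_cancel₀ hp'.ne' ?_⟩
          linear_combination -2 * h1 + hcon + (2 * ((C.p * a) / C.N) + 1) * hNe
        have h3 := Int.le_of_dvd (by norm_num) (haq.dvd_of_dvd_mul_left h2)
        omega
      omega

end Pool.Agent.H67.Flat
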